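import Mathlib
import Pool.Agent.ISI.Base
import Pool.Agent.ISI.Lin

/-! Definitions for theorem II (project ISF, MP_a09a03_nt): fibres over an algebraically closed
field, general position of the affine form. -/

namespace Pool.Agent.ISF

open Pool.Agent.Helper11 Pool.Agent.ISI Polynomial

/-- general position of the affine form `(a, e)`, and the bounds -/
structure Gen {N : ℕ} (α : Fin N → Fin 2 → ℤ) (β : Fin N → ℤ) (c Δ : ℤ) (a : Fin 2 → ℤ) (e : ℤ)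
    (M : ℕ) : Prop where
  hN3 : 3 ≤ N
  hM : 1 ≤ M
  hα : ∀ i m, |α i m| ≤ M
  hβ : ∀ i, |β i| ≤ M
  hF : Frm M a e
  hdl : ∀ j, dl α a j ≠ 0
  hdist : ∀ i j k l, hypDet α ![i, j] ≠ 0 → hypDet α ![k, l] ≠ 0 →
    hypDet α ![i, j] * d3 α β a e k l = hypDet α ![k, l] * d3 α β a e i j →
    (i = k ∧ j = l) ∨ (i = l ∧ j = k)
  hΔ0 : Δ ≠ 0
  hΔ : ∀ J : Fin 2 → Fin N, hypDet α J ≠ 0 → hypDet α J ∣ Δ
  hΔl : ∀ j, dl α a j ∣ Δ
  hΔc : Δ ^ (N + 1) ∣ c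
  hc : |Δ| ^ 12 * (10 * M : ℤ) ^ (30 * N ^ 3) ≤ |c|

variable {N : ℕ} {F : Type} [Field F]

/-- a point with `av a e = η` -/
noncomputable def pt0 (a : Fin 2 → ℤ) (e : ℤ) (η : F) : Fin 2 → F :=
  fun m => (η - e) * a m / ((a 0 : F) ^ 2 + (a 1 : F) ^ 2)

/-- the points with `av a e = η` -/
noncomputable def ptt (a : Fin 2 → ℤ) (e : ℤ) (η t : F) : Fin 2 → F :=
  ![pt0 a e η 0 - t * a 1, pt0 a e η 1 + t * a 0]

/-- the parameter of the zero of the form `j` -/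
noncomputable def tt (α : Fin N → Fin 2 → ℤ) (β : Fin N → ℤ) (a : Fin 2 → ℤ) (e : ℤ) (η : F)
    (j : Fin N) : F := - av (α j) (β j) (pt0 a e η) / dl α a j

/-- the leading coefficient of the equation of the fibres -/
def CI (α : Fin N → Fin 2 → ℤ) (c : ℤ) (a : Fin 2 → ℤ) : ℤ := c * ∏ j, dl α a j

end Pool.Agent.ISF
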