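import Mathlib
import Pool.Agent.Helper11.CDefs

/-! Symbols of units of `A` and arbitrary rational functions of one affine function. -/

namespace Pool.Agent.ISF

open Pool.Agent.Helper11

/-- The subgroup of `Kˣ` generated by the units of `A` and by the non zero values at `x` of all
polynomials with integral coefficients. -/
def fullGroup (A K : Type) [CommRing A] [Field K] [Algebra A K] (x : K) : Subgroup Kˣ :=
  Subgroup.closure ({u | ∃ f : Aˣ, (u : K) = algebraMap A K f} ∪
    {u | ∃ p : Polynomial ℤ, (u : K) = Polynomial.aeval x p})

/-- The combinations of symbols of elements of `fullGroup A K x`. -/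
noncomputable def fullSym (A K : Type) [CommRing A] [Field K] [Algebra A K] (x : K) :
    Submodule ℚ (KMQ K 2) :=
  Submodule.span ℚ {z | ∃ f : Fin 2 → Kˣ, (∀ i, f i ∈ fullGroup A K x) ∧ z = symM f}

/-- The integral combinations of symbols of elements of `fullGroup A K x`. -/
noncomputable def fullPart (A K : Type) [CommRing A] [Field K] [Algebra A K] (x : K) :
    Submodule ℚ (KMQ K 2) :=
  fullSym A K x ⊓ integralM K 2

end Pool.Agent.ISF
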