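import Mathlib
import Pool.Agent.ISI.Exp
import Pool.Agent.ISI.Glp
import Pool.Agent.ISF.Defs
import Pool.Agent.ISF.Base

/-! MODULE ISF-Expf (normal form of the elements of `fullSym`; from `normal_form` of ISI/Exp).

PROOF. `suppGroup A K Λ x` and `suppSym A K Λ x` (ISI/Defs.lean) increase with `Λ`. Every element of
`fullGroup A K x` is in `suppGroup A K Λ x` for some `Λ` (closure induction; products: maximum of the two
`Λ`; a generator `aeval x p` has `Λ = |leadingCoeff p|`). So every `symM f` with both `f i ∈ fullGroup` is in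
`suppSym A K Λ x` for some `Λ`, and by span induction (maximum for sums) every `z ∈ fullSym` is in some
`suppSym A K Λ x`. Apply `normal_form hx` and `LG_le_LP hx ha Λ` (`sup_le_sup_right`). -/

namespace Pool.Agent.ISF

open Pool.Agent.Helper11 Pool.Agent.ISI Polynomial

variable {N : ℕ} {α : Fin N → Fin 2 → ℤ} {β : Fin N → ℤ} {c : ℤ} {a : Fin 2 → ℤ} {e : ℤ}

private lemma ef_group_mono {A K : Type} [CommRing A] [Field K] [Algebra A K] {Λ Λ' : ℕ}
    (h : Λ ≤ Λ') (x : K) : suppGroup A K Λ x ≤ suppGroup A K Λ' x := by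
  unfold suppGroup
  apply Subgroup.closure_mono
  rintro u (hu | ⟨p, hl, hp⟩)
  · exact Or.inl hu
  · exact Or.inr ⟨p, hl.trans h, hp⟩

private lemma ef_sym_mono {A K : Type} [CommRing A] [Field K] [Algebra A K] {Λ Λ' : ℕ}
    (h : Λ ≤ Λ') (x : K) : suppSym A K Λ x ≤ suppSym A K Λ' x := by
  unfold suppSym
  apply Submodule.span_mono
  rintro z ⟨f, hf, rfl⟩
  exact ⟨f, fun i => ef_group_mono h x (hf i), rfl⟩

private lemma ef_group {A K : Type} [CommRing A] [Field K] [Algebra A K] {x : K} {u : Kˣ}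
    (hu : u ∈ fullGroup A K x) : ∃ Λ : ℕ, u ∈ suppGroup A K Λ x := by
  unfold fullGroup at hu
  induction hu using Subgroup.closure_induction with
  | mem u hu =>
    rcases hu with ⟨f, hf⟩ | ⟨p, hp⟩
    · exact ⟨0, Subgroup.subset_closure (Or.inl ⟨f, hf⟩)⟩
    · exact ⟨p.leadingCoeff.natAbs, Subgroup.subset_closure (Or.inr ⟨p, le_rfl, hp⟩)⟩
  | one => exact ⟨0, Subgroup.one_mem _⟩
  | mul u u' _ _ h h' =>
    obtain ⟨Λ, h⟩ := h
    obtain ⟨Λ', h'⟩ := h'
    exact ⟨max Λ Λ', Subgroup.mul_mem _ (ef_group_mono (le_max_left _ _) x h)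
      (ef_group_mono (le_max_right _ _) x h')⟩
  | inv u _ h =>
    obtain ⟨Λ, h⟩ := h
    exact ⟨Λ, Subgroup.inv_mem _ h⟩

private lemma ef_sym {A K : Type} [CommRing A] [Field K] [Algebra A K] {x : K} {z : KMQ K 2}
    (hz : z ∈ fullSym A K x) : ∃ Λ : ℕ, z ∈ suppSym A K Λ x := by
  unfold fullSym at hz
  induction hz using Submodule.span_induction with
  | mem z hz =>
    obtain ⟨f, hf, rfl⟩ := hz
    obtain ⟨Λ0, h0⟩ := ef_group (hf 0)
    obtain ⟨Λ1, h1⟩ := ef_group (hf 1)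
    refine ⟨max Λ0 Λ1, Submodule.subset_span ⟨f, fun i => ?_, rfl⟩⟩
    fin_cases i
    · exact ef_group_mono (le_max_left _ _) x h0
    · exact ef_group_mono (le_max_right _ _) x h1
  | zero => exact ⟨0, Submodule.zero_mem _⟩
  | add z z' _ _ h h' =>
    obtain ⟨Λ, h⟩ := h
    obtain ⟨Λ', h'⟩ := h'
    exact ⟨max Λ Λ', Submodule.add_mem _ (ef_sym_mono (le_max_left _ _) x h)
      (ef_sym_mono (le_max_right _ _) x h')⟩
  | smul q z _ h =>
    obtain ⟨Λ, h⟩ := h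
    exact ⟨Λ, Submodule.smul_mem _ q h⟩

theorem normal_full {K : Type} [Field K] [CharZero K] [Algebra (HypRingQ (n := 1) α β c) K]
    (hx : Transcendental ℚ (xK α β c K a e)) (ha : a ≠ 0) {z : KMQ K 2}
    (hz : z ∈ fullSym (HypRingQ (n := 1) α β c) K (xK α β c K a e)) :
    ∃ (Λ M : ℕ) (P : Finset ℤ[X]) (w : ℤ[X] → (HypRingQ (n := 1) α β c)ˣ), M ≠ 0 ∧
      (∀ π ∈ P, Irr Λ π) ∧
      (M : ℚ) • z - ∑ π ∈ P, sy (pz (xK α β c K a e) π) (uK α β c K (w π)) ∈
        LP (xK α β c K a e) ⊔ US α β c K := by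
  obtain ⟨Λ, hΛ⟩ := ef_sym hz
  obtain ⟨M, P, w, hM, hP, hm⟩ := normal_form hx hΛ
  exact ⟨Λ, M, P, w, hM, hP, sup_le_sup_right (LG_le_LP hx ha Λ) _ hm⟩

end Pool.Agent.ISF
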