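import Mathlib
import Pool.Agent.ISI.TamB

/-! The logarithmic tame symbol of a place with values in a normed field (after ISI/TamB.lean of
helper96). -/

namespace Pool.Agent.ISF

open Pool.Agent.Helper11 Pool.Agent.ISI Polynomial

variable {K : Type} [Field K] [CharZero K] {F : Type} [NormedField F]

omit [CharZero K] in
private theorem tamb_mem (O : ValuationSubring K) {u : Kˣ} (hu : u ∈ O.unitGroup) : (u : K) ∈ O := by
  rw [← ValuationSubring.valuation_le_one_iff]
  exact (((O.mem_unitGroup_iff u).1 hu)).le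

/-- the logarithmic version -/
theorem exists_tameR (O : ValuationSubring K) [IsDiscreteValuationRing O] (ρ : O →+* F)
    (hρ : ∀ z : O, ρ z = 0 ↔ O.valuation (z : K) < 1) :
    ∃ (τ : KMQ K 2 →ₗ[ℚ] ℝ) (ord : Kˣ → ℤ) (p : Kˣ), IsOrd O p ord ∧
      (∀ x : Kˣ, ∀ u ∈ O.unitGroup, ∀ h : (u : K) ∈ O,
        τ (sy x u) = ord x * Real.log ‖ρ ⟨u, h⟩‖) ∧
      ∀ z ∈ unrM O 2, τ z = 0 := by
  classical
  let χ : Kˣ → ℝ := fun u => if h : (u : K) ∈ O then Real.log ‖ρ ⟨u, h⟩‖ else 0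
  have hval : ∀ (u : Kˣ) (h : (u : K) ∈ O), χ u = Real.log ‖ρ ⟨u, h⟩‖ := fun u h => dif_pos h
  obtain ⟨τ, ord, p, h1, h2, h3⟩ := exists_tame' O χ (by
      intro u hu v hv
      have hu' := tamb_mem O hu
      have hv' := tamb_mem O hv
      have huv' := tamb_mem O (mul_mem hu hv)
      rw [hval u hu', hval v hv', hval (u * v) huv']
      have e : (⟨((u * v : Kˣ) : K), huv'⟩ : O) = ⟨u, hu'⟩ * ⟨v, hv'⟩ := by
        apply Subtype.ext
        simp
      have hne : ∀ (w : Kˣ) (hw : w ∈ O.unitGroup) (hw' : (w : K) ∈ O), ‖ρ ⟨w, hw'⟩‖ ≠ 0 := by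
        intro w hw hw' h0
        rw [norm_eq_zero, hρ] at h0
        have h4 := (O.mem_unitGroup_iff w).1 hw
        exact absurd h4 (ne_of_lt h0)
      rw [e, map_mul, norm_mul, Real.log_mul (hne u hu hu') (hne v hv hv')])
    (by
      intro u hu h0
      have hu' := tamb_mem O hu
      rw [hval u hu']
      have h4 : ρ (⟨u, hu'⟩ - 1) = 0 := by
        rw [hρ]
        exact h0
      rw [map_sub, map_one, sub_eq_zero] at h4
      rw [h4, norm_one, Real.log_one])
  refine ⟨τ, ord, p, h1, ?_, h3⟩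
  intro x u hu h
  rw [h2 x u hu, hval u h, Rat.smul_def, Rat.cast_intCast]

end Pool.Agent.ISF
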