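import Mathlib
import Pool.Agent.ISF.TamR

/-! Comparison of the logarithmic tame symbols at two places over the same value (after
ISI/Cmp.lean of helper21). -/

namespace Pool.Agent.ISF

open Pool.Agent.Helper11 Pool.Agent.ISI Polynomial

variable {K : Type} [Field K] [CharZero K] {x : K} {F : Type} [NormedField F] [CharZero F]

private lemma cmp_poly {O : ValuationSubring K} {ρ : O →+* F} (hQ : ∀ r : ℚ, (r : K) ∈ O)
    (hxO : x ∈ O) {η : F} (hη : ρ ⟨x, hxO⟩ = η) (p : ℚ[X]) :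
    ∃ h : aeval x p ∈ O, ρ ⟨aeval x p, h⟩ = aeval η p := by
  let φ : ℚ →+* O := (Rat.castHom K).codRestrict O.toSubring hQ
  let Φ : ℚ[X] →+* O := eval₂RingHom φ ⟨x, hxO⟩
  have h1 : (O.subtype).comp Φ = (aeval x : ℚ[X] →ₐ[ℚ] K).toRingHom := by
    apply Polynomial.ringHom_ext
    · intro r
      have e1 : Φ (C r) = φ r := by
        simp only [Φ, coe_eval₂RingHom, eval₂_C]
      rw [RingHom.comp_apply, e1]
      change (r : K) = aeval x (C r)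
      rw [aeval_C, eq_ratCast]
    · have e1 : Φ X = ⟨x, hxO⟩ := by
        simp only [Φ, coe_eval₂RingHom, eval₂_X]
      rw [RingHom.comp_apply, e1]
      change x = aeval x (X : ℚ[X])
      rw [aeval_X]
  have h2 : ρ.comp Φ = (aeval η : ℚ[X] →ₐ[ℚ] F).toRingHom := by
    apply Polynomial.ringHom_ext
    · intro r
      have e1 : Φ (C r) = φ r := by
        simp only [Φ, coe_eval₂RingHom, eval₂_C]
      rw [RingHom.comp_apply, e1]
      have e2 : (ρ.comp φ) r = (r : F) := map_ratCast (ρ.comp φ) r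
      rw [RingHom.comp_apply] at e2
      rw [e2]
      change (r : F) = aeval η (C r)
      rw [aeval_C, eq_ratCast]
    · have e1 : Φ X = ⟨x, hxO⟩ := by
        simp only [Φ, coe_eval₂RingHom, eval₂_X]
      rw [RingHom.comp_apply, e1, hη]
      change η = aeval η (X : ℚ[X])
      rw [aeval_X]
  have h3 : ((Φ p : O) : K) = aeval x p := DFunLike.congr_fun h1 p
  have h4 : ρ (Φ p) = aeval η p := DFunLike.congr_fun h2 p
  have h5 : aeval x p ∈ O := by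
    rw [← h3]
    exact (Φ p).2
  refine ⟨h5, ?_⟩
  have h6 : (⟨aeval x p, h5⟩ : O) = Φ p := Subtype.ext h3.symm
  rw [h6, h4]

private lemma cmp_unit (hx : Transcendental ℚ x) {O : ValuationSubring K} {ρ : O →+* F}
    (hρ : ∀ z : O, ρ z = 0 ↔ O.valuation (z : K) < 1) (hQ : ∀ r : ℚ, (r : K) ∈ O)
    (hxO : x ∈ O) {η : F} (hη : ρ ⟨x, hxO⟩ = η) {p : ℚ[X]} (hp : p ≠ 0)
    (hpη : aeval η p ≠ 0) :
    pq x p ∈ O.unitGroup ∧ ∃ h : (pq x p : K) ∈ O, ρ ⟨pq x p, h⟩ = aeval η p := by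
  obtain ⟨h1, h2⟩ := cmp_poly hQ hxO hη p
  have h3 := pq_val hx hp
  have h4 : (pq x p : K) ∈ O := by rw [h3]; exact h1
  have h5 : (⟨(pq x p : K), h4⟩ : O) = ⟨aeval x p, h1⟩ := Subtype.ext h3
  have h6 : ρ ⟨pq x p, h4⟩ = aeval η p := by rw [h5, h2]
  refine ⟨?_, h4, h6⟩
  rw [ValuationSubring.mem_unitGroup_iff]
  have h7 : ¬ O.valuation (pq x p : K) < 1 := by
    intro h
    have h8 := (hρ ⟨pq x p, h4⟩).2 h
    rw [h6] at h8
    exact hpη h8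
  exact le_antisymm (O.valuation_le_one ⟨_, h4⟩) (not_lt.1 h7)

private lemma cmp_ne {π : ℚ[X]} (hπ : Irreducible π) {η : F} (hπη : aeval η π = 0) {p : ℚ[X]}
    (hp : ¬ π ∣ p) : aeval η p ≠ 0 := by
  intro h
  obtain ⟨a, b, hab⟩ := (hπ.coprime_iff_not_dvd).2 hp
  have h1 := congrArg (aeval η) hab
  rw [map_add, map_mul, map_mul, hπη, h, mul_zero, mul_zero, add_zero, map_one] at h1
  exact zero_ne_one h1

private lemma cmp_value (hx : Transcendental ℚ x) {O : ValuationSubring K} {ρ : O →+* F}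
    (hρ : ∀ z : O, ρ z = 0 ↔ O.valuation (z : K) < 1) (hQ : ∀ r : ℚ, (r : K) ∈ O)
    (hxO : x ∈ O) {η : F} (hη : ρ ⟨x, hxO⟩ = η) {τ : KMQ K 2 →ₗ[ℚ] ℝ} {ord : Kˣ → ℤ} {ϖ : Kˣ}
    (H : IsOrd O ϖ ord)
    (hτ : ∀ y : Kˣ, ∀ u ∈ O.unitGroup, ∀ h : (u : K) ∈ O,
      τ (sy y u) = ord y * Real.log ‖ρ ⟨u, h⟩‖)
    {π : ℚ[X]} (hπ : Irreducible π) (hπη : aeval η π = 0) {p q : ℚ[X]} {i j : ℕ}
    (hp : ¬ π ∣ p) (hq : ¬ π ∣ q) :
    τ (sy (pq x (π ^ i * p)) (pq x (π ^ j * q))) =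
      ord (pq x π) * (i * Real.log ‖aeval η q‖ - j * Real.log ‖aeval η p‖) := by
  have hp0 : p ≠ 0 := fun h => hp (by rw [h]; exact dvd_zero π)
  have hq0 : q ≠ 0 := fun h => hq (by rw [h]; exact dvd_zero π)
  have hπ0 : π ≠ 0 := hπ.ne_zero
  obtain ⟨up, hpO, hpv⟩ := cmp_unit hx hρ hQ hxO hη hp0 (cmp_ne hπ hπη hp)
  obtain ⟨uq, hqO, hqv⟩ := cmp_unit hx hρ hQ hxO hη hq0 (cmp_ne hπ hπη hq)
  have hordp : ord (pq x p) = 0 := (H.eq_one_iff _).1 ((O.mem_unitGroup_iff _).1 up)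
  have t1 : τ (sy (pq x π) (pq x q)) = ord (pq x π) * Real.log ‖aeval η q‖ := by
    rw [hτ _ _ uq hqO, hqv]
  have t2 : τ (sy (pq x π) (pq x p)) = ord (pq x π) * Real.log ‖aeval η p‖ := by
    rw [hτ _ _ up hpO, hpv]
  have t3 : τ (sy (pq x p) (pq x q)) = 0 := by
    rw [hτ _ _ uq hqO, hordp, Int.cast_zero, zero_mul]
  have e1 : sy (pq x (π ^ i * p)) (pq x (π ^ j * q)) =
      (i : ℚ) • sy (pq x π) (pq x q) - (j : ℚ) • sy (pq x π) (pq x p) +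
        sy (pq x p) (pq x q) := by
    rw [pq_mul hx (pow_ne_zero i hπ0) hp0, pq_mul hx (pow_ne_zero j hπ0) hq0, pq_pow hx hπ0,
      pq_pow hx hπ0, sy_mul_left, sy_mul_right, sy_mul_right, ← zpow_natCast, ← zpow_natCast,
      sy_zpow_left, sy_zpow_left, sy_zpow_right, sy_zpow_right, sy_self,
      sy_anti (pq x p) (pq x π)]
    push_cast
    module
  rw [e1, map_add, map_sub, map_smul, map_smul, t1, t2, t3, Rat.smul_def, Rat.smul_def]
  push_cast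
  ring

theorem tame_compare (hx : Transcendental ℚ x) {O O' : ValuationSubring K} {ρ : O →+* F}
    {ρ' : O' →+* F} (hρ : ∀ z : O, ρ z = 0 ↔ O.valuation (z : K) < 1)
    (hρ' : ∀ z : O', ρ' z = 0 ↔ O'.valuation (z : K) < 1)
    (hQ : ∀ r : ℚ, (r : K) ∈ O) (hQ' : ∀ r : ℚ, (r : K) ∈ O') (hxO : x ∈ O) (hxO' : x ∈ O')
    {η : F} (hη : ρ ⟨x, hxO⟩ = η) (hη' : ρ' ⟨x, hxO'⟩ = η)
    {τ τ' : KMQ K 2 →ₗ[ℚ] ℝ} {ord ord' : Kˣ → ℤ} {ϖ ϖ' : Kˣ} (H : IsOrd O ϖ ord)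
    (H' : IsOrd O' ϖ' ord')
    (hτ : ∀ y : Kˣ, ∀ u ∈ O.unitGroup, ∀ h : (u : K) ∈ O,
      τ (sy y u) = ord y * Real.log ‖ρ ⟨u, h⟩‖)
    (hτ' : ∀ y : Kˣ, ∀ u ∈ O'.unitGroup, ∀ h : (u : K) ∈ O',
      τ' (sy y u) = ord' y * Real.log ‖ρ' ⟨u, h⟩‖)
    {π : ℚ[X]} (hπ : Irreducible π) (hπη : aeval η π = 0) {z : KMQ K 2} (hz : z ∈ LP x) :
    (ord' (pq x π) : ℝ) * τ z = (ord (pq x π) : ℝ) * τ' z := by
  unfold LP at hz
  induction hz using Submodule.span_induction with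
  | mem z h =>
    obtain ⟨p, q, hp, hq, rfl⟩ := h
    obtain ⟨i, p', hp', rfl⟩ := WfDvdMonoid.max_power_factor hp hπ
    obtain ⟨j, q', hq', rfl⟩ := WfDvdMonoid.max_power_factor hq hπ
    rw [cmp_value hx hρ hQ hxO hη H hτ hπ hπη hp' hq',
      cmp_value hx hρ' hQ' hxO' hη' H' hτ' hπ hπη hp' hq']
    ring
  | zero => rw [map_zero, map_zero, mul_zero, mul_zero]
  | add y z _ _ hy hz =>
    rw [map_add, map_add, mul_add, mul_add, hy, hz]
  | smul a z _ hz =>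
    rw [map_smul, map_smul, Rat.smul_def, Rat.smul_def, mul_left_comm, hz, mul_left_comm]

end Pool.Agent.ISF
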