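import Mathlib
import Pool.Agent.ISF.Base

/-! Distinct normalized irreducible polynomials have no common root (after ISI/ExpA.lean of
helper32). -/

namespace Pool.Agent.ISF

open Pool.Agent.Helper11 Pool.Agent.ISI Polynomial

variable {F : Type} [Field F] [CharZero F]

theorem coprime_roots {Λ : ℕ} {π π' : ℤ[X]} (h : Irr Λ π) (h' : Irr Λ π') (hne : π ≠ π') {η : F}
    (h1 : aeval η π = 0) (h2 : aeval η π' = 0) : False := by
  have hprim : ∀ {π : ℤ[X]}, Irr Λ π → π.IsPrimitive := fun h =>
    h.irr.isPrimitive (Nat.pos_iff_ne_zero.1 h.deg)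
  have hass : ∀ {π : ℤ[X]}, Irr Λ π → aeval η π = 0 →
      Associated (minpoly ℚ η) (π.map (Int.castRingHom ℚ)) := by
    intro π h h1
    have hirr : Irreducible (π.map (Int.castRingHom ℚ)) :=
      (IsPrimitive.Int.irreducible_iff_irreducible_map_cast (hprim h)).1 h.irr
    have h2 : aeval η (π.map (Int.castRingHom ℚ)) = 0 := by
      rw [aeval_map, h1]
    have hint : IsIntegral ℚ η :=
      (isAlgebraic_iff_isIntegral (K := ℚ)).1 ⟨_, hirr.ne_zero, h2⟩
    exact (minpoly.irreducible hint).associated_of_dvd hirr (minpoly.dvd ℚ η h2)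
  have h3 : Associated (π.map (Int.castRingHom ℚ)) (π'.map (Int.castRingHom ℚ)) :=
    (hass h h1).symm.trans (hass h' h2)
  have h4 : π ∣ π' :=
    (IsPrimitive.Int.dvd_iff_map_cast_dvd_map_cast π π' (hprim h)).2 h3.dvd
  have h5 : Associated π π' := h.irr.associated_of_dvd h'.irr h4
  obtain ⟨u, hu⟩ := h5
  obtain ⟨r, hr, hru⟩ := Polynomial.isUnit_iff.1 u.isUnit
  apply hne
  rcases Int.isUnit_iff.1 hr with h6 | h6
  · rw [h6, C_1] at hru
    rw [← hru, mul_one] at hu
    exact hu
  · exfalso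
    rw [h6] at hru
    have h7 : π' = -π := by
      rw [← hu, ← hru, C_neg, C_1]
      ring
    have h8 := h'.pos
    rw [h7, leadingCoeff_neg] at h8
    have h9 := h.pos
    omega

end Pool.Agent.ISF
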