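import Mathlib

/-! Extension of a homomorphism to an algebraically closed field along an integral extension; the
valuation ring of a maximal ideal (after ISI/Ptsb.lean of helper4). -/

namespace Pool.Agent.ISF

open Polynomial

variable {F : Type} [Field F]

theorem exists_ext [IsAlgClosed F] (A : Type) [CommRing A] [IsDomain A] (K : Type) [Field K] [Algebra A K]
    [IsFractionRing A K] (B : Subring K) (hA : ∀ b : A, algebraMap A K b ∈ B)
    (hB : ∀ z ∈ B, (algebraMap A K).IsIntegralElem z) (φ : A →+* F) :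
    ∃ φ' : B →+* F, ∀ b : A, φ' ⟨algebraMap A K b, hA b⟩ = φ b := by
  classical
  let j : A →+* B := (algebraMap A K).codRestrict B hA
  have hj : ∀ a, j a = ⟨algebraMap A K a, hA a⟩ := fun a => rfl
  have hjinj : Function.Injective j := by
    intro a b hab
    have := congrArg Subtype.val hab
    exact IsFractionRing.injective A K this
  let _ : Algebra A B := j.toAlgebra
  have halg : algebraMap A B = j := rfl
  haveI hint : Algebra.IsIntegral A B := by
    refine ⟨fun z => ?_⟩
    obtain ⟨p, hp, hp0⟩ := hB z.1 z.2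
    refine ⟨p, hp, ?_⟩
    apply Subtype.coe_injective
    have h1 : B.subtype (eval₂ (algebraMap A B) z p) = eval₂ (B.subtype.comp (algebraMap A B)) (B.subtype z) p :=
      Polynomial.hom_eval₂ p (algebraMap A B) B.subtype z
    have h2 : B.subtype.comp (algebraMap A B) = algebraMap A K := by
      ext a; rfl
    rw [h2] at h1
    exact h1.trans hp0
  let P : Ideal A := RingHom.ker φ
  haveI hP : P.IsPrime := RingHom.ker_isPrime φ
  have hcomap : (⊥ : Ideal B).comap (algebraMap A B) ≤ P := by
    intro a ha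
    have : j a = 0 := ha
    have h0 : a = 0 := hjinj (by rw [this, map_zero])
    rw [h0]; exact P.zero_mem
  obtain ⟨Q, -, hQ, hQP⟩ := Ideal.exists_ideal_over_prime_of_isIntegral P (⊥ : Ideal B) hcomap
  haveI := hQ
  haveI hover : Q.LiesOver P := ⟨hQP.symm⟩
  haveI hintq : Algebra.IsIntegral (A ⧸ P) (B ⧸ Q) := by infer_instance
  let f : (A ⧸ P) →+* F := RingHom.kerLift φ
  have hf : Function.Injective f := RingHom.kerLift_injective φ
  letI : Algebra (A ⧸ P) F := f.toAlgebra
  haveI : FaithfulSMul (A ⧸ P) F := (faithfulSMul_iff_algebraMap_injective _ _).2 hf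
  haveI : FaithfulSMul (A ⧸ P) (B ⧸ Q) := by
    rw [faithfulSMul_iff_algebraMap_injective, injective_iff_map_eq_zero]
    intro x hx
    obtain ⟨a, rfl⟩ := Ideal.Quotient.mk_surjective x
    have h1 : Ideal.Quotient.mk Q (j a) = 0 := hx
    rw [Ideal.Quotient.eq_zero_iff_mem] at h1 ⊢
    have h2 : a ∈ Q.comap (algebraMap A B) := h1
    rw [hQP] at h2
    exact h2
  haveI hTF : Module.IsTorsionFree (A ⧸ P) (B ⧸ Q) := .trans_faithfulSMul (A ⧸ P) (B ⧸ Q) (B ⧸ Q)
  haveI halg' : Algebra.IsAlgebraic (A ⧸ P) (B ⧸ Q) := Algebra.IsIntegral.isAlgebraic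
  let g : (B ⧸ Q) →ₐ[A ⧸ P] F := IsAlgClosed.lift
  refine ⟨g.toRingHom.comp (Ideal.Quotient.mk Q), fun b => ?_⟩
  have h1 : (Ideal.Quotient.mk Q ⟨algebraMap A K b, hA b⟩) = algebraMap (A ⧸ P) (B ⧸ Q) (Ideal.Quotient.mk P b) := rfl
  have h2 : g (algebraMap (A ⧸ P) (B ⧸ Q) (Ideal.Quotient.mk P b)) = algebraMap (A ⧸ P) F (Ideal.Quotient.mk P b) :=
    g.commutes _
  have h3 : algebraMap (A ⧸ P) F (Ideal.Quotient.mk P b) = φ b := RingHom.kerLift_mk φ b
  exact (congrArg g h1).trans (h2.trans h3)

theorem exists_val (K : Type) [Field K] (B : Subring K) [IsDedekindDomain B] [IsFractionRing B K]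
    (φ : B →+* F) (b : B) (hb : b ≠ 0) (hφ : φ b = 0) :
    ∃ (O : ValuationSubring K) (ρ : O →+* F), IsDiscreteValuationRing O ∧
      (∀ z : B, ∃ h : (z : K) ∈ O, ρ ⟨z, h⟩ = φ z) ∧
      ∀ z : O, ρ z = 0 ↔ O.valuation (z : K) < 1 := by
  classical
  let P : Ideal B := RingHom.ker φ
  haveI hP : P.IsPrime := RingHom.ker_isPrime φ
  have hPne : P ≠ ⊥ := by
    intro h
    have : b ∈ P := hφ
    rw [h] at this
    exact hb this
  have hle : P.primeCompl ≤ nonZeroDivisors B := P.primeCompl_le_nonZeroDivisors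
  let R : Subalgebra B K := Localization.subalgebra.ofField K P.primeCompl hle
  haveI hloc : IsLocalization P.primeCompl R := Localization.subalgebra.isLocalization_ofField K P.primeCompl hle
  haveI hfrac : IsFractionRing R K := Localization.subalgebra.isFractionRing_ofField K P.primeCompl hle
  haveI hloc' : IsLocalization.AtPrime R P := hloc
  haveI hdvr : IsDiscreteValuationRing R :=
    IsLocalization.AtPrime.isDiscreteValuationRing_of_dedekind_domain B hPne R
  have hor : ∀ x : K, x ∈ R ∨ x⁻¹ ∈ R := by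
    intro x
    rcases ValuationRing.isInteger_or_isInteger R x with h | h
    · left
      obtain ⟨r, hr⟩ := h
      rw [← hr]; exact r.2
    · right
      obtain ⟨r, hr⟩ := h
      rw [← hr]; exact r.2
  let O : ValuationSubring K := { R.toSubring with mem_or_inv_mem' := hor }
  have hunit : ∀ y : P.primeCompl, IsUnit (φ y) := by
    intro y
    rw [isUnit_iff_ne_zero]
    exact fun h => y.2 h
  let ρ : O →+* F := (IsLocalization.lift (M := P.primeCompl) (S := R) hunit : R →+* F)
  have hρ : ∀ z : B, ρ (⟨(z : K), R.algebraMap_mem z⟩ : O) = φ z := by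
    intro z
    exact IsLocalization.lift_eq (M := P.primeCompl) (S := R) hunit z
  refine ⟨O, ρ, hdvr, fun z => ⟨R.algebraMap_mem z, hρ z⟩, fun z => ?_⟩
  rw [← ValuationSubring.valuation_lt_one_iff O z, IsLocalRing.mem_maximalIdeal, mem_nonunits_iff]
  constructor
  · intro h hu
    exact (hu.map ρ).ne_zero h
  · intro h
    by_contra hne
    apply h
    obtain ⟨⟨x, y⟩, hxy⟩ := IsLocalization.surj (M := P.primeCompl) (S := R) (z : R)
    have h1 : ρ z * φ y = φ x := by
      have := congrArg (IsLocalization.lift (M := P.primeCompl) (S := R) hunit : R →+* F) hxy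
      rw [map_mul, IsLocalization.lift_eq, IsLocalization.lift_eq] at this
      exact this
    have hx : φ x ≠ 0 := by
      rw [← h1]
      exact mul_ne_zero hne (hunit y).ne_zero
    have hx' : x ∈ P.primeCompl := fun h => hx h
    have hux : IsUnit (algebraMap B R x) := IsLocalization.map_units (M := P.primeCompl) R ⟨x, hx'⟩
    rw [← hxy] at hux
    exact isUnit_of_mul_isUnit_left hux

end Pool.Agent.ISF
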