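import Mathlib
import Pool.Agent.ISF.Cop
import Pool.Agent.ISF.Unr
import Pool.Agent.ISF.Cmp
import Pool.Agent.ISF.Pts
import Pool.Agent.ISI.Fib

/-! The absolute value of `w` is constant on the fibres, for every algebraically closed normed
field. -/

namespace Pool.Agent.ISF

open Pool.Agent.Helper11 Pool.Agent.ISI Polynomial

variable {N : ℕ} {α : Fin N → Fin 2 → ℤ} {β : Fin N → ℤ} {c : ℤ} {a : Fin 2 → ℤ} {e : ℤ}
variable {F : Type} [NormedField F] [CharZero F]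

theorem tame_value
    {K : Type} [Field K] [CharZero K] [Algebra (HypRingQ (n := 1) α β c) K]
    (hx : Transcendental ℚ (xK α β c K a e)) {Λ : ℕ}
    {ω : KMQ K 2} (hω : ω ∈ US α β c K) {γ : KMQ K 2} {P : Finset ℤ[X]}
    (hP : ∀ π ∈ P, Irr Λ π) {w : ℤ[X] → (HypRingQ (n := 1) α β c)ˣ}
    (hint : ω + (γ + ∑ π ∈ P, sy (pz (xK α β c K a e) π) (uK α β c K (w π))) ∈ integralM K 2)
    {π : ℤ[X]} (hπ : π ∈ P)
    {O : ValuationSubring K} (hO1 : IsDiscreteValuationRing O) {ρ : O →+* F}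
    {φ : HypRingQ (n := 1) α β c →+* F}
    (hO : ∀ f : HypRingQ (n := 1) α β c, ∃ h : algebraMap _ K f ∈ O, ρ ⟨algebraMap _ K f, h⟩ = φ f)
    (hρ : ∀ z : O, ρ z = 0 ↔ O.valuation (z : K) < 1)
    (h0 : aeval (φ (affFun α β c a e)) π = 0)
    {τ : KMQ K 2 →ₗ[ℚ] ℝ} {ord : Kˣ → ℤ}
    (hτ : ∀ y : Kˣ, ∀ u ∈ O.unitGroup, ∀ h : (u : K) ∈ O,
      τ (sy y u) = ord y * Real.log ‖ρ ⟨u, h⟩‖)
    (hz0 : ∀ z ∈ unrM O 2, τ z = 0) :
    τ γ + ord (pz (xK α β c K a e) π) * Real.log ‖φ (w π)‖ = 0 := by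
  classical
  have hz : τ (ω + (γ + ∑ π ∈ P, sy (pz (xK α β c K a e) π) (uK α β c K (w π)))) = 0 := by
    refine hz0 _ ?_
    unfold integralM at hint
    rw [Submodule.mem_iInf] at hint
    have h1 := hint O
    rw [Submodule.mem_iInf] at h1
    exact h1 hO1
  have hsy : ∀ u v : Kˣ, u ∈ O.unitGroup → v ∈ O.unitGroup → τ (sy u v) = 0 := by
    intro u v hu hv
    refine hz0 _ (Submodule.subset_span ⟨![u, v], ?_, rfl⟩)
    intro m
    fin_cases m
    · exact hu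
    · exact hv
  have hw : ∀ π', uK α β c K (w π') ∈ O.unitGroup := fun π' => UA_unit hO (uK_mem _)
  have hown : ∀ π' ∈ P, π' ≠ π →
      τ (sy (pz (xK α β c K a e) π') (uK α β c K (w π'))) = 0 := by
    intro π' hπ' hn
    refine hsy _ _ ?_ (hw π')
    refine pz_unit hO hρ hx (hP π' hπ').irr.ne_zero fun h => ?_
    exact coprime_roots (hP π' hπ') (hP π hπ) hn h h0
  obtain ⟨hmem, hval⟩ := hO (w π : HypRingQ (n := 1) α β c)
  rw [map_add, hz0 _ (US_unr hO hω), zero_add, map_add, map_sum,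
    Finset.sum_eq_single π hown (fun h => absurd hπ h),
    hτ (pz (xK α β c K a e) π) (uK α β c K (w π)) (hw π) hmem] at hz
  have h5 : ρ ⟨(uK α β c K (w π) : K), hmem⟩ = φ (w π) := hval
  rw [h5] at hz
  exact hz

theorem norm_eq [IsAlgClosed F] (hG : Good α β c)
    {K : Type} [Field K] [CharZero K] [Algebra (HypRingQ (n := 1) α β c) K]
    [IsFractionRing (HypRingQ (n := 1) α β c) K]
    (hx : Transcendental ℚ (xK α β c K a e)) {Λ : ℕ}
    {ω : KMQ K 2} (hω : ω ∈ US α β c K) {γ : KMQ K 2}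
    (hγ : γ ∈ LP (xK α β c K a e)) {P : Finset ℤ[X]}
    (hP : ∀ π ∈ P, Irr Λ π) {w : ℤ[X] → (HypRingQ (n := 1) α β c)ˣ}
    (hint : ω + (γ + ∑ π ∈ P, sy (pz (xK α β c K a e) π) (uK α β c K (w π))) ∈ integralM K 2)
    {π : ℤ[X]} (hπ : π ∈ P) (φ φ' : HypRingQ (n := 1) α β c →+* F)
    (h : φ (affFun α β c a e) = φ' (affFun α β c a e))
    (h0 : aeval (φ (affFun α β c a e)) π = 0) :
    ‖φ (w π)‖ = ‖φ' (w π)‖ := by
  have hIrr := hP π hπ
  have hπ0 : π ≠ 0 := hIrr.irr.ne_zero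
  set b : HypRingQ (n := 1) α β c := aeval (affFun α β c a e) π with hb
  have hmapb : ∀ {S : Type} [CommRing S] (f : HypRingQ (n := 1) α β c →+* S),
      f b = aeval (f (affFun α β c a e)) π := by
    intro S _ f
    rw [hb, aeval_def, aeval_def, hom_eval₂]
    congr 1
    exact RingHom.ext_int _ _
  have hbK : algebraMap _ K b = aeval (xK α β c K a e) π := hmapb _
  have hb0 : b ≠ 0 := by
    intro h1
    rw [h1, map_zero] at hbK
    have h2 := (pz (xK α β c K a e) π).ne_zero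
    rw [pz_val hx hπ0, ← hbK] at h2
    exact h2 rfl
  have hφb : φ b = 0 := (hmapb φ).trans h0
  have hφb' : φ' b = 0 := by
    rw [hmapb φ', ← h]
    exact h0
  obtain ⟨O, ρ, hO1, hO, hρ⟩ := exists_place hG K φ hb0 hφb
  obtain ⟨O', ρ', hO1', hO', hρ'⟩ := exists_place hG K φ' hb0 hφb'
  obtain ⟨τ, ord, ϖ, H, hτ, hz⟩ := exists_tameR O ρ hρ
  obtain ⟨τ', ord', ϖ', H', hτ', hz'⟩ := exists_tameR O' ρ' hρ'
  have e1 := tame_value hx hω hP hint hπ hO1 hO hρ h0 hτ hz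
  have e2 := tame_value hx hω hP hint hπ hO1' hO' hρ' (by rw [← h]; exact h0) hτ' hz'
  obtain ⟨m1, m2⟩ := hO (affFun α β c a e)
  obtain ⟨m1', m2'⟩ := hO' (affFun α β c a e)
  have hirrQ : Irreducible (π.map (Int.castRingHom ℚ)) :=
    (IsPrimitive.Int.irreducible_iff_irreducible_map_cast
      (hIrr.irr.isPrimitive hIrr.deg.ne')).1 hIrr.irr
  have e3 := tame_compare hx hρ hρ' (rat_mem hO) (rat_mem hO') m1 m1' m2
    (m2'.trans h.symm) H H' hτ hτ' (π := π.map (Int.castRingHom ℚ)) hirrQ (by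
      have h5 : (Int.castRingHom ℚ) = algebraMap ℤ ℚ := rfl
      rw [h5, aeval_map_algebraMap]
      exact h0) hγ
  have hpz : pq (xK α β c K a e) (π.map (Int.castRingHom ℚ)) =
    pz (xK α β c K a e) π := rfl
  rw [hpz] at e3
  have hval : ∀ (O : ValuationSubring K) (ρ : O →+* F) (φ : HypRingQ (n := 1) α β c →+* F)
      (ord : Kˣ → ℤ) (ϖ : Kˣ), IsOrd O ϖ ord →
      (∀ f : HypRingQ (n := 1) α β c, ∃ h : algebraMap _ K f ∈ O,
        ρ ⟨algebraMap _ K f, h⟩ = φ f) →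
      (∀ z : O, ρ z = 0 ↔ O.valuation (z : K) < 1) → φ b = 0 →
      0 < ord (pz (xK α β c K a e) π) := by
    intro O ρ φ ord ϖ H hO hρ hφb
    rw [← H.lt_one_iff, pz_val hx hπ0, ← hbK]
    obtain ⟨h1, h2⟩ := hO b
    exact (hρ ⟨_, h1⟩).1 (h2.trans hφb)
  have p1 := hval O ρ φ ord ϖ H hO hρ hφb
  have p2 := hval O' ρ' φ' ord' ϖ' H' hO' hρ' hφb'
  have p1' : (0 : ℝ) < ord (pz (xK α β c K a e) π) := by exact_mod_cast p1
  have p2' : (0 : ℝ) < ord' (pz (xK α β c K a e) π) := by exact_mod_cast p2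
  have hlog : Real.log ‖φ (w π)‖ = Real.log ‖φ' (w π)‖ := by
    have h3 : τ γ = - (ord (pz (xK α β c K a e) π) * Real.log ‖φ (w π)‖) := by
      linarith
    have h4 : τ' γ = - (ord' (pz (xK α β c K a e) π) * Real.log ‖φ' (w π)‖) := by
      linarith
    rw [h3, h4] at e3
    have h5 : (ord' (pz (xK α β c K a e) π) : ℝ) * ord (pz (xK α β c K a e) π) *
        (Real.log ‖φ (w π)‖ - Real.log ‖φ' (w π)‖) = 0 := by
      linear_combination -e3
    have h6 := (mul_eq_zero.1 h5).resolve_left (mul_pos p2' p1').ne'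
    linarith
  have hne : ∀ φ : HypRingQ (n := 1) α β c →+* F, 0 < ‖φ (w π)‖ := fun φ =>
    norm_pos_iff.2 ((w π).isUnit.map φ).ne_zero
  exact Real.log_injOn_pos (hne φ) (hne φ') hlog

end Pool.Agent.ISF
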