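import Mathlib

/-! The matrix of the logarithms `log |r i - t j| - log ρ` for the roots `r i` of
`C ∏ (x - t j) = 1`, `|C| ρ ^ N = 1` (project ISF). -/

namespace Pool.Agent.ISF

/-- rows and columns of the matrix are orthogonal to the constant vector, the rows to `b` -/
structure Mat {N : ℕ} {F : Type} [NormedField F] (ρ : ℝ) (t r : Fin N → F) (b : Fin N → ℝ) :
    Prop where
  hρ : 0 < ρ
  hne : ∀ i j, r i ≠ t j
  hrow : ∀ i, ∑ j, (Real.log ‖r i - t j‖ - Real.log ρ) = 0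
  hcol : ∀ j, ∑ i, (Real.log ‖r i - t j‖ - Real.log ρ) = 0
  hb : ∀ i, ∑ j, b j * (Real.log ‖r i - t j‖ - Real.log ρ) = 0

/-- the separation of the complex points -/
noncomputable def sM (M : ℕ) : ℝ := 1 / (32 * (M : ℝ) ^ 8)

/-- a bound for the distances -/
noncomputable def RM (M : ℕ) : ℝ := 20 * (M : ℝ) ^ 5

/-- the final constant -/
noncomputable def XM (N M : ℕ) : ℝ :=
  16 * (M : ℝ) ^ 8 * (1 + Real.exp (11 * N)) ^ 2 * (64 * (M : ℝ) ^ 8) ^ (N - 2)

variable {N : ℕ} {F : Type} [NormedField F] {ρ : ℝ} {t r : Fin N → F} {b : Fin N → ℝ}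

lemma Mat.pos (h : Mat ρ t r b) (i j : Fin N) : 0 < ‖r i - t j‖ :=
  norm_pos_iff.2 (sub_ne_zero.2 (h.hne i j))

/-- there is a root close to every point -/
lemma Mat.near (h : Mat ρ t r b) (j : Fin N) : ∃ i, ‖r i - t j‖ ≤ ρ := by
  by_contra hcon
  push Not at hcon
  have h1 : 0 < ∑ i, (Real.log ‖r i - t j‖ - Real.log ρ) := by
    refine Finset.sum_pos (fun i _ => sub_pos.2 (Real.log_lt_log h.hρ (hcon i))) ⟨j, ?_⟩
    exact Finset.mem_univ j
  rw [h.hcol j] at h1
  exact lt_irrefl _ h1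

/-- change of sign -/
lemma Mat.neg (h : Mat ρ t r b) : Mat ρ t r (fun j => -b j) := by
  refine ⟨h.hρ, h.hne, h.hrow, h.hcol, fun i => ?_⟩
  simp only [neg_mul, Finset.sum_neg_distrib, h.hb i, neg_zero]

/-- permutation of the roles of equal data: adding a constant -/
lemma Mat.add (h : Mat ρ t r b) (m : ℝ) : Mat ρ t r (fun j => b j + m) := by
  refine ⟨h.hρ, h.hne, h.hrow, h.hcol, fun i => ?_⟩
  simp only [add_mul, Finset.sum_add_distrib, ← Finset.mul_sum, h.hb i, h.hrow i, mul_zero,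
    add_zero]

end Pool.Agent.ISF
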