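import Mathlib
import Pool.Agent.ISF.Mat

/-! One close pair: outside the pair the vector `b` is small, and on the pair it is nearly
antisymmetric (maximum principle for the matrix of the logarithms). -/

namespace Pool.Agent.ISF

private lemma log_diff {x y a d : ℝ} (ha : 0 < a) (hx : a ≤ x) (hy : a ≤ y) (hxy : |x - y| ≤ d) :
    |Real.log x - Real.log y| ≤ d / a := by
  have hx0 : 0 < x := lt_of_lt_of_le ha hx
  have hy0 : 0 < y := lt_of_lt_of_le ha hy
  have hd : 0 ≤ d := (abs_nonneg _).trans hxy
  have key : ∀ u v : ℝ, a ≤ u → a ≤ v → |u - v| ≤ d → Real.log u - Real.log v ≤ d / a := by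
    intro u v hu hv huv
    have hu0 : 0 < u := lt_of_lt_of_le ha hu
    have hv0 : 0 < v := lt_of_lt_of_le ha hv
    rw [← Real.log_div hu0.ne' hv0.ne']
    have h1 := Real.log_le_sub_one_of_pos (div_pos hu0 hv0)
    have h2 : u / v - 1 = (u - v) / v := by field_simp
    rw [h2] at h1
    refine h1.trans ?_
    calc (u - v) / v ≤ d / v := by
          gcongr
          exact (le_abs_self _).trans huv
      _ ≤ d / a := by gcongr
  rw [abs_le]
  constructor
  · have := key y x hy hx (by rw [abs_sub_comm]; exact hxy)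
    linarith
  · exact key x y hx hy hxy

private lemma key {N : ℕ} {F : Type} [NormedField F] {ρ s A : ℝ} {t r : Fin N → F}
    {b : Fin N → ℝ} (h : Mat ρ t r b) (hb0 : ∑ j, b j = 0) (hs : 4 * ρ ≤ s) {p q : Fin N}
    (hpq : p ≠ q) (hd : ‖t p - t q‖ ≤ s / 4)
    (hsep : ∀ j k, j ≠ k → ¬ (j = p ∧ k = q) → ¬ (j = q ∧ k = p) → s ≤ ‖t j - t k‖)
    (hA : ∀ j, |b j| ≤ A) :
    (∀ l, l ≠ p → l ≠ q → b l * Real.log (s / (2 * ρ)) ≤ 2 * A) ∧
      ((b p + b q) / 2) * Real.log (s / (2 * ρ)) ≤ 2 * A := by
  classical
  have hρ := h.hρ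
  have hs0 : 0 < s := by linarith
  have hA0 : 0 ≤ A := (abs_nonneg _).trans (hA p)
  set Lg := Real.log (s / (2 * ρ)) with hLg
  have hLg0 : 0 ≤ Lg := Real.log_nonneg (by rw [le_div_iff₀ (by linarith)]; linarith)
  have hLg1 : Lg = Real.log (s / 2) - Real.log ρ := by
    rw [hLg, ← Real.log_div (by positivity) hρ.ne']
    congr 1
    field_simp
  set u : Fin N → Fin N → ℝ := fun i j => Real.log ‖r i - t j‖ - Real.log ρ with hu
  have hrow : ∀ i, ∑ j, u i j = 0 := h.hrow
  have hcol : ∀ j, ∑ i, u i j = 0 := h.hcol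
  have hbr : ∀ i, ∑ j, b j * u i j = 0 := h.hb
  set c : ℝ := (b p + b q) / 2 with hc
  set β : ℝ := (b p - b q) / 2 with hβ
  have hβA : |β| ≤ A := by
    rw [hβ, abs_div, abs_two, div_le_iff₀ (by norm_num)]
    calc |b p - b q| ≤ |b p| + |b q| := abs_sub _ _
      _ ≤ A * 2 := by linarith [hA p, hA q]
  set b' : Fin N → ℝ := fun j => if j = p ∨ j = q then c else b j with hb'
  have hb'p : b' p = c := by simp [hb']
  have hb'q : b' q = c := by simp [hb']
  have hb'l : ∀ l, l ≠ p → l ≠ q → b' l = b l := by
    intro l h1 h2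
    simp [hb', h1, h2]
  have hdiff : ∀ j, b' j = b j - (if j = p then β else 0) + (if j = q then β else 0) := by
    intro j
    by_cases h1 : j = p
    · subst h1
      simp [hb', hpq, hc, hβ]
      ring
    · by_cases h2 : j = q
      · subst h2
        simp [hb', h1, hc, hβ]
        ring
      · simp [hb', h1, h2]
  have hsum : ∑ j, b' j = 0 := by
    simp_rw [hdiff]
    rw [Finset.sum_add_distrib, Finset.sum_sub_distrib, hb0]
    simp
  have hrow' : ∀ i, ∑ j, b' j * u i j = - (β * (u i p - u i q)) := by
    intro i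
    simp_rw [hdiff, add_mul, sub_mul]
    rw [Finset.sum_add_distrib, Finset.sum_sub_distrib, hbr i]
    simp only [ite_mul, zero_mul, Finset.sum_ite_eq', Finset.mem_univ, if_true]
    ring
  obtain ⟨l, -, hl⟩ := Finset.exists_max_image (Finset.univ : Finset (Fin N)) b' ⟨p, Finset.mem_univ p⟩
  set m := b' l with hm
  have hw : ∀ j, 0 ≤ m - b' j := fun j => sub_nonneg.2 (hl j (Finset.mem_univ j))
  have hwsum : ∑ j, (m - b' j) = N * m := by
    rw [Finset.sum_sub_distrib, hsum]
    simp
  have hwrow : ∀ i, ∑ j, (m - b' j) * u i j = β * (u i p - u i q) := by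
    intro i
    simp_rw [sub_mul]
    rw [Finset.sum_sub_distrib, ← Finset.mul_sum, hrow i, hrow' i]
    ring
  have hN : (1 : ℝ) ≤ N := by
    have : 0 < N := Fin.pos p
    exact_mod_cast this
  -- lower bound for the entries
  have hent : ∀ i j, s / 2 ≤ ‖r i - t j‖ → Lg ≤ u i j := by
    intro i j hij
    rw [hLg1, hu]
    have := Real.log_le_log (by positivity) hij
    linarith
  have htri : ∀ i : Fin N, |‖r i - t p‖ - ‖r i - t q‖| ≤ s / 4 := by
    intro i
    refine (abs_norm_sub_norm_le _ _).trans ?_
    have : r i - t p - (r i - t q) = -(t p - t q) := by ring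
    rw [this, norm_neg]
    exact hd
  have hfar : ∀ i j k : Fin N, ‖t j - t k‖ - ‖r i - t j‖ ≤ ‖r i - t k‖ := by
    intro i j k
    have : t j - t k = (r i - t k) - (r i - t j) := by ring
    have h2 := norm_sub_le (r i - t k) (r i - t j)
    rw [← this] at h2
    linarith
  have hmain : m * Lg ≤ 2 * A := by
    rcases le_or_gt m 0 with hm0 | hm0
    · exact (mul_nonpos_of_nonpos_of_nonneg hm0 hLg0).trans (by linarith)
    by_cases hlpq : l = p ∨ l = q
    · -- the maximum is on the pair
      have hmc : m = c := by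
        rcases hlpq with h1 | h1
        · rw [hm, h1, hb'p]
        · rw [hm, h1, hb'q]
      have hwp : m - b' p = 0 := by rw [hb'p, hmc, sub_self]
      have hwq : m - b' q = 0 := by rw [hb'q, hmc, sub_self]
      set I := (Finset.univ : Finset (Fin N)).filter (fun i => ‖r i - t l‖ < s / 2) with hI
      obtain ⟨i0, hi0⟩ := h.near l
      have hI1 : (1 : ℝ) ≤ I.card := by
        have : 0 < I.card := Finset.card_pos.2 ⟨i0, by
          rw [hI, Finset.mem_filter]
          exact ⟨Finset.mem_univ _, by linarith⟩⟩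
        exact_mod_cast this
      have hlow : ∀ i ∈ I, N * m * Lg ≤ β * (u i p - u i q) := by
        intro i hi
        rw [hI, Finset.mem_filter] at hi
        rw [← hwrow i, ← hwsum, Finset.sum_mul]
        refine Finset.sum_le_sum fun j _ => ?_
        by_cases hj : j = p ∨ j = q
        · have : m - b' j = 0 := by
            rcases hj with h1 | h1
            · rw [h1, hwp]
            · rw [h1, hwq]
          rw [this, zero_mul, zero_mul]
        · rw [not_or] at hj
          refine mul_le_mul_of_nonneg_left (hent i j ?_) (hw j)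
          have hlj : l ≠ j := by
            rintro rfl
            rcases hlpq with h1 | h1
            · exact hj.1 h1
            · exact hj.2 h1
          have h1 := hsep l j hlj (fun hh => hj.2 hh.2) (fun hh => hj.1 hh.2)
          have h2 := hfar i l j
          linarith [hi.2]
      have hsumI : (I.card : ℝ) * (N * m * Lg) ≤ β * ∑ i ∈ I, (u i p - u i q) := by
        rw [Finset.mul_sum, ← nsmul_eq_mul, ← Finset.sum_const]
        exact Finset.sum_le_sum hlow
      have hθ : ∑ i ∈ I, (u i p - u i q) =
          - ∑ i ∈ (Finset.univ : Finset (Fin N)).filter (fun i => ¬ ‖r i - t l‖ < s / 2),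
            (u i p - u i q) := by
        have h1 := Finset.sum_filter_add_sum_filter_not (Finset.univ : Finset (Fin N))
          (fun i => ‖r i - t l‖ < s / 2) (fun i => u i p - u i q)
        have h2 : ∑ i, (u i p - u i q) = 0 := by
          rw [Finset.sum_sub_distrib, hcol p, hcol q, sub_zero]
        rw [h2] at h1
        rw [hI]
        linarith
      have hθb : |∑ i ∈ (Finset.univ : Finset (Fin N)).filter (fun i => ¬ ‖r i - t l‖ < s / 2),
            (u i p - u i q)| ≤ N := by
        refine (Finset.abs_sum_le_sum_abs _ _).trans ?_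
        have h1 : ∀ i ∈ (Finset.univ : Finset (Fin N)).filter (fun i => ¬ ‖r i - t l‖ < s / 2),
            |u i p - u i q| ≤ 1 := by
          intro i hi
          rw [Finset.mem_filter, not_lt] at hi
          have h2 : u i p - u i q = Real.log ‖r i - t p‖ - Real.log ‖r i - t q‖ := by
            rw [hu]; ring
          have h3 := htri i
          rw [abs_le] at h3
          have hx : s / 4 ≤ ‖r i - t p‖ := by
            rcases hlpq with h4 | h4
            · rw [h4] at hi; linarith [hi.2]
            · rw [h4] at hi; linarith [hi.2, h3.1]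
          have hy : s / 4 ≤ ‖r i - t q‖ := by
            rcases hlpq with h4 | h4
            · rw [h4] at hi; linarith [hi.2, h3.2]
            · rw [h4] at hi; linarith [hi.2]
          rw [h2]
          have h5 := log_diff (by positivity) hx hy (htri i)
          rwa [div_self (by positivity)] at h5
        refine (Finset.sum_le_sum h1).trans ?_
        rw [Finset.sum_const, nsmul_eq_mul, mul_one]
        have h2 := Finset.card_filter_le (Finset.univ : Finset (Fin N))
          (fun i => ¬ ‖r i - t l‖ < s / 2)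
        rw [Finset.card_univ, Fintype.card_fin] at h2
        exact_mod_cast h2
      have hup : β * ∑ i ∈ I, (u i p - u i q) ≤ A * N := by
        refine (le_abs_self _).trans ?_
        rw [abs_mul, hθ, abs_neg]
        exact mul_le_mul hβA hθb (abs_nonneg _) hA0
      have hx0 : 0 ≤ N * m * Lg := by positivity
      have h6 : N * m * Lg ≤ (I.card : ℝ) * (N * m * Lg) := le_mul_of_one_le_left hx0 hI1
      have h7 : N * (m * Lg) ≤ N * A := by
        calc N * (m * Lg) = N * m * Lg := by ring
          _ ≤ A * N := by linarith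
          _ = N * A := by ring
      have h8 := le_of_mul_le_mul_left h7 (by linarith)
      linarith
    · -- the maximum is outside the pair
      rw [not_or] at hlpq
      obtain ⟨i, hi⟩ := h.near l
      have hfarl : ∀ j, j ≠ l → s / 2 ≤ ‖r i - t j‖ := by
        intro j hj
        have h1 := hsep l j (Ne.symm hj) (fun hh => hlpq.1 hh.1) (fun hh => hlpq.2 hh.1)
        have h2 := hfar i l j
        linarith
      have hlow : N * m * Lg ≤ β * (u i p - u i q) := by
        rw [← hwrow i, ← hwsum, Finset.sum_mul]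
        refine Finset.sum_le_sum fun j _ => ?_
        by_cases hj : j = l
        · rw [hj, ← hm, sub_self, zero_mul, zero_mul]
        · exact mul_le_mul_of_nonneg_left (hent i j (hfarl j hj)) (hw j)
      have hθ : |u i p - u i q| ≤ 1 / 2 := by
        have h2 : u i p - u i q = Real.log ‖r i - t p‖ - Real.log ‖r i - t q‖ := by
          rw [hu]; ring
        rw [h2]
        have h5 := log_diff (a := s / 2) (by positivity) (hfarl p (Ne.symm hlpq.1))
          (hfarl q (Ne.symm hlpq.2)) (htri i)
        have h6 : s / 4 / (s / 2) = 1 / 2 := by field_simp; norm_num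
        rwa [h6] at h5
      have hup : β * (u i p - u i q) ≤ A * (1 / 2) := by
        refine (le_abs_self _).trans ?_
        rw [abs_mul]
        exact mul_le_mul hβA hθ (abs_nonneg _) hA0
      have hx0 : 0 ≤ m * Lg := by positivity
      have h6 : m * Lg ≤ N * (m * Lg) := le_mul_of_one_le_left hx0 hN
      have h7 : N * (m * Lg) = N * m * Lg := by ring
      linarith
  have hall : ∀ j, b' j * Lg ≤ 2 * A := fun j =>
    (mul_le_mul_of_nonneg_right (hl j (Finset.mem_univ j)) hLg0).trans hmain
  refine ⟨fun l' h1 h2 => ?_, ?_⟩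
  · have := hall l'
    rwa [hb'l l' h1 h2] at this
  · have := hall p
    rwa [hb'p] at this

theorem aro {N : ℕ} {F : Type} [NormedField F] {ρ s A : ℝ} {t r : Fin N → F}
    {b : Fin N → ℝ} (h : Mat ρ t r b) (hb0 : ∑ j, b j = 0) (hs : 4 * ρ ≤ s) {p q : Fin N}
    (hpq : p ≠ q) (hd : ‖t p - t q‖ ≤ s / 4)
    (hsep : ∀ j k, j ≠ k → ¬ (j = p ∧ k = q) → ¬ (j = q ∧ k = p) → s ≤ ‖t j - t k‖)
    (hA : ∀ j, |b j| ≤ A) :
    (∀ l, l ≠ p → l ≠ q → |b l| * Real.log (s / (2 * ρ)) ≤ 2 * A) ∧
      |(b p + b q) / 2| * Real.log (s / (2 * ρ)) ≤ 2 * A := by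
  have h1 := key h hb0 hs hpq hd hsep hA
  have h2 := key h.neg (by rw [Finset.sum_neg_distrib, hb0, neg_zero]) hs hpq hd hsep
    (by intro j; rw [abs_neg]; exact hA j)
  refine ⟨fun l hl1 hl2 => ?_, ?_⟩
  · rcases abs_cases (b l) with h3 | h3
    · rw [h3.1]; exact h1.1 l hl1 hl2
    · rw [h3.1]; exact h2.1 l hl1 hl2
  · rcases abs_cases ((b p + b q) / 2) with h3 | h3
    · rw [h3.1]; exact h1.2
    · rw [h3.1]
      have h4 := h2.2
      have h5 : (-b p + -b q) / 2 = -((b p + b q) / 2) := by ring
      rwa [h5] at h4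

end Pool.Agent.ISF
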