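import Mathlib
import Pool.Agent.ISF.Aro

/-! MODULE ISF-Arq (one close pair: the pair is very close; uses `aro` from Aro.lean).

Notation as in Aro.lean: `u i j`, `b'`, `β`, `θ i`, `Lg = log (s / (2 ρ)) ≥ 8`.

PROOF. By `aro`: `|b k| ≤ 2 A / Lg ≤ A/4` for `k ≠ p, q` and `|b' p| = |(b p + b q)/2| ≤ 2 A / Lg ≤ A/4`.
So `l = p` or `l = q`, `|b p|, |b q| ≥ A - 2 |b' p| ≥ A/2`, and `|β| = |(b p - b q)/2| ≥ A - A/4 = 3 A/4`.
Let `i` be a root with `‖r i - t p‖ ≤ ρ < s/2` (`h.near`). For `j ≠ p, q`: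
`s/2 ≤ ‖r i - t j‖ ≤ s/2 + R ≤ 2 R`, so `Lg ≤ u i j ≤ log (2 R / ρ) ≤ 2 Lg`. By the rows
`u i p + u i q = - ∑_{j ≠ p, q} u i j`, so `|u i p + u i q| ≤ 2 N Lg` and
`|β θ i| = |b' p (u i p + u i q) + ∑_{j ≠ p, q} b j u i j| ≤ (2 A / Lg) (2 (N-2) Lg + 2 (N-2) Lg) = 8 (N-2) A`;
so `|θ i| ≤ (4/3) 8 (N-2) ≤ 11 N`. Hence `‖r i - t p‖ ≤ e^(11 N) ‖r i - t q‖` and conversely
(`θ i = log ‖r i - t p‖ - log ‖r i - t q‖`), `‖t p - t q‖ ≤ ‖r i - t p‖ + ‖r i - t q‖ ≤ (1 + e^(11 N)) ‖r i - t q‖`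
and `≤ (1 + e^(11 N)) ‖r i - t p‖`. Multiply: `‖t p - t q‖ ^ 2 ≤ (1 + e^(11 N)) ^ 2 ‖r i - t p‖ ‖r i - t q‖`, and
`(s/2)^(N-2) ≤ ∏_{j ≠ p, q} ‖r i - t j‖`, `∏_j ‖r i - t j‖ = ρ ^ N` (from the rows, `Real.exp`). -/

namespace Pool.Agent.ISF

theorem arq {N : ℕ} {F : Type} [NormedField F] {ρ s A R : ℝ} {t r : Fin N → F}
    {b : Fin N → ℝ} (h : Mat ρ t r b) (hb0 : ∑ j, b j = 0) (hs : 4 * ρ ≤ s) {p q : Fin N}
    (hpq : p ≠ q) (hd : ‖t p - t q‖ ≤ s / 4)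
    (hsep : ∀ j k, j ≠ k → ¬ (j = p ∧ k = q) → ¬ (j = q ∧ k = p) → s ≤ ‖t j - t k‖)
    (hLg : 8 ≤ Real.log (s / (2 * ρ))) (hR : ∀ j k, ‖t j - t k‖ ≤ R) (hsR : s ≤ R)
    (hRρ : Real.log (2 * R / ρ) ≤ 2 * Real.log (s / (2 * ρ)))
    (hA0 : 0 < A) (hA : ∀ j, |b j| ≤ A) {l : Fin N} (hl : |b l| = A) :
    (l = p ∨ l = q) ∧ A / 2 ≤ |b p| ∧ A / 2 ≤ |b q| ∧
      ‖t p - t q‖ ^ 2 * (s / 2) ^ (N - 2) ≤ (1 + Real.exp (11 * N)) ^ 2 * ρ ^ N := by
  classical
  obtain ⟨h1, h2⟩ := aro h hb0 hs hpq hd hsep hA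
  obtain ⟨Lg, hLgd⟩ : ∃ Lg, Lg = Real.log (s / (2 * ρ)) := ⟨_, rfl⟩
  simp only [← hLgd] at h1 h2 hLg hRρ
  have hρ := h.hρ
  have hs0 : 0 < s := by linarith
  have hR0 : 0 < R := by linarith
  have hlpq : l = p ∨ l = q := by
    by_contra hcon
    push Not at hcon
    have h3 := h1 l hcon.1 hcon.2
    rw [hl] at h3
    nlinarith
  have hc : |(b p + b q) / 2| ≤ A / 4 := by
    have h0 := abs_nonneg ((b p + b q) / 2)
    nlinarith
  have hc' := abs_le.mp hc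
  have hbpq : A ≤ |b p| ∨ A ≤ |b q| := by
    rcases hlpq with h3 | h3
    · left
      rw [← h3, hl]
    · right
      rw [← h3, hl]
  have hbp : A / 2 ≤ |b p| := by
    rcases hbpq with h3 | h3
    · linarith
    · rcases abs_cases (b p) with ⟨e1, _⟩ | ⟨e1, _⟩ <;>
        rcases abs_cases (b q) with ⟨e2, _⟩ | ⟨e2, _⟩ <;> linarith
  have hbq : A / 2 ≤ |b q| := by
    rcases hbpq with h3 | h3
    · rcases abs_cases (b p) with ⟨e1, _⟩ | ⟨e1, _⟩ <;>
        rcases abs_cases (b q) with ⟨e2, _⟩ | ⟨e2, _⟩ <;> linarith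
    · linarith
  have hβ : 3 * A / 4 ≤ |(b p - b q) / 2| := by
    have h4 : b p = (b p + b q) / 2 + (b p - b q) / 2 := by ring
    have h5 : b q = (b p + b q) / 2 - (b p - b q) / 2 := by ring
    rcases hbpq with h3 | h3
    · rw [h4] at h3
      have := abs_add_le ((b p + b q) / 2) ((b p - b q) / 2)
      linarith
    · rw [h5] at h3
      have := abs_sub ((b p + b q) / 2) ((b p - b q) / 2)
      linarith
  refine ⟨hlpq, hbp, hbq, ?_⟩
  obtain ⟨i, hi⟩ := h.near p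
  obtain ⟨S, hS⟩ : ∃ S : Finset (Fin N), S = (Finset.univ.erase p).erase q := ⟨_, rfl⟩
  have hqm : q ∈ Finset.univ.erase p := Finset.mem_erase.mpr ⟨hpq.symm, Finset.mem_univ q⟩
  have hsum : ∀ f : Fin N → ℝ, ∑ j, f j = f p + (f q + ∑ j ∈ S, f j) := by
    intro f
    rw [hS, Finset.add_sum_erase _ f hqm, Finset.add_sum_erase _ f (Finset.mem_univ p)]
  have hprod : ∀ f : Fin N → ℝ, ∏ j, f j = f p * (f q * ∏ j ∈ S, f j) := by
    intro f
    rw [hS, Finset.mul_prod_erase _ f hqm, Finset.mul_prod_erase _ f (Finset.mem_univ p)]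
  have hcard : S.card = N - 2 := by
    rw [hS, Finset.card_erase_of_mem hqm, Finset.card_erase_of_mem (Finset.mem_univ _),
      Finset.card_univ, Fintype.card_fin]
    omega
  have hmem : ∀ j ∈ S, j ≠ p ∧ j ≠ q := by
    intro j hj
    rw [hS, Finset.mem_erase, Finset.mem_erase] at hj
    exact ⟨hj.2.1, hj.1⟩
  have hu1 : ∀ j ∈ S, s / 2 ≤ ‖r i - t j‖ := by
    intro j hj
    obtain ⟨hjp, hjq⟩ := hmem j hj
    have h3 := hsep p j hjp.symm (fun h => hjq h.2) (fun h => hpq h.1)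
    have h4 := norm_sub_le_norm_sub_add_norm_sub (t p) (r i) (t j)
    rw [norm_sub_rev (t p) (r i)] at h4
    linarith
  have hu2 : ∀ j ∈ S, ‖r i - t j‖ ≤ 2 * R := by
    intro j _
    have h4 := norm_sub_le_norm_sub_add_norm_sub (r i) (t p) (t j)
    have h5 := hR p j
    linarith
  obtain ⟨u, hu⟩ : ∃ u : Fin N → ℝ, u = fun j => Real.log ‖r i - t j‖ - Real.log ρ := ⟨_, rfl⟩
  have hrow : ∑ j, u j = 0 := by
    rw [hu]
    exact h.hrow i
  have hbrow : ∑ j, b j * u j = 0 := by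
    rw [hu]
    exact h.hb i
  have hu3 : ∀ j ∈ S, Lg ≤ u j ∧ u j ≤ 2 * Lg := by
    intro j hj
    have h3 := hu1 j hj
    have h4 := hu2 j hj
    have h5 := h.pos i j
    have e1 : Lg = Real.log (s / 2) - Real.log ρ := by
      rw [hLgd, ← Real.log_div (by positivity) hρ.ne']
      congr 1
      field_simp
    have e2 : Real.log (2 * R / ρ) = Real.log (2 * R) - Real.log ρ :=
      Real.log_div (by positivity) hρ.ne'
    have h6 := Real.log_le_log (by positivity) h3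
    have h7 := Real.log_le_log h5 h4
    rw [hu]
    constructor
    · change Lg ≤ Real.log ‖r i - t j‖ - Real.log ρ
      linarith
    · change Real.log ‖r i - t j‖ - Real.log ρ ≤ 2 * Lg
      linarith
  obtain ⟨m, hm⟩ : ∃ m : ℝ, m = S.card := ⟨_, rfl⟩
  have hm0 : 0 ≤ m := by
    rw [hm]
    positivity
  have hmN : m ≤ N := by
    rw [hm, hcard]
    exact_mod_cast Nat.sub_le N 2
  have hsu0 : 0 ≤ ∑ j ∈ S, u j := Finset.sum_nonneg fun j hj => by
    linarith [(hu3 j hj).1]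
  have hsu1 : ∑ j ∈ S, u j ≤ m * (2 * Lg) := by
    have := Finset.sum_le_card_nsmul S u (2 * Lg) (fun j hj => (hu3 j hj).2)
    rw [nsmul_eq_mul, ← hm] at this
    exact this
  have hsb : |∑ j ∈ S, b j * u j| ≤ m * (4 * A) := by
    refine (Finset.abs_sum_le_sum_abs _ _).trans ?_
    have h3 := Finset.sum_le_card_nsmul S (fun j => |b j * u j|) (4 * A) (fun j hj => by
      obtain ⟨hjp, hjq⟩ := hmem j hj
      obtain ⟨h4, h5⟩ := hu3 j hj
      have h6 := h1 j hjp hjq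
      have h7 := abs_nonneg (b j)
      change |b j * u j| ≤ 4 * A
      rw [abs_mul, abs_of_nonneg (by linarith : 0 ≤ u j)]
      nlinarith)
    rw [nsmul_eq_mul, ← hm] at h3
    exact h3
  have hrs := hsum u
  have hbs := hsum (fun j => b j * u j)
  rw [hrow] at hrs
  rw [hbrow] at hbs
  have hbs' : 0 = b p * u p + (b q * u q + ∑ j ∈ S, b j * u j) := hbs
  have hθ : |(b p - b q) / 2| * |u p - u q| ≤ 8 * A * m := by
    rw [← abs_mul]
    have e1 : (b p - b q) / 2 * (u p - u q) =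
        (b p + b q) / 2 * (∑ j ∈ S, u j) - ∑ j ∈ S, b j * u j := by
      have e2 : ∑ j ∈ S, u j = - (u p + u q) := by linarith
      have e3 : ∑ j ∈ S, b j * u j = - (b p * u p + b q * u q) := by linarith
      rw [e2, e3]
      ring
    rw [e1]
    have h3 := abs_sub ((b p + b q) / 2 * (∑ j ∈ S, u j)) (∑ j ∈ S, b j * u j)
    have h4 : |(b p + b q) / 2 * (∑ j ∈ S, u j)| ≤ 4 * A * m := by
      rw [abs_mul, abs_of_nonneg hsu0]
      have h7 := abs_nonneg ((b p + b q) / 2)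
      calc |(b p + b q) / 2| * ∑ j ∈ S, u j ≤ |(b p + b q) / 2| * (m * (2 * Lg)) :=
            mul_le_mul_of_nonneg_left hsu1 h7
        _ = 2 * m * (|(b p + b q) / 2| * Lg) := by ring
        _ ≤ 2 * m * (2 * A) := mul_le_mul_of_nonneg_left h2 (by positivity)
        _ = 4 * A * m := by ring
    linarith
  have hθ2 : |u p - u q| ≤ 11 * N := by
    have h3 : 3 * A / 4 * |u p - u q| ≤ 8 * A * m :=
      (mul_le_mul_of_nonneg_right hβ (abs_nonneg _)).trans hθ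
    have h4 : A * (3 / 4 * |u p - u q|) ≤ A * (8 * m) := by linarith
    have h5 := le_of_mul_le_mul_left h4 hA0
    linarith
  have hx := h.pos i p
  have hy := h.pos i q
  obtain ⟨x, hxd⟩ : ∃ x, x = ‖r i - t p‖ := ⟨_, rfl⟩
  obtain ⟨y, hyd⟩ : ∃ y, y = ‖r i - t q‖ := ⟨_, rfl⟩
  have hup : u p = Real.log x - Real.log ρ := by rw [hu, hxd]
  have huq : u q = Real.log y - Real.log ρ := by rw [hu, hyd]
  rw [← hxd] at hx
  rw [← hyd] at hy
  rw [hup, huq] at hθ2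
  obtain ⟨h5, h6⟩ := abs_le.mp hθ2
  have hxy : x ≤ Real.exp (11 * N) * y := by
    rw [← Real.log_le_log_iff hx (by positivity), Real.log_mul (Real.exp_pos _).ne' hy.ne',
      Real.log_exp]
    linarith
  have hyx : y ≤ Real.exp (11 * N) * x := by
    rw [← Real.log_le_log_iff hy (by positivity), Real.log_mul (Real.exp_pos _).ne' hx.ne',
      Real.log_exp]
    linarith
  have hD : ‖t p - t q‖ ≤ x + y := by
    have h7 := norm_sub_le_norm_sub_add_norm_sub (t p) (r i) (t q)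
    rw [norm_sub_rev (t p) (r i), ← hxd, ← hyd] at h7
    exact h7
  have hD0 := norm_nonneg (t p - t q)
  have hD1 : ‖t p - t q‖ ≤ (1 + Real.exp (11 * N)) * x := by linarith
  have hD2 : ‖t p - t q‖ ≤ (1 + Real.exp (11 * N)) * y := by linarith
  have hE := Real.exp_pos (11 * (N : ℝ))
  have hP : x * (y * ∏ j ∈ S, ‖r i - t j‖) = ρ ^ N := by
    rw [hxd, hyd, ← hprod (fun j => ‖r i - t j‖)]
    have hpos : 0 < ∏ j, ‖r i - t j‖ := Finset.prod_pos fun j _ => h.pos i j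
    apply Real.log_injOn_pos (Set.mem_Ioi.mpr hpos) (Set.mem_Ioi.mpr (pow_pos hρ N))
    rw [Real.log_prod (fun j _ => (h.pos i j).ne'), Real.log_pow]
    have h8 := h.hrow i
    rw [Finset.sum_sub_distrib, Finset.sum_const, Finset.card_univ, Fintype.card_fin,
      nsmul_eq_mul] at h8
    linarith
  have hQ : (s / 2) ^ (N - 2) ≤ ∏ j ∈ S, ‖r i - t j‖ := by
    rw [← hcard, ← Finset.prod_const]
    exact Finset.prod_le_prod (fun _ _ => by positivity) hu1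
  calc ‖t p - t q‖ ^ 2 * (s / 2) ^ (N - 2)
      ≤ (((1 + Real.exp (11 * N)) * x) * ((1 + Real.exp (11 * N)) * y)) *
          ∏ j ∈ S, ‖r i - t j‖ := by
        rw [pow_two]
        exact mul_le_mul (mul_le_mul hD1 hD2 hD0 (by positivity)) hQ (by positivity)
          (by positivity)
    _ = (1 + Real.exp (11 * N)) ^ 2 * (x * (y * ∏ j ∈ S, ‖r i - t j‖)) := by ring
    _ = (1 + Real.exp (11 * N)) ^ 2 * ρ ^ N := by rw [hP]

end Pool.Agent.ISF
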