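import Mathlib
import Pool.Agent.ISF.Base

/-! Fibres of an affine form which is not parallel to any line of the arrangement, over an
algebraically closed field of characteristic 0 (after ISI/Fib.lean of helper61). -/

namespace Pool.Agent.ISF

open Pool.Agent.Helper11 Pool.Agent.ISI Polynomial

variable {N : ℕ} {α : Fin N → Fin 2 → ℤ} {β : Fin N → ℤ} {c : ℤ} {a : Fin 2 → ℤ} {e : ℤ}
variable {F : Type} [Field F] [CharZero F]

private lemma sq_ne (ha : a ≠ 0) : ((a 0 : F) ^ 2 + (a 1 : F) ^ 2) ≠ 0 := by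
  have h : (a 0) ^ 2 + (a 1) ^ 2 ≠ 0 := by
    intro h
    apply ha
    have h0 : a 0 = 0 := by nlinarith [sq_nonneg (a 0), sq_nonneg (a 1)]
    have h1 : a 1 = 0 := by nlinarith [sq_nonneg (a 0), sq_nonneg (a 1)]
    funext m
    fin_cases m
    · exact h0
    · exact h1
  exact_mod_cast h

private lemma av_pt0 (ha : a ≠ 0) (η : F) : av a e (pt0 a e η) = η := by
  have h := sq_ne (F := F) ha
  unfold av pt0
  field_simp
  ring

omit [CharZero F] in
private lemma av_gen (η t : F) (j : Fin N) :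
    av (α j) (β j) (ptt a e η t) = av (α j) (β j) (pt0 a e η) + t * dl α a j := by
  unfold av dl
  simp only [ptt, Matrix.cons_val_zero, Matrix.cons_val_one]
  push_cast
  ring

theorem av_ptt (ha : a ≠ 0) (η t : F) : av a e (ptt a e η t) = η := by
  have h := av_pt0 (e := e) ha η
  unfold av at h ⊢
  simp only [ptt, Matrix.cons_val_zero, Matrix.cons_val_one]
  linear_combination h

theorem av_ptt_j (η t : F) {j : Fin N} (h : dl α a j ≠ 0) :
    av (α j) (β j) (ptt a e η t) = dl α a j * (t - tt α β a e η j) := by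
  rw [av_gen]
  have h' : (dl α a j : F) ≠ 0 := Int.cast_ne_zero.2 h
  unfold tt
  field_simp
  ring

theorem tt_sub (ha : a ≠ 0) (η : F) {j k : Fin N} (hj : dl α a j ≠ 0) (hk : dl α a k ≠ 0) :
    (dl α a j : F) * dl α a k * (tt α β a e η k - tt α β a e η j) =
      (hypDet α ![j, k] : F) * η - d3 α β a e j k := by
  have h1 := lin3 (α := α) (β := β) (a := a) (e := e) (ptt a e η (tt α β a e η k)) j k
  rw [av_ptt ha, av_ptt_j η _ hj, av_ptt_j η _ hk] at h1
  linear_combination -h1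

theorem prod_ptt (hdl : ∀ j, dl α a j ≠ 0) (η t : F) :
    (c : F) * ∏ j, av (α j) (β j) (ptt a e η t) =
      (CI α c a : F) * ∏ j, (t - tt α β a e η j) := by
  unfold CI
  push_cast
  rw [mul_assoc, ← Finset.prod_mul_distrib]
  congr 1
  exact Finset.prod_congr rfl fun j _ => av_ptt_j η t (hdl j)

theorem exists_hom_of_root (hdl : ∀ j, dl α a j ≠ 0) (η t : F)
    (h : (CI α c a : F) * ∏ j, (t - tt α β a e η j) = 1) :
    ∃ φ : HypRingQ (n := 1) α β c →+* F,
      ∀ a' e', φ (affFun α β c a' e') = av a' e' (ptt a e η t) :=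
  exists_hom (ptt a e η t) (by rw [prod_ptt hdl]; exact h)

theorem CI_ne (hc : c ≠ 0) (hdl : ∀ j, dl α a j ≠ 0) : (CI α c a : F) ≠ 0 := by
  unfold CI
  exact Int.cast_ne_zero.2 (mul_ne_zero hc (Finset.prod_ne_zero_iff.2 fun j _ => hdl j))

theorem exists_root [IsAlgClosed F] (hG : Good α β c) (hdl : ∀ j, dl α a j ≠ 0) (η : F) :
    ∃ t : F, (CI α c a : F) * ∏ j, (t - tt α β a e η j) = 1 := by
  have h : (CI α c a : F) ≠ 0 := CI_ne hG.hc hdl
  have hcard : 0 < (Finset.univ : Finset (Fin N)).card := by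
    rw [Finset.card_univ, Fintype.card_fin]
    exact hG.hN
  have hd : (C (CI α c a : F) * ∏ j, (X - C (tt α β a e η j))).degree =
      ((Finset.univ : Finset (Fin N)).card : WithBot ℕ) := by
    rw [degree_C_mul h, degree_prod, Finset.sum_congr rfl (fun j _ => degree_X_sub_C _)]
    simp
  have hd0 : 0 < (C (CI α c a : F) * ∏ j, (X - C (tt α β a e η j))).degree := by
    rw [hd]
    exact_mod_cast hcard
  have hd1 : (C (CI α c a : F) * ∏ j, (X - C (tt α β a e η j)) - C 1).degree ≠ 0 := by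
    rw [degree_sub_C hd0]
    exact hd0.ne'
  obtain ⟨t, ht⟩ := IsAlgClosed.exists_root _ hd1
  refine ⟨t, ?_⟩
  rw [IsRoot.def, eval_sub, eval_mul, eval_C, eval_C, eval_prod] at ht
  simp only [eval_sub, eval_X, eval_C] at ht
  exact sub_eq_zero.1 ht

theorem exists_pt [IsAlgClosed F] (hG : Good α β c) (ha : a ≠ 0) (hdl : ∀ j, dl α a j ≠ 0)
    (η : F) : ∃ φ : HypRingQ (n := 1) α β c →+* F, φ (affFun α β c a e) = η := by
  obtain ⟨t, ht⟩ := exists_root (β := β) (e := e) hG hdl η
  obtain ⟨φ, hφ⟩ := exists_hom_of_root hdl η t ht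
  exact ⟨φ, by rw [hφ, av_ptt ha]⟩

end Pool.Agent.ISF
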