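import Mathlib
import Pool.Agent.ISF.Fib
import Pool.Agent.ISF.Mat

/-! MODULE ISF-NumA (numerical constants, archimedean radius).

`sM M = 1/(32 M^8)`, `RM M = 20 M^5` (Mat.lean), `CI = c ∏ dl j` with `dl j` non zero integers.

PROOF. `‖CI‖ = |c| ∏ |dl j| ≥ |c|`, so `|c| ρ ^ N ≤ 1`. By `hM.hc` and `|Δ| ≥ 1`
`|c| ≥ (10 M)^(30 N^3) = ((10 M)^(30 N^2))^N`, so `ρ ^ N ≤ (((10 M)^(30 N^2))⁻¹)^N` and `ρ ≤ ((10 M)^(30 N^2))⁻¹`
(`pow_le_pow_left₀`/`lt_of_pow_lt_pow_left₀`, `N ≥ 3`). With `T = 10 M ≥ 10`: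
`8 ρ ≤ 8 T^(-30 N^2) ≤ 1/(32 M^8)`; `sM/(2 ρ) = 1/(64 M^8 ρ) ≥ T^(30 N^2 - 8) ≥ exp (2 N^2)`
(`64 M^8 ≤ T^8`, `exp 1 ≤ 10`, `30 N^2 - 8 ≥ 2 N^2`); the last inequality is
`2 R/ρ ≤ (s/(2 ρ))^2`, i.e. `8 R ρ ≤ s^2`: `8 * 20 M^5 * (32 M^8)^2 = 163840 M^21 ≤ T^21`. -/

namespace Pool.Agent.ISF

open Pool.Agent.Helper11 Pool.Agent.ISI Polynomial

variable {N : ℕ} {α : Fin N → Fin 2 → ℤ} {β : Fin N → ℤ} {c Δ : ℤ} {a : Fin 2 → ℤ} {e : ℤ}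

theorem numA {M : ℕ} (hM : Gen α β c Δ a e M) {ρ : ℝ} (hρ : 0 < ρ)
    (hC : ‖(CI α c a : ℂ)‖ * ρ ^ N = 1) :
    |(c : ℝ)| * ρ ^ N ≤ 1 ∧ 8 * ρ ≤ sM M ∧ 2 * (N : ℝ) ^ 2 ≤ Real.log (sM M / (2 * ρ)) ∧
      Real.log (2 * RM M / ρ) ≤ 2 * Real.log (sM M / (2 * ρ)) := by
  have hN3 := hM.hN3
  have hm : (1 : ℝ) ≤ (M : ℝ) := by exact_mod_cast hM.hM
  set m : ℝ := (M : ℝ) with hmdef
  have hcc : |(c : ℝ)| ≤ ‖(CI α c a : ℂ)‖ := by
    rw [Complex.norm_intCast]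
    have h1 : |c| ≤ |CI α c a| := by
      unfold CI
      rw [abs_mul]
      have h2 : (∏ j, dl α a j) ≠ 0 := Finset.prod_ne_zero_iff.2 fun j _ => hM.hdl j
      have h3 : 1 ≤ |∏ j, dl α a j| := Int.one_le_abs h2
      exact le_mul_of_one_le_right (abs_nonneg _) h3
    exact_mod_cast h1
  have h1 : |(c : ℝ)| * ρ ^ N ≤ 1 := by
    rw [← hC]
    exact mul_le_mul_of_nonneg_right hcc (by positivity)
  have hcT : (10 * m) ^ (30 * N ^ 3) ≤ |(c : ℝ)| := by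
    have h2 : (10 * M : ℤ) ^ (30 * N ^ 3) ≤ |c| := by
      refine le_trans ?_ hM.hc
      have h3 : 1 ≤ |Δ| ^ 12 := one_le_pow₀ (Int.one_le_abs hM.hΔ0)
      exact le_mul_of_one_le_left (by positivity) h3
    have h3 : (((10 * M : ℤ) ^ (30 * N ^ 3) : ℤ) : ℝ) ≤ ((|c| : ℤ) : ℝ) := by exact_mod_cast h2
    push_cast at h3
    exact h3
  have hT1 : (1 : ℝ) ≤ 10 * m := by linarith
  have hkey : (10 * m) ^ (30 * N ^ 2) * ρ ≤ 1 := by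
    have h2 : ((10 * m) ^ (30 * N ^ 2) * ρ) ^ N ≤ 1 := by
      rw [mul_pow, ← pow_mul]
      have e : 30 * N ^ 2 * N = 30 * N ^ 3 := by ring
      rw [e]
      exact (mul_le_mul_of_nonneg_right hcT (by positivity)).trans h1
    exact (pow_le_one_iff_of_nonneg (by positivity) (by omega)).1 h2
  have hk : ∀ k : ℕ, k ≤ 30 * N ^ 2 → (10 * m) ^ k * ρ ≤ 1 := fun k hk =>
    (mul_le_mul_of_nonneg_right (pow_le_pow_right₀ hT1 hk) hρ.le).trans hkey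
  have hN9 : 9 ≤ N ^ 2 := by nlinarith
  have hm8 : 0 < m ^ 8 := by positivity
  have hsM : sM M = 1 / (32 * m ^ 8) := rfl
  have hRM : RM M = 20 * m ^ 5 := rfl
  have h8 : (10 * m) ^ 8 * ρ ≤ 1 := hk 8 (by omega)
  have h21 : (10 * m) ^ 21 * ρ ≤ 1 := hk 21 (by omega)
  have hq : sM M / (2 * ρ) = 1 / (64 * m ^ 8 * ρ) := by
    rw [hsM]
    field_simp
    ring
  have hqpos : 0 < sM M / (2 * ρ) := by
    rw [hq]
    positivity
  refine ⟨h1, ?_, ?_, ?_⟩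
  · rw [hsM, le_div_iff₀ (by positivity)]
    have e : (10 * m) ^ 8 = 100000000 * m ^ 8 := by ring
    rw [e] at h8
    have h9 : 0 < m ^ 8 * ρ := by positivity
    nlinarith
  · rw [Real.le_log_iff_exp_le hqpos, hq, le_div_iff₀ (by positivity)]
    have h2 : Real.exp (2 * (N : ℝ) ^ 2) ≤ (10 * m) ^ (2 * N ^ 2) := by
      have e : (2 * (N : ℝ) ^ 2) = ((2 * N ^ 2 : ℕ) : ℝ) * 1 := by push_cast; ring
      rw [e, Real.exp_nat_mul]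
      refine pow_le_pow_left₀ (Real.exp_pos _).le ?_ _
      have := Real.exp_one_lt_d9
      linarith
    have h3 : 64 * m ^ 8 ≤ (10 * m) ^ 8 := by
      have e : (10 * m) ^ 8 = 100000000 * m ^ 8 := by ring
      rw [e]
      nlinarith
    calc Real.exp (2 * (N : ℝ) ^ 2) * (64 * m ^ 8 * ρ)
        ≤ (10 * m) ^ (2 * N ^ 2) * ((10 * m) ^ 8 * ρ) := by gcongr
      _ = (10 * m) ^ (2 * N ^ 2 + 8) * ρ := by ring
      _ ≤ 1 := hk _ (by omega)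
  · have e : 2 * Real.log (sM M / (2 * ρ)) = Real.log ((sM M / (2 * ρ)) ^ 2) := by
      rw [Real.log_pow]
      push_cast
      ring
    rw [e]
    refine Real.log_le_log ?_ ?_
    · rw [hRM]
      positivity
    · rw [hRM, hq, div_pow, one_pow, div_le_div_iff₀ hρ (by positivity)]
      have e2 : 2 * (20 * m ^ 5) * (64 * m ^ 8 * ρ) ^ 2 = (163840 * m ^ 21 * ρ) * ρ := by ring
      rw [e2]
      refine mul_le_mul_of_nonneg_right ?_ hρ.le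
      have e3 : (10 * m) ^ 21 = 1000000000000000000000 * m ^ 21 := by ring
      rw [e3] at h21
      have h9 : 0 < m ^ 21 * ρ := by positivity
      nlinarith

end Pool.Agent.ISF
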