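import Mathlib
import Pool.Agent.ISF.NumA

/-! MODULE ISF-CpA (archimedean constants: at most one close pair).

`t j = tt α β a e y j`, and by `tt_sub` (Fib.lean) `dl j * dl k * (t k - t j) = [jk] y - d3 j k`,
`[jk] = hypDet α ![j, k]`. All `|dl j|, |[jk]| ≤ 2 M^2`, `|d3 j k| ≤ 6 M^3` (see `hdt, hdl, hd3` in the proof of
`red1` in Pool/Agent/ISI/Red1.lean). `s = sM M = 1/(32 M^8)`.

PROOF. By `numA`, `2 ρ ≤ s/4`. If not all distances are `> 2 ρ`, there are `p ≠ q` with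
`‖t p - t q‖ ≤ 2 ρ ≤ s/4`. Facts (`M ≥ 1`): for `j ≠ k`
* if `[jk] = 0` then `d3 j k ≠ 0` (`d3_ne` of ISI/Lin.lean), so `‖t j - t k‖ ≥ 1/(4 M^4) ≥ s`;
* if `[jk] ≠ 0` then `‖t j - t k‖ = |[jk] y - d3| / |dl j dl k| ≥ |y - d3/[jk]| / (4 M^4)`.
So `[pq] ≠ 0`. If `[jk] ≠ 0`, `‖t j - t k‖ < s`, then `|y - d3 jk/[jk]|` and `|y - d3 pq/[pq]|` are less than
`4 M^4 s = 1/(8 M^4)`, so the two rational numbers differ by less than `1/(4 M^4)`; if they were different, their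
difference would be at least `1/(|[jk]| |[pq]|) ≥ 1/(4 M^4)`; so `[jk] d3 pq = [pq] d3 jk` and `hM.hdist`
says that `{j, k} = {p, q}`. This gives the separation. Distances: `|y| ≤ |d3 pq/[pq]| + 1 ≤ 7 M^3`
(`|d3/[pq]| ≤ 6 M^3`), `‖t j - t k‖ ≤ |[jk]| |y| + |d3 jk| ≤ 14 M^5 + 6 M^3 ≤ 20 M^5` (`|dl| ≥ 1`; for
`j = k` trivial). -/

namespace Pool.Agent.ISF

open Pool.Agent.Helper11 Pool.Agent.ISI Polynomial

variable {N : ℕ} {α : Fin N → Fin 2 → ℤ} {β : Fin N → ℤ} {c Δ : ℤ} {a : Fin 2 → ℤ} {e : ℤ}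

private lemma cpa_mul {x y X Y : ℤ} (hx : |x| ≤ X) (hy : |y| ≤ Y) : |x * y| ≤ X * Y := by
  rw [abs_mul]
  exact mul_le_mul hx hy (abs_nonneg _) ((abs_nonneg _).trans hx)

private lemma cpa_sub {x y X Y : ℤ} (hx : |x| ≤ X) (hy : |y| ≤ Y) : |x - y| ≤ X + Y :=
  (abs_sub x y).trans (add_le_add hx hy)

private lemma cpa_add {x y X Y : ℤ} (hx : |x| ≤ X) (hy : |y| ≤ Y) : |x + y| ≤ X + Y :=
  (abs_add_le x y).trans (add_le_add hx hy)

private lemma cpa_key (ha : a ≠ 0) (hdl : ∀ j, dl α a j ≠ 0) (y : ℂ) (j k : Fin N) :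
    |(dl α a j : ℝ)| * |(dl α a k : ℝ)| * ‖tt α β a e y j - tt α β a e y k‖ =
      ‖(hypDet α ![j, k] : ℂ) * y - (d3 α β a e j k : ℂ)‖ := by
  rw [← tt_sub ha y (hdl j) (hdl k), norm_mul, norm_mul, norm_sub_rev, Complex.norm_intCast,
    Complex.norm_intCast]

private lemma cpa_one {z : ℤ} (hz : z ≠ 0) : (1 : ℝ) ≤ |(z : ℝ)| := by
  have h := Int.one_le_abs hz
  have h2 : ((1 : ℤ) : ℝ) ≤ ((|z| : ℤ) : ℝ) := by exact_mod_cast h
  push_cast at h2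
  exact h2

theorem cpA (hG : Good α β c) {M : ℕ} (hM : Gen α β c Δ a e M) (y : ℂ) {ρ : ℝ} (hρ : 0 < ρ)
    (hC : ‖(CI α c a : ℂ)‖ * ρ ^ N = 1) :
    (∀ j k, j ≠ k → 2 * ρ < ‖tt α β a e y j - tt α β a e y k‖) ∨
    ∃ p q : Fin N, p ≠ q ∧ hypDet α ![p, q] ≠ 0 ∧
      ‖tt α β a e y p - tt α β a e y q‖ ≤ sM M / 4 ∧
      (∀ j k, j ≠ k → ¬ (j = p ∧ k = q) → ¬ (j = q ∧ k = p) →
        sM M ≤ ‖tt α β a e y j - tt α β a e y k‖) ∧
      ∀ j k, ‖tt α β a e y j - tt α β a e y k‖ ≤ RM M := by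
  have ha := hM.hF.ha
  have hdl := hM.hdl
  have hdtZ : ∀ j k, |hypDet α ![j, k]| ≤ 2 * (M : ℤ) ^ 2 := by
    intro j k
    rw [dt_eq]
    have h1 := cpa_sub (cpa_mul (hM.hα j 0) (hM.hα k 1)) (cpa_mul (hM.hα j 1) (hM.hα k 0))
    linarith
  have hdlZ : ∀ j, |dl α a j| ≤ 2 * (M : ℤ) ^ 2 := by
    intro j
    have h1 := cpa_sub (cpa_mul (hM.hF.haM 0) (hM.hα j 1)) (cpa_mul (hM.hF.haM 1) (hM.hα j 0))
    unfold dl
    linarith
  have hd3Z : ∀ j k, |d3 α β a e j k| ≤ 6 * (M : ℤ) ^ 3 := by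
    intro j k
    have h1 := cpa_add (cpa_sub (cpa_mul hM.hF.heM (hdtZ j k))
      (cpa_mul (hM.hβ j) (hdlZ k))) (cpa_mul (hM.hβ k) (hdlZ j))
    unfold d3
    linarith
  obtain ⟨m, hm⟩ : ∃ m : ℝ, m = (M : ℝ) := ⟨_, rfl⟩
  have hm1 : (1 : ℝ) ≤ m := by
    rw [hm]
    exact_mod_cast hM.hM
  have hdt : ∀ j k, |(hypDet α ![j, k] : ℝ)| ≤ 2 * m ^ 2 := by
    intro j k
    rw [hm]
    exact_mod_cast hdtZ j k
  have hdlR : ∀ j, |(dl α a j : ℝ)| ≤ 2 * m ^ 2 := by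
    intro j
    rw [hm]
    exact_mod_cast hdlZ j
  have hd3 : ∀ j k, |(d3 α β a e j k : ℝ)| ≤ 6 * m ^ 3 := by
    intro j k
    rw [hm]
    exact_mod_cast hd3Z j k
  obtain ⟨D, hD⟩ : ∃ D : Fin N → Fin N → ℝ,
      ∀ j k, D j k = ‖tt α β a e y j - tt α β a e y k‖ := ⟨_, fun _ _ => rfl⟩
  have hD0 : ∀ j k, 0 ≤ D j k := fun j k => by rw [hD]; exact norm_nonneg _
  have hkey : ∀ j k, |(dl α a j : ℝ)| * |(dl α a k : ℝ)| * D j k =
      ‖(hypDet α ![j, k] : ℂ) * y - (d3 α β a e j k : ℂ)‖ := by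
    intro j k
    rw [hD]
    exact cpa_key ha hdl y j k
  have hup : ∀ j k, ‖(hypDet α ![j, k] : ℂ) * y - (d3 α β a e j k : ℂ)‖ ≤ 4 * m ^ 4 * D j k := by
    intro j k
    rw [← hkey]
    refine mul_le_mul_of_nonneg_right ?_ (hD0 j k)
    calc |(dl α a j : ℝ)| * |(dl α a k : ℝ)| ≤ (2 * m ^ 2) * (2 * m ^ 2) :=
          mul_le_mul (hdlR j) (hdlR k) (abs_nonneg _) (by positivity)
      _ = 4 * m ^ 4 := by ring
  have hlow : ∀ j k, D j k ≤ ‖(hypDet α ![j, k] : ℂ) * y - (d3 α β a e j k : ℂ)‖ := by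
    intro j k
    rw [← hkey]
    have h1 : 1 ≤ |(dl α a j : ℝ)| * |(dl α a k : ℝ)| :=
      one_le_mul_of_one_le_of_one_le (cpa_one (hdl j)) (cpa_one (hdl k))
    calc D j k = 1 * D j k := (one_mul _).symm
      _ ≤ _ := mul_le_mul_of_nonneg_right h1 (hD0 j k)
  obtain ⟨s, hs⟩ : ∃ s : ℝ, s = sM M := ⟨_, rfl⟩
  have hs1 : s * (32 * m ^ 8) = 1 := by
    rw [hs, hm]
    unfold sM
    have : (0 : ℝ) < 32 * (M : ℝ) ^ 8 := by
      rw [← hm]
      positivity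
    exact one_div_mul_cancel this.ne'
  have hm4 : m ^ 4 ≤ m ^ 8 := pow_le_pow_right₀ hm1 (by norm_num)
  have hm6 : m ^ 6 ≤ m ^ 8 := pow_le_pow_right₀ hm1 (by norm_num)
  have hm8 : 1 ≤ m ^ 8 := one_le_pow₀ hm1
  have hm3 : 1 ≤ m ^ 3 := one_le_pow₀ hm1
  have hm5 : m ^ 3 ≤ m ^ 5 := pow_le_pow_right₀ hm1 (by norm_num)
  have hs0 : 0 < s := by
    by_contra h
    have h1 : s * (32 * m ^ 8) ≤ 0 := mul_nonpos_of_nonpos_of_nonneg (not_lt.1 h) (by positivity)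
    linarith
  have hs4 : 4 * m ^ 4 * s ≤ 1 / 8 := by
    have h1 : s * m ^ 4 ≤ s * m ^ 8 := mul_le_mul_of_nonneg_left hm4 hs0.le
    nlinarith
  have hs6 : m ^ 6 * s ≤ 1 / 32 := by
    have h1 : s * m ^ 6 ≤ s * m ^ 8 := mul_le_mul_of_nonneg_left hm6 hs0.le
    nlinarith
  have hA : ∀ j k, j ≠ k → hypDet α ![j, k] = 0 → s ≤ D j k := by
    intro j k hjk h0
    have h1 := d3_ne (β := β) (e := e) hG hjk (hdl j) h0
    have h2 := hup j k
    rw [h0, Int.cast_zero, zero_mul, zero_sub, norm_neg, Complex.norm_intCast] at h2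
    have h3 := (cpa_one h1).trans h2
    by_contra hcon
    have h4 : D j k < s := not_le.1 hcon
    have h5 : 4 * m ^ 4 * D j k ≤ 4 * m ^ 4 * s := mul_le_mul_of_nonneg_left h4.le (by positivity)
    linarith
  by_cases hall : ∀ j k, j ≠ k → 2 * ρ < ‖tt α β a e y j - tt α β a e y k‖
  · exact Or.inl hall
  right
  push Not at hall
  obtain ⟨p, q, hpq, hpq1⟩ := hall
  rw [← hD] at hpq1
  have hρs : 8 * ρ ≤ s := by
    rw [hs]
    exact (numA hM hρ hC).2.1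
  have hpqs : D p q ≤ s / 4 := by linarith
  have hdet : hypDet α ![p, q] ≠ 0 := by
    intro h0
    have h1 := hA p q hpq h0
    linarith
  have hpq2 : ‖(hypDet α ![p, q] : ℂ) * y - (d3 α β a e p q : ℂ)‖ ≤ m ^ 4 * s := by
    refine (hup p q).trans ?_
    calc 4 * m ^ 4 * D p q ≤ 4 * m ^ 4 * (s / 4) := mul_le_mul_of_nonneg_left hpqs (by positivity)
      _ = m ^ 4 * s := by ring
  refine ⟨p, q, hpq, hdet, ?_, ?_, ?_⟩
  · rw [← hD, ← hs]
    exact hpqs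
  · intro j k hjk h1 h2
    rw [← hD, ← hs]
    by_contra hcon
    have h3 : D j k < s := not_le.1 hcon
    have hjk0 : hypDet α ![j, k] ≠ 0 := fun h0 => hcon (hA j k hjk h0)
    have h4 : ‖(hypDet α ![j, k] : ℂ) * y - (d3 α β a e j k : ℂ)‖ ≤ 4 * m ^ 4 * s :=
      (hup j k).trans (mul_le_mul_of_nonneg_left h3.le (by positivity))
    have h5 : |((hypDet α ![j, k] * d3 α β a e p q - hypDet α ![p, q] * d3 α β a e j k : ℤ) : ℝ)|
        ≤ 1 / 2 := by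
      rw [← Complex.norm_intCast]
      have e1 : ((hypDet α ![j, k] * d3 α β a e p q - hypDet α ![p, q] * d3 α β a e j k : ℤ) : ℂ) =
          (hypDet α ![p, q] : ℂ) * ((hypDet α ![j, k] : ℂ) * y - (d3 α β a e j k : ℂ)) -
          (hypDet α ![j, k] : ℂ) * ((hypDet α ![p, q] : ℂ) * y - (d3 α β a e p q : ℂ)) := by
        push_cast
        ring
      rw [e1]
      refine (norm_sub_le _ _).trans ?_
      rw [norm_mul, norm_mul, Complex.norm_intCast, Complex.norm_intCast]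
      have h6 : |(hypDet α ![p, q] : ℝ)| *
          ‖(hypDet α ![j, k] : ℂ) * y - (d3 α β a e j k : ℂ)‖ ≤ 2 * m ^ 2 * (4 * m ^ 4 * s) :=
        mul_le_mul (hdt p q) h4 (norm_nonneg _) (by positivity)
      have h7 : |(hypDet α ![j, k] : ℝ)| *
          ‖(hypDet α ![p, q] : ℂ) * y - (d3 α β a e p q : ℂ)‖ ≤ 2 * m ^ 2 * (m ^ 4 * s) :=
        mul_le_mul (hdt j k) hpq2 (norm_nonneg _) (by positivity)
      have h8 : 2 * m ^ 2 * (4 * m ^ 4 * s) + 2 * m ^ 2 * (m ^ 4 * s) = 10 * (m ^ 6 * s) := by ring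
      linarith
    have h6 : hypDet α ![j, k] * d3 α β a e p q - hypDet α ![p, q] * d3 α β a e j k = 0 := by
      by_contra hne
      have h7 := cpa_one hne
      linarith
    rcases hM.hdist j k p q hjk0 hdet (by linarith) with h | h
    · exact h1 h
    · exact h2 h
  · have hy : ‖y‖ ≤ 7 * m ^ 3 := by
      have h1 : |(hypDet α ![p, q] : ℝ)| * ‖y‖ ≤ 6 * m ^ 3 + m ^ 4 * s := by
        have e1 : (hypDet α ![p, q] : ℂ) * y = (d3 α β a e p q : ℂ) +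
            ((hypDet α ![p, q] : ℂ) * y - (d3 α β a e p q : ℂ)) := by ring
        calc |(hypDet α ![p, q] : ℝ)| * ‖y‖ = ‖(hypDet α ![p, q] : ℂ) * y‖ := by
              rw [norm_mul, Complex.norm_intCast]
          _ ≤ ‖(d3 α β a e p q : ℂ)‖ +
              ‖(hypDet α ![p, q] : ℂ) * y - (d3 α β a e p q : ℂ)‖ := by
              conv_lhs => rw [e1]
              exact norm_add_le _ _
          _ ≤ 6 * m ^ 3 + m ^ 4 * s := by
              refine add_le_add ?_ hpq2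
              rw [Complex.norm_intCast]
              exact hd3 p q
      have h2 : 1 * ‖y‖ ≤ |(hypDet α ![p, q] : ℝ)| * ‖y‖ :=
        mul_le_mul_of_nonneg_right (cpa_one hdet) (norm_nonneg _)
      linarith
    intro j k
    rw [← hD]
    refine (hlow j k).trans ?_
    have h1 : ‖(hypDet α ![j, k] : ℂ) * y - (d3 α β a e j k : ℂ)‖ ≤
        2 * m ^ 2 * (7 * m ^ 3) + 6 * m ^ 3 := by
      refine (norm_sub_le _ _).trans ?_
      rw [norm_mul, Complex.norm_intCast, Complex.norm_intCast]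
      exact add_le_add (mul_le_mul (hdt j k) hy (norm_nonneg _) (by positivity)) (hd3 j k)
    refine h1.trans ?_
    unfold RM
    rw [← hm]
    nlinarith

end Pool.Agent.ISF
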