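import Mathlib
import Pool.Agent.ISF.Mat

/-! The roots of `C ∏ (x - t j) = 1` over an algebraically closed normed field `F` and the matrix
of the logarithms `log ‖r i - t j‖ - log ρ`. Adapted from the first half of Pool/Agent/ISI/Arc.lean. -/

namespace Pool.Agent.ISF

open Polynomial

/-- the roots of a polynomial as a function on `Fin` -/
private theorem rts_roots {F : Type} [Field F] [IsAlgClosed F] (P : F[X]) (hF : P ≠ 0) (D : ℕ)
    (hD : P.natDegree = D) :
    ∃ r : Fin D → F,
      (∀ y, P.eval y = P.leadingCoeff * ∏ i, (y - r i)) ∧ ∀ i, P.eval (r i) = 0 := by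
  subst hD
  have hs : P.roots.card = P.natDegree := IsAlgClosed.card_roots_eq_natDegree
  have hl : P.roots.toList.length = P.natDegree := by rw [Multiset.length_toList, hs]
  have hp : P = C P.leadingCoeff * (P.roots.map fun a => X - C a).prod :=
    (C_leadingCoeff_mul_prod_multiset_X_sub_C hs).symm
  refine ⟨fun i => P.roots.toList.get (i.cast hl.symm), ?_, ?_⟩
  · intro y
    have h1 : P.roots = (Finset.univ : Finset (Fin P.natDegree)).val.map
        fun i => P.roots.toList.get (i.cast hl.symm) := by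
      rw [Fin.univ_val_map]
      conv_lhs => rw [← Multiset.coe_toList P.roots]
      congr 1
      apply List.ext_get
      · rw [List.length_ofFn, hl]
      · intro n h1 h2
        simp
    have h2 : (P.roots.map fun a => X - C a).prod =
        ∏ i : Fin P.natDegree, (X - C (P.roots.toList.get (i.cast hl.symm))) := by
      conv_lhs => rw [h1]
      rw [Multiset.map_map]
      rfl
    conv_lhs => rw [hp, h2]
    rw [eval_mul, eval_C, eval_prod]
    congr 1
    exact Finset.prod_congr rfl fun i _ => by simp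
  · intro i
    have h1 : P.roots.toList.get (i.cast hl.symm) ∈ P.roots :=
      Multiset.mem_toList.1 (List.get_mem _ _)
    exact (mem_roots hF).1 h1

theorem rts {N : ℕ} (hN : 0 < N) {F : Type} [NormedField F] [IsAlgClosed F] {C : F} {ρ : ℝ}
    (hρ : 0 < ρ) (hC : ‖C‖ * ρ ^ N = 1) (t : Fin N → F) (b : Fin N → ℝ)
    (hH : ∃ H : ℝ, ∀ x : F, C * ∏ j, (x - t j) = 1 → ∑ j, b j * Real.log ‖x - t j‖ = H) :
    ∃ r : Fin N → F, (∀ i, C * ∏ j, (r i - t j) = 1) ∧ Mat ρ t r b := by
  obtain ⟨H, hH⟩ := hH
  have hN' : (0 : ℝ) < N := by exact_mod_cast hN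
  have hC0 : C ≠ 0 := by
    rintro rfl
    rw [norm_zero, zero_mul] at hC
    exact zero_ne_one hC
  have hCn : 0 < ‖C‖ := norm_pos_iff.2 hC0
  have hlogC : Real.log ‖C‖ = -(N * Real.log ρ) := by
    have h1 := congrArg Real.log hC
    rw [Real.log_mul hCn.ne' (pow_ne_zero _ hρ.ne'), Real.log_pow, Real.log_one] at h1
    linarith
  -- the polynomial
  set G : F[X] := Polynomial.C C * ∏ j, (X - Polynomial.C (t j)) with hG
  have hmon : (∏ j, (X - Polynomial.C (t j))).Monic :=
    monic_prod_of_monic _ _ fun j _ => monic_X_sub_C (t j)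
  have hGdeg : G.natDegree = N := by
    rw [hG, natDegree_C_mul hC0, natDegree_prod_of_monic _ _ fun j _ => monic_X_sub_C (t j)]
    simp
  have hGlead : G.leadingCoeff = C := by
    rw [hG, leadingCoeff_mul, leadingCoeff_C, hmon.leadingCoeff, mul_one]
  have hFdeg : (G - 1).natDegree = N := by
    rw [natDegree_sub_eq_left_of_natDegree_lt, hGdeg]
    rw [natDegree_one, hGdeg]
    exact hN
  have hFlead : (G - 1).leadingCoeff = C := by
    rw [leadingCoeff_sub_of_degree_lt, hGlead]
    rw [degree_one]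
    rw [← natDegree_pos_iff_degree_pos, hGdeg]
    exact hN
  have hF0 : G - 1 ≠ 0 := by
    intro h
    rw [h, natDegree_zero] at hFdeg
    omega
  obtain ⟨r, hr1, hr2⟩ := rts_roots (G - 1) hF0 _ hFdeg
  rw [hFlead] at hr1
  have hGe : ∀ y, G.eval y = C * ∏ j, (y - t j) := by
    intro y
    rw [hG, eval_mul, eval_C, eval_prod]
    congr 1
    exact Finset.prod_congr rfl fun i _ => by simp
  have hroot : ∀ i, C * ∏ j, (r i - t j) = 1 := by
    intro i
    have h1 := hr2 i
    rw [eval_sub, eval_one, hGe, sub_eq_zero] at h1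
    exact h1
  have hprod : ∀ k, C * ∏ i, (t k - r i) = -1 := by
    intro k
    rw [← hr1, eval_sub, eval_one, hGe, Finset.prod_eq_zero (Finset.mem_univ k) (sub_self _)]
    ring
  have hne : ∀ i j, r i - t j ≠ 0 := by
    intro i j h
    have h1 := hroot i
    rw [Finset.prod_eq_zero (Finset.mem_univ j) h, mul_zero] at h1
    exact zero_ne_one h1
  have hnp : ∀ i j, ‖r i - t j‖ ≠ 0 := fun i j => norm_ne_zero_iff.2 (hne i j)
  have h3 : ∀ i, ∑ j, Real.log ‖r i - t j‖ = N * Real.log ρ := by
    intro i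
    have h1 := congrArg (fun z : F => Real.log ‖z‖) (hroot i)
    simp only [norm_mul, norm_one, norm_prod, Real.log_one] at h1
    rw [Real.log_mul hCn.ne' (Finset.prod_ne_zero_iff.2 fun j _ => hnp i j),
      Real.log_prod fun j _ => hnp i j, hlogC] at h1
    linarith
  have h2 : ∀ j, ∑ i, Real.log ‖r i - t j‖ = N * Real.log ρ := by
    intro j
    have h1 := congrArg (fun z : F => Real.log ‖z‖) (hprod j)
    simp only [norm_mul, norm_neg, norm_one, norm_prod, Real.log_one] at h1
    have h4 : ∀ i ∈ (Finset.univ : Finset (Fin N)), ‖t j - r i‖ ≠ 0 := by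
      intro i _
      rw [norm_sub_rev]
      exact hnp i j
    rw [Real.log_mul hCn.ne' (Finset.prod_ne_zero_iff.2 h4), Real.log_prod h4, hlogC] at h1
    have h5 : ∑ i, Real.log ‖t j - r i‖ = ∑ i, Real.log ‖r i - t j‖ :=
      Finset.sum_congr rfl fun i _ => by rw [norm_sub_rev]
    rw [h5] at h1
    linarith
  have hHv : H = (∑ j, b j) * Real.log ρ := by
    have h1 : ∑ i : Fin N, ∑ j, b j * Real.log ‖r i - t j‖ =
        ∑ _i : Fin N, H := Finset.sum_congr rfl fun i _ => hH (r i) (hroot i)
    rw [Finset.sum_comm, Finset.sum_const, Finset.card_univ, Fintype.card_fin,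
      nsmul_eq_mul] at h1
    have h4 : ∑ j, ∑ i, b j * Real.log ‖r i - t j‖ =
        (∑ j, b j) * (N * Real.log ρ) := by
      rw [Finset.sum_mul]
      refine Finset.sum_congr rfl fun j _ => ?_
      rw [← Finset.mul_sum, h2 j]
    rw [h4] at h1
    have h5 : (N : ℝ) * ((∑ j, b j) * Real.log ρ) = N * H := by
      rw [← h1]
      ring
    exact (mul_left_cancel₀ hN'.ne' h5).symm
  refine ⟨r, hroot, hρ, fun i j h => hne i j (by rw [h, sub_self]), fun i => ?_, fun j => ?_,
    fun i => ?_⟩
  · rw [Finset.sum_sub_distrib, h3 i, Finset.sum_const, Finset.card_univ, Fintype.card_fin,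
      nsmul_eq_mul, sub_self]
  · rw [Finset.sum_sub_distrib, h2 j, Finset.sum_const, Finset.card_univ, Fintype.card_fin,
      nsmul_eq_mul, sub_self]
  · simp only [mul_sub]
    rw [Finset.sum_sub_distrib, hH (r i) (hroot i), ← Finset.sum_mul, hHv, sub_self]

end Pool.Agent.ISF
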