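import Mathlib
import Pool.Agent.ISI.Arc
import Pool.Agent.ISF.CpA
import Pool.Agent.ISF.Rts
import Pool.Agent.ISF.Arq

/-! The exponents of a unit at a complex place: either all distances of the points are large and the
exponents are equal, or exactly one pair of points is very close and carries the exponents. -/

namespace Pool.Agent.ISF

open Pool.Agent.Helper11 Pool.Agent.ISI Polynomial

variable {N : ℕ} {α : Fin N → Fin 2 → ℤ} {β : Fin N → ℤ} {c Δ : ℤ} {a : Fin 2 → ℤ} {e : ℤ}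

private lemma eqc_abs_mul_le {x y X Y : ℤ} (hx : |x| ≤ X) (hy : |y| ≤ Y) : |x * y| ≤ X * Y := by
  rw [abs_mul]
  exact mul_le_mul hx hy (abs_nonneg _) ((abs_nonneg _).trans hx)

private lemma eqc_dl {M : ℕ} (hM : Gen α β c Δ a e M) (j : Fin N) :
    ‖(dl α a j : ℂ)‖ ≤ 2 * (M : ℝ) ^ 2 := by
  have h1 : |dl α a j| ≤ 2 * (M : ℤ) ^ 2 := by
    have h2 := eqc_abs_mul_le (hM.hF.haM 0) (hM.hα j 1)
    have h3 := eqc_abs_mul_le (hM.hF.haM 1) (hM.hα j 0)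
    have h4 := abs_sub (a 0 * α j 1) (a 1 * α j 0)
    unfold dl
    nlinarith
  rw [Complex.norm_intCast]
  exact_mod_cast h1

private lemma eqc_far (hN : 0 < N) (hC0 : (CI α c a : ℂ) ≠ 0) (y : ℂ) (b : Fin N → ℝ)
    (hb0 : ∑ j, b j = 0)
    (hH : ∃ H : ℝ, ∀ x : ℂ, (CI α c a : ℂ) * ∏ j, (x - tt α β a e y j) = 1 →
      ∑ j, b j * Real.log ‖x - tt α β a e y j‖ = H) {ρ : ℝ} (hρ : 0 < ρ)
    (hC : ‖(CI α c a : ℂ)‖ * ρ ^ N = 1)
    (hfar : ∀ j k, j ≠ k → 2 * ρ < ‖tt α β a e y j - tt α β a e y k‖) (l : Fin N) : b l = 0 := by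
  obtain ⟨H, hH⟩ := hH
  have hinj : ∀ j k, tt α β a e y j = tt α β a e y k → j = k := by
    intro j k hjk
    by_contra hne
    have h1 := hfar j k hne
    rw [hjk, sub_self, norm_zero] at h1
    linarith
  have hfil : ∀ k, (Finset.univ.filter fun j => tt α β a e y j = tt α β a e y k) = {k} := by
    intro k
    ext j
    simp only [Finset.mem_filter, Finset.mem_univ, true_and, Finset.mem_singleton]
    exact ⟨hinj j k, fun h => by rw [h]⟩
  have key : ∀ k, b k = b l := by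
    intro k
    have h1 := Pool.Agent.ISI.arch (Finset.univ : Finset (Fin N)) (tt α β a e y)
      (CI α c a : ℂ) ρ hρ (by rw [Finset.card_univ, Fintype.card_fin]; exact hC)
      (by
        intro j _ k _
        by_cases h : j = k
        · left
          rw [h]
        · right
          exact hfar j k h) b H hH (Finset.mem_univ k) (Finset.mem_univ l)
    rw [hfil, hfil, Finset.sum_singleton, Finset.sum_singleton, Finset.card_singleton,
      Finset.card_singleton, Nat.cast_one, mul_one, mul_one] at h1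
    exact h1
  rw [Finset.sum_congr rfl fun k _ => key k, Finset.sum_const, Finset.card_univ, Fintype.card_fin,
    nsmul_eq_mul] at hb0
  have h2 : (N : ℝ) ≠ 0 := by exact_mod_cast hN.ne'
  exact (mul_eq_zero.1 hb0).resolve_left h2

theorem eqC (hG : Good α β c) {M : ℕ} (hM : Gen α β c Δ a e M) (y : ℂ) (b : Fin N → ℝ)
    (hb0 : ∑ j, b j = 0)
    (hH : ∃ H : ℝ, ∀ x : ℂ, (CI α c a : ℂ) * ∏ j, (x - tt α β a e y j) = 1 →
      ∑ j, b j * Real.log ‖x - tt α β a e y j‖ = H)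
    {A : ℝ} (hA0 : 0 < A) (hA : ∀ j, |b j| ≤ A) {l : Fin N} (hl : |b l| = A) :
    ∃ p q : Fin N, p ≠ q ∧ hypDet α ![p, q] ≠ 0 ∧ A / 2 ≤ |b p| ∧ A / 2 ≤ |b q| ∧
      (∀ k, k ≠ p → k ≠ q → |b k| * (N : ℝ) ^ 2 ≤ A) ∧
      ‖(hypDet α ![p, q] : ℂ) * y - (d3 α β a e p q : ℂ)‖ ^ 2 * |(c : ℝ)| ≤ XM N M := by
  have hN := hG.hN
  have hC0 : (CI α c a : ℂ) ≠ 0 := CI_ne hG.hc hM.hdl
  have hCn : 0 < ‖(CI α c a : ℂ)‖ := norm_pos_iff.2 hC0
  obtain ⟨ρ, hρ, hC⟩ : ∃ ρ : ℝ, 0 < ρ ∧ ‖(CI α c a : ℂ)‖ * ρ ^ N = 1 := by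
    refine ⟨(‖(CI α c a : ℂ)‖⁻¹) ^ ((N : ℝ)⁻¹), Real.rpow_pos_of_pos (inv_pos.2 hCn) _, ?_⟩
    rw [Real.rpow_inv_natCast_pow (inv_pos.2 hCn).le hN.ne']
    exact mul_inv_cancel₀ hCn.ne'
  obtain ⟨hn1, hn2, hn3, hn4⟩ := numA hM hρ hC
  rcases cpA hG hM y hρ hC with hfar | ⟨p, q, hpq, hdet, hclose, hsep, hR⟩
  · exfalso
    have h1 := eqc_far hN hC0 y b hb0 hH hρ hC hfar l
    rw [h1, abs_zero] at hl
    exact hA0.ne hl
  · obtain ⟨r, -, hMat⟩ := rts hN hρ hC _ b hH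
    have hM1 : (1 : ℝ) ≤ M := by exact_mod_cast hM.hM
    have hM0 : (0 : ℝ) < M := lt_of_lt_of_le one_pos hM1
    have hN3 : (3 : ℝ) ≤ N := by exact_mod_cast hM.hN3
    have hs : 4 * ρ ≤ sM M := by linarith
    have hLg : 8 ≤ Real.log (sM M / (2 * ρ)) := by nlinarith
    have hsR : sM M ≤ RM M := by
      have h8 : (1 : ℝ) ≤ (M : ℝ) ^ 8 := one_le_pow₀ hM1
      have h5 : (1 : ℝ) ≤ (M : ℝ) ^ 5 := one_le_pow₀ hM1
      have h1 : sM M ≤ 1 := by
        unfold sM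
        rw [div_le_one (by positivity)]
        linarith
      have h2 : 1 ≤ RM M := by
        unfold RM
        linarith
      exact h1.trans h2
    obtain ⟨-, hp2, hq2, hfin⟩ := arq hMat hb0 hs hpq hclose hsep hLg hR hsR hn4 hA0 hA hl
    obtain ⟨haro, -⟩ := aro hMat hb0 hs hpq hclose hsep hA
    refine ⟨p, q, hpq, hdet, hp2, hq2, ?_, ?_⟩
    · intro k hkp hkq
      have h1 := haro k hkp hkq
      have h2 : |b k| * (2 * (N : ℝ) ^ 2) ≤ |b k| * Real.log (sM M / (2 * ρ)) :=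
        mul_le_mul_of_nonneg_left hn3 (abs_nonneg _)
      linarith
    · have hsub := tt_sub (β := β) (e := e) (a := a) hM.hF.ha y (hM.hdl p) (hM.hdl q)
      rw [← hsub, norm_mul, norm_mul, norm_sub_rev]
      have hdp := eqc_dl hM p
      have hdq := eqc_dl hM q
      set D := ‖tt α β a e y p - tt α β a e y q‖ with hD
      have hD0 : 0 ≤ D := norm_nonneg _
      have h1 : ‖(dl α a p : ℂ)‖ * ‖(dl α a q : ℂ)‖ * D ≤ 4 * (M : ℝ) ^ 4 * D := by
        refine mul_le_mul_of_nonneg_right ?_ hD0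
        calc ‖(dl α a p : ℂ)‖ * ‖(dl α a q : ℂ)‖ ≤ (2 * (M : ℝ) ^ 2) * (2 * (M : ℝ) ^ 2) :=
              mul_le_mul hdp hdq (norm_nonneg _) (by positivity)
          _ = 4 * (M : ℝ) ^ 4 := by ring
      have h2 : (‖(dl α a p : ℂ)‖ * ‖(dl α a q : ℂ)‖ * D) ^ 2 ≤ (4 * (M : ℝ) ^ 4 * D) ^ 2 :=
        pow_le_pow_left₀ (by positivity) h1 2
      have hs2 : sM M / 2 = (64 * (M : ℝ) ^ 8)⁻¹ := by
        unfold sM
        rw [one_div, div_eq_mul_inv, ← mul_inv]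
        congr 1
        ring
      rw [hs2, inv_pow] at hfin
      have hP : (0 : ℝ) < (64 * (M : ℝ) ^ 8) ^ (N - 2) := by positivity
      have h3 : D ^ 2 ≤ (1 + Real.exp (11 * N)) ^ 2 * ρ ^ N * (64 * (M : ℝ) ^ 8) ^ (N - 2) := by
        rw [← div_le_iff₀ hP, div_eq_mul_inv]
        exact hfin
      have hE : (0 : ℝ) ≤ (1 + Real.exp (11 * N)) ^ 2 := by positivity
      calc (‖(dl α a p : ℂ)‖ * ‖(dl α a q : ℂ)‖ * D) ^ 2 * |(c : ℝ)|
          ≤ (4 * (M : ℝ) ^ 4 * D) ^ 2 * |(c : ℝ)| :=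
            mul_le_mul_of_nonneg_right h2 (abs_nonneg _)
        _ = 16 * (M : ℝ) ^ 8 * |(c : ℝ)| * D ^ 2 := by ring
        _ ≤ 16 * (M : ℝ) ^ 8 * |(c : ℝ)| *
            ((1 + Real.exp (11 * N)) ^ 2 * ρ ^ N * (64 * (M : ℝ) ^ 8) ^ (N - 2)) :=
            mul_le_mul_of_nonneg_left h3 (by positivity)
        _ = 16 * (M : ℝ) ^ 8 * (1 + Real.exp (11 * N)) ^ 2 * (64 * (M : ℝ) ^ 8) ^ (N - 2) *
            (|(c : ℝ)| * ρ ^ N) := by ring
        _ ≤ 16 * (M : ℝ) ^ 8 * (1 + Real.exp (11 * N)) ^ 2 * (64 * (M : ℝ) ^ 8) ^ (N - 2) * 1 :=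
            mul_le_mul_of_nonneg_left hn1 (by positivity)
        _ = XM N M := by
          unfold XM
          ring

end Pool.Agent.ISF
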