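import Mathlib
import Pool.Agent.ISF.Fib

/-! MODULE ISF-CpN (ultrametric constants).

`tt α β a e η j` are the points `t j`, `tt_sub` (Fib.lean) gives
`dl j * dl k * (t k - t j) = [jk] η - d3 j k` with integers `[jk] = hypDet α ![j, k]`, `d3 j k`.

PROOF. Integers have norm at most 1 (`IsUltrametricDist.norm_intCast_le_one` or similar), and if
`x ∣ Δ` then `‖Δ‖ ≤ ‖x‖`; `0 < ‖Δ‖`, `0 < ‖c‖` (`hM.hΔ0`, `hG.hc`, characteristic 0). Take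
`ρ = (‖CI‖⁻¹)^(1/N)` and `R = ‖Δ‖⁻¹ * (‖c‖⁻¹)^(1/N)` (`Real.rpow_inv_natCast_pow`; `CI = c ∏ dl j`), so
`ρ ^ N = 1/(‖c‖ ∏ ‖dl j‖) ≤ 1/(‖c‖ ‖Δ‖ ^ N) = R ^ N` (`hM.hΔl`), so `ρ ≤ R`. Since `Δ ^ (N+1) ∣ c`
(`hM.hΔc`), `‖c‖ ≤ ‖Δ‖ ^ (N+1)`, so `R ^ N ≥ ‖Δ‖ ^ (-(2 N + 1)) ≥ ‖Δ‖ ^ (-2 N)` and `‖Δ‖ ^ (-2) ≤ R`.
Pairs with `[ij] = 0`: `‖t i - t j‖ = ‖d3‖ / (‖dl i‖ ‖dl j‖) ≤ ‖Δ‖ ^ (-2) ≤ R`.
Pairs with `[ij] ≠ 0`: `hη` says `‖η‖ ^ N > ‖Δ‖ ^ (-2N) ‖c‖⁻¹ = (‖Δ‖⁻¹ R) ^ N`, so `‖Δ‖ ‖η‖ > R`, and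
`‖[ij] η‖ ≥ ‖Δ‖ ‖η‖ > R ≥ ‖Δ‖ ^ (-2) ≥ 1 ≥ ‖d3‖` (`hM.hΔ ![i, j]`). So `‖[ij] η - d3‖ = ‖[ij] η‖ > R`
(ultrametric) and `‖t i - t j‖ = ‖[ij] η - d3‖ / (‖dl i‖ ‖dl j‖) ≥ ‖[ij] η - d3‖ > R`. -/

namespace Pool.Agent.ISF

open Pool.Agent.Helper11 Pool.Agent.ISI Polynomial

variable {N : ℕ} {α : Fin N → Fin 2 → ℤ} {β : Fin N → ℤ} {c Δ : ℤ} {a : Fin 2 → ℤ} {e : ℤ}

private lemma cpn_dvd {F : Type} [NormedField F] [IsUltrametricDist F] {x y : ℤ} (h : x ∣ y) :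
    ‖(y : F)‖ ≤ ‖(x : F)‖ := by
  obtain ⟨z, rfl⟩ := h
  rw [Int.cast_mul, norm_mul]
  have h1 : ‖(z : F)‖ ≤ 1 := IsUltrametricDist.norm_intCast_le_one F z
  exact mul_le_of_le_one_right (norm_nonneg _) h1

private lemma cpn_swap (α : Fin N → Fin 2 → ℤ) (i j : Fin N) :
    hypDet α ![i, j] = - hypDet α ![j, i] := by
  unfold hypDet
  rw [Matrix.det_fin_two, Matrix.det_fin_two]
  simp only [Matrix.of_apply, Matrix.cons_val_zero, Matrix.cons_val_one]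
  ring

private lemma cpn_ultra {F : Type} [NormedField F] [IsUltrametricDist F] {x y : F}
    (h : ‖y‖ < ‖x‖) : ‖x‖ ≤ ‖x - y‖ := by
  have h1 : ‖(x - y) + y‖ ≤ max ‖x - y‖ ‖y‖ := IsUltrametricDist.norm_add_le_max _ _
  rw [sub_add_cancel] at h1
  rcases le_max_iff.1 h1 with h2 | h2
  · exact h2
  · exact absurd h2 (not_le.2 h)

theorem cpN (hG : Good α β c) {M : ℕ} (hM : Gen α β c Δ a e M) {F : Type} [NormedField F]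
    [CharZero F] [IsUltrametricDist F] {η : F}
    (hη : 1 < ‖η‖ ^ N * ‖(Δ : F)‖ ^ (2 * N) * ‖(c : F)‖) :
    ∃ ρ R : ℝ, 0 < ρ ∧ ρ ≤ R ∧ ‖(CI α c a : F)‖ * ρ ^ N = 1 ∧
      (∀ i j, hypDet α ![i, j] = 0 → ‖tt α β a e η i - tt α β a e η j‖ ≤ R) ∧
      (∀ i j, hypDet α ![i, j] ≠ 0 → R < ‖tt α β a e η i - tt α β a e η j‖) := by
  have hN : N ≠ 0 := hG.hN.ne'
  have hCI0 : 0 < ‖(CI α c a : F)‖ := norm_pos_iff.2 (CI_ne hG.hc hM.hdl)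
  have hCIe : ‖(CI α c a : F)‖ = ‖(c : F)‖ * ∏ j, ‖(dl α a j : F)‖ := by
    unfold CI
    push_cast
    rw [norm_mul, norm_prod]
  have hdl1 : ∀ j, ‖(dl α a j : F)‖ ≤ 1 := fun j => IsUltrametricDist.norm_intCast_le_one F _
  have hdlD : ∀ j, ‖(Δ : F)‖ ≤ ‖(dl α a j : F)‖ := fun j => cpn_dvd (hM.hΔl j)
  have hD0 : 0 < ‖(Δ : F)‖ := norm_pos_iff.2 (Int.cast_ne_zero.2 hM.hΔ0)
  have hD1 : ‖(Δ : F)‖ ≤ 1 := IsUltrametricDist.norm_intCast_le_one F _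
  have hC0 : 0 < ‖(c : F)‖ := norm_pos_iff.2 (Int.cast_ne_zero.2 hG.hc)
  have hCD : ‖(c : F)‖ ≤ ‖(Δ : F)‖ ^ (N + 1) := by
    have h := cpn_dvd (F := F) hM.hΔc
    rwa [Int.cast_pow, norm_pow] at h
  have hpr : ‖(Δ : F)‖ ^ N ≤ ∏ j, ‖(dl α a j : F)‖ := by
    have h : ∏ _j : Fin N, ‖(Δ : F)‖ ≤ ∏ j, ‖(dl α a j : F)‖ :=
      Finset.prod_le_prod (fun _ _ => hD0.le) (fun j _ => hdlD j)
    simpa using h
  have hCIge : ‖(c : F)‖ * ‖(Δ : F)‖ ^ N ≤ ‖(CI α c a : F)‖ := by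
    rw [hCIe]
    exact mul_le_mul_of_nonneg_left hpr hC0.le
  have hdη := fun i j => tt_sub (F := F) (α := α) (β := β) (e := e) hM.hF.ha η (hM.hdl i)
    (hM.hdl j)
  generalize ‖(CI α c a : F)‖ = I at *
  generalize ‖(c : F)‖ = C at *
  have hdl0 : ∀ j, 0 < ‖(dl α a j : F)‖ := fun j => lt_of_lt_of_le hD0 (hdlD j)
  have hHD : ∀ i j, hypDet α ![i, j] ≠ 0 → ‖(Δ : F)‖ ≤ ‖(hypDet α ![i, j] : F)‖ :=
    fun i j h => cpn_dvd (hM.hΔ _ h)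
  generalize ‖(Δ : F)‖ = D at *
  set s : ℝ := (C⁻¹) ^ ((N : ℝ)⁻¹) with hs
  have hs0 : 0 < s := Real.rpow_pos_of_pos (inv_pos.2 hC0) _
  have hsN : s ^ N = C⁻¹ := Real.rpow_inv_natCast_pow (inv_pos.2 hC0).le hN
  set ρ : ℝ := (I⁻¹) ^ ((N : ℝ)⁻¹) with hρ
  have hρ0 : 0 < ρ := Real.rpow_pos_of_pos (inv_pos.2 hCI0) _
  have hρN : ρ ^ N = I⁻¹ := Real.rpow_inv_natCast_pow (inv_pos.2 hCI0).le hN
  have hR0 : 0 < D⁻¹ * s := mul_pos (inv_pos.2 hD0) hs0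
  have hRN : (D⁻¹ * s) ^ N = (C * D ^ N)⁻¹ := by
    rw [mul_pow, hsN, inv_pow, mul_inv, mul_comm]
  have hDs : D⁻¹ ≤ s := by
    refine le_of_pow_le_pow_left₀ hN hs0.le ?_
    rw [hsN, inv_pow]
    refine inv_anti₀ hC0 (hCD.trans ?_)
    exact pow_le_pow_of_le_one hD0.le hD1 (Nat.le_succ N)
  have hR2 : D⁻¹ * D⁻¹ ≤ D⁻¹ * s := mul_le_mul_of_nonneg_left hDs (inv_pos.2 hD0).le
  have hDi : 1 ≤ D⁻¹ := (one_le_inv₀ hD0).2 hD1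
  have hR1 : 1 ≤ D⁻¹ * s := by nlinarith
  have hRη : D⁻¹ * s < D * ‖η‖ := by
    refine lt_of_pow_lt_pow_left₀ N (mul_nonneg hD0.le (norm_nonneg _)) ?_
    rw [hRN, inv_lt_iff_one_lt_mul₀ (mul_pos hC0 (pow_pos hD0 N))]
    refine lt_of_lt_of_eq hη ?_
    rw [mul_pow, two_mul, pow_add]
    ring
  have hd3 : ∀ i j, ‖(d3 α β a e i j : F)‖ ≤ 1 :=
    fun i j => IsUltrametricDist.norm_intCast_le_one F _
  refine ⟨ρ, D⁻¹ * s, hρ0, ?_, ?_, ?_, ?_⟩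
  · refine le_of_pow_le_pow_left₀ hN hR0.le ?_
    rw [hρN, hRN]
    exact inv_anti₀ (mul_pos hC0 (pow_pos hD0 N)) hCIge
  · rw [hρN]
    exact mul_inv_cancel₀ hCI0.ne'
  · intro i j hij
    have h1 := congrArg norm (hdη j i)
    have hji : hypDet α ![j, i] = 0 := by
      rw [cpn_swap] at hij
      exact neg_eq_zero.1 hij
    rw [hji, Int.cast_zero, zero_mul, zero_sub, norm_neg, norm_mul, norm_mul] at h1
    have h2 := hd3 j i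
    rw [← h1] at h2
    have h3 : D * D ≤ ‖(dl α a j : F)‖ * ‖(dl α a i : F)‖ :=
      mul_le_mul (hdlD j) (hdlD i) hD0.le (hdl0 j).le
    have h4 : D * D * ‖tt α β a e η i - tt α β a e η j‖ ≤ 1 :=
      (mul_le_mul_of_nonneg_right h3 (norm_nonneg _)).trans h2
    refine le_trans ?_ hR2
    rw [← mul_inv, ← one_div, le_div_iff₀ (mul_pos hD0 hD0), mul_comm]
    exact h4
  · intro i j hij
    have h1 := congrArg norm (hdη j i)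
    have hji : hypDet α ![j, i] ≠ 0 := by
      intro h
      apply hij
      rw [cpn_swap, h, neg_zero]
    rw [norm_mul, norm_mul] at h1
    have h2 : D * ‖η‖ ≤ ‖(hypDet α ![j, i] : F) * η‖ := by
      rw [norm_mul]
      exact mul_le_mul_of_nonneg_right (hHD j i hji) (norm_nonneg _)
    have h3 : ‖(d3 α β a e j i : F)‖ < ‖(hypDet α ![j, i] : F) * η‖ := by
      linarith [hd3 j i]
    have h4 := cpn_ultra h3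
    rw [← h1] at h4
    have h5 : ‖(dl α a j : F)‖ * ‖(dl α a i : F)‖ * ‖tt α β a e η i - tt α β a e η j‖ ≤
        ‖tt α β a e η i - tt α β a e η j‖ :=
      mul_le_of_le_one_left (norm_nonneg _)
        (mul_le_one₀ (hdl1 j) (norm_nonneg _) (hdl1 i))
    linarith

end Pool.Agent.ISF
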