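import Mathlib
import Pool.Agent.ISF.Mat

/-! MODULE ISF-Nap (the ultrametric case; only Mathlib and Mat.lean).

`u i j = log ‖r i - t j‖ - log ρ` has zero row sums, zero column sums, and its rows are orthogonal to
`b` (`h : Mat ρ t r b`). The points `t j` fall into classes of diameter at most `R ≥ ρ`, different
classes have distance more than `R`. Then the sums of `b` over the classes vanish: replace `b` by its
averages over the classes and sum the rows of the roots close to a class with maximal average. -/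

namespace Pool.Agent.ISF

private theorem nap_avg {N : ℕ} (b U : Fin N → ℝ) (par : Fin N → Fin N → Prop) [DecidableRel par]
    (hpar : Equivalence par) (hU : ∀ i j, par i j → U i = U j) :
    ∑ k, ((∑ l ∈ Finset.univ.filter (fun l => par k l), b l) /
      ((Finset.univ.filter (fun l => par k l)).card : ℝ)) * U k = ∑ j, b j * U j := by
  have hcls : ∀ k l, par k l → Finset.univ.filter (fun m => par k m) =
      Finset.univ.filter (fun m => par l m) := by
    intro k l hkl
    refine Finset.filter_congr fun m _ => ?_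
    exact ⟨fun h => hpar.trans (hpar.symm hkl) h, fun h => hpar.trans hkl h⟩
  have h1 : ∀ k ∈ Finset.univ, ((∑ l ∈ Finset.univ.filter (fun l => par k l), b l) /
      ((Finset.univ.filter (fun l => par k l)).card : ℝ)) * U k =
      ∑ l, if par k l then b l * U l / ((Finset.univ.filter (fun m => par l m)).card : ℝ)
        else 0 := by
    intro k _
    rw [← Finset.sum_filter, Finset.sum_div, Finset.sum_mul]
    refine Finset.sum_congr rfl fun l hl => ?_
    have hkl : par k l := (Finset.mem_filter.1 hl).2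
    rw [hcls k l hkl, hU k l hkl]
    ring
  rw [Finset.sum_congr rfl h1, Finset.sum_comm]
  refine Finset.sum_congr rfl fun l _ => ?_
  have h2 : ∑ k, (if par k l then b l * U l / ((Finset.univ.filter (fun m => par l m)).card : ℝ)
      else 0) = ∑ k ∈ Finset.univ.filter (fun m => par l m),
        b l * U l / ((Finset.univ.filter (fun m => par l m)).card : ℝ) := by
    rw [Finset.sum_filter]
    refine Finset.sum_congr rfl fun j _ => ?_
    by_cases h : par j l
    · rw [if_pos h, if_pos (hpar.symm h)]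
    · rw [if_neg h, if_neg fun h' => h (hpar.symm h')]
  rw [h2, Finset.sum_const, nsmul_eq_mul]
  have h3 : ((Finset.univ.filter (fun m => par l m)).card : ℝ) ≠ 0 := by
    have : 0 < (Finset.univ.filter (fun m => par l m)).card :=
      Finset.card_pos.2 ⟨l, Finset.mem_filter.2 ⟨Finset.mem_univ _, hpar.refl l⟩⟩
    exact_mod_cast this.ne'
  field_simp

private theorem nap_eq {F : Type} [NormedField F] [IsUltrametricDist F] {R : ℝ} {x y : F}
    (h : ‖x - y‖ ≤ R) (hx : R < ‖x‖) : ‖y‖ = ‖x‖ := by
  have h1 : ‖y‖ ≤ max ‖x‖ ‖y - x‖ := by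
    have := IsUltrametricDist.norm_add_le_max x (y - x)
    rwa [add_sub_cancel] at this
  have h2 : ‖x‖ ≤ max ‖y‖ ‖x - y‖ := by
    have := IsUltrametricDist.norm_add_le_max y (x - y)
    rwa [add_sub_cancel] at this
  have h3 : ‖y - x‖ = ‖x - y‖ := norm_sub_rev y x
  refine le_antisymm ?_ ?_
  · refine h1.trans (max_le le_rfl ?_)
    rw [h3]
    linarith
  · rcases le_max_iff.1 h2 with h4 | h4
    · exact h4
    · exfalso
      linarith

theorem nap {N : ℕ} {F : Type} [NormedField F] [IsUltrametricDist F] {ρ R : ℝ} {t r : Fin N → F}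
    {b : Fin N → ℝ} (h : Mat ρ t r b) (hb0 : ∑ j, b j = 0) (hR : ρ ≤ R)
    (par : Fin N → Fin N → Prop) [DecidableRel par] (hpar : Equivalence par)
    (h1 : ∀ i j, par i j → ‖t i - t j‖ ≤ R) (h2 : ∀ i j, ¬ par i j → R < ‖t i - t j‖)
    (k : Fin N) : ∑ j ∈ Finset.univ.filter (fun j => par k j), b j = 0 := by
  set A : Fin N → ℝ := fun k => (∑ l ∈ Finset.univ.filter (fun l => par k l), b l) /
      ((Finset.univ.filter (fun l => par k l)).card : ℝ) with hA
  have hAcls : ∀ k l, par k l → A k = A l := by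
    intro k l hkl
    have h3 : Finset.univ.filter (fun m => par k m) = Finset.univ.filter (fun m => par l m) := by
      refine Finset.filter_congr fun m _ => ?_
      exact ⟨fun h => hpar.trans (hpar.symm hkl) h, fun h => hpar.trans hkl h⟩
    rw [hA]
    show _ / _ = _ / _
    rw [h3]
  have hcard : ∀ k, (0 : ℝ) < ((Finset.univ.filter (fun l => par k l)).card : ℝ) := by
    intro k
    have : 0 < (Finset.univ.filter (fun m => par k m)).card :=
      Finset.card_pos.2 ⟨k, Finset.mem_filter.2 ⟨Finset.mem_univ _, hpar.refl k⟩⟩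
    exact_mod_cast this
  have havg : ∀ U : Fin N → ℝ, (∀ i j, par i j → U i = U j) →
      ∑ k, A k * U k = ∑ j, b j * U j := fun U hU => nap_avg b U par hpar hU
  have hA0 : ∑ k, A k = 0 := by
    have h3 := havg (fun _ => 1) (fun _ _ _ => rfl)
    simp only [mul_one] at h3
    rw [h3, hb0]
  obtain ⟨k0, -, hmax⟩ := Finset.exists_max_image Finset.univ A ⟨k, Finset.mem_univ k⟩
  set I := Finset.univ.filter (fun i => ‖r i - t k0‖ ≤ R) with hI
  set U : Fin N → ℝ := fun j => ∑ i ∈ I, (Real.log ‖r i - t j‖ - Real.log ρ) with hU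
  have hIne : I.Nonempty := by
    obtain ⟨i, hi⟩ := h.near k0
    exact ⟨i, Finset.mem_filter.2 ⟨Finset.mem_univ i, hi.trans hR⟩⟩
  -- the class of `k0`
  have hU0 : ∀ j, par k0 j → U j = U k0 := by
    intro j hj
    have h3 : ∀ j, U j = - ∑ i ∈ Finset.univ.filter (fun i => ¬ ‖r i - t k0‖ ≤ R),
        (Real.log ‖r i - t j‖ - Real.log ρ) := by
      intro j
      have h4 := Finset.sum_filter_add_sum_filter_not Finset.univ
        (fun i => ‖r i - t k0‖ ≤ R) (fun i => Real.log ‖r i - t j‖ - Real.log ρ)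
      rw [h.hcol j] at h4
      rw [hU]
      show ∑ i ∈ I, (Real.log ‖r i - t j‖ - Real.log ρ) = _
      rw [hI]
      linarith
    rw [h3 j, h3 k0]
    congr 1
    refine Finset.sum_congr rfl fun i hi => ?_
    have hi' : R < ‖r i - t k0‖ := not_le.1 (Finset.mem_filter.1 hi).2
    have h5 : ‖r i - t j‖ = ‖r i - t k0‖ := by
      refine nap_eq (R := R) ?_ hi'
      have h6 : r i - t k0 - (r i - t j) = t j - t k0 := by ring
      rw [h6]
      exact h1 j k0 (hpar.symm hj)
    rw [h5]
  -- the other classes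
  have hfar : ∀ i ∈ I, ∀ j, ¬ par k0 j → ‖r i - t j‖ = ‖t k0 - t j‖ := by
    intro i hi j hj
    refine nap_eq (R := R) ?_ (h2 k0 j hj)
    have h6 : t k0 - t j - (r i - t j) = -(r i - t k0) := by ring
    rw [h6, norm_neg]
    exact (Finset.mem_filter.1 hi).2
  have hU1 : ∀ j j', par j j' → ¬ par k0 j → U j = U j' := by
    intro j j' hjj hj
    have hj' : ¬ par k0 j' := fun h' => hj (hpar.trans h' (hpar.symm hjj))
    rw [hU]
    refine Finset.sum_congr rfl fun i hi => ?_
    rw [hfar i hi j hj, hfar i hi j' hj']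
    have h5 : ‖t k0 - t j'‖ = ‖t k0 - t j‖ := by
      refine nap_eq (R := R) ?_ (h2 k0 j hj)
      have h6 : t k0 - t j - (t k0 - t j') = -(t j - t j') := by ring
      rw [h6, norm_neg]
      exact h1 j j' hjj
    rw [h5]
  have hUpos : ∀ j, ¬ par k0 j → 0 < U j := by
    intro j hj
    rw [hU]
    refine Finset.sum_pos (fun i hi => ?_) hIne
    rw [hfar i hi j hj]
    exact sub_pos.2 (Real.log_lt_log h.hρ (lt_of_le_of_lt hR (h2 k0 j hj)))
  have hUcls : ∀ i j, par i j → U i = U j := by
    intro i j hij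
    by_cases hi : par k0 i
    · rw [hU0 i hi, hU0 j (hpar.trans hi hij)]
    · exact hU1 i j hij hi
  have hUsum : ∑ j, U j = 0 := by
    rw [hU]
    show ∑ j, ∑ i ∈ I, (Real.log ‖r i - t j‖ - Real.log ρ) = 0
    rw [Finset.sum_comm]
    exact Finset.sum_eq_zero fun i _ => h.hrow i
  have hUb : ∑ j, b j * U j = 0 := by
    have h3 : ∑ j, b j * U j = ∑ j, ∑ i ∈ I, b j * (Real.log ‖r i - t j‖ - Real.log ρ) := by
      refine Finset.sum_congr rfl fun j _ => ?_
      rw [hU, Finset.mul_sum]
    rw [h3, Finset.sum_comm]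
    exact Finset.sum_eq_zero fun i _ => h.hb i
  have hzero : ∑ j, (A k0 - A j) * U j = 0 := by
    have h3 : ∑ j, (A k0 - A j) * U j = A k0 * ∑ j, U j - ∑ j, A j * U j := by
      rw [Finset.mul_sum, ← Finset.sum_sub_distrib]
      exact Finset.sum_congr rfl fun j _ => sub_mul _ _ _
    rw [h3, hUsum, havg U hUcls, hUb]
    ring
  have hterm : ∀ j ∈ Finset.univ, 0 ≤ (A k0 - A j) * U j := by
    intro j _
    by_cases hj : par k0 j
    · rw [hAcls k0 j hj, sub_self, zero_mul]
    · exact mul_nonneg (sub_nonneg.2 (hmax j (Finset.mem_univ j))) (hUpos j hj).le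
  have hall : ∀ j, A j = A k0 := by
    intro j
    by_cases hj : par k0 j
    · exact (hAcls k0 j hj).symm
    · have h5 := (Finset.sum_eq_zero_iff_of_nonneg hterm).1 hzero j (Finset.mem_univ j)
      rcases mul_eq_zero.1 h5 with h6 | h6
      · linarith
      · exact absurd h6 (hUpos j hj).ne'
  have hk0 : A k0 = 0 := by
    have h3 : ∑ j : Fin N, A j = ∑ _j : Fin N, A k0 := Finset.sum_congr rfl fun j _ => hall j
    rw [hA0, Finset.sum_const, Finset.card_univ, Fintype.card_fin, nsmul_eq_mul] at h3
    have h4 : (N : ℝ) ≠ 0 := by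
      have : N ≠ 0 := by
        rintro rfl
        exact k.elim0
      exact_mod_cast this
    rcases mul_eq_zero.1 h3.symm with h5 | h5
    · exact absurd h5 h4
    · exact h5
  have hk : A k = 0 := by rw [hall k, hk0]
  rw [hA] at hk
  have hk' : (∑ l ∈ Finset.univ.filter (fun l => par k l), b l) /
      ((Finset.univ.filter (fun l => par k l)).card : ℝ) = 0 := hk
  rcases div_eq_zero_iff.1 hk' with h5 | h5
  · exact h5
  · exact absurd h5 (hcard k).ne'

end Pool.Agent.ISF
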