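import Mathlib
import Pool.Agent.ISF.CpN
import Pool.Agent.ISF.Rts
import Pool.Agent.ISF.Nap

/-! MODULE ISF-EqN (the exponents, ultrametric place).

PROOF. `cpN` gives `ρ, R`; `rts` (with `C = CI`, `t = tt α β a e η`, `hH`) gives the roots and
`Mat ρ t r b`; `nap` with `par i j := hypDet α ![i, j] = 0` (decidable: integers). Parallelism is
an equivalence relation: `dt_eq` (hypDet is `α i 0 * α j 1 - α i 1 * α j 0`); transitivity uses `α j ≠ 0`,
which follows from `hG.hrk j`. -/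

namespace Pool.Agent.ISF

open Pool.Agent.Helper11 Pool.Agent.ISI Polynomial

variable {N : ℕ} {α : Fin N → Fin 2 → ℤ} {β : Fin N → ℤ} {c Δ : ℤ} {a : Fin 2 → ℤ} {e : ℤ}

private lemma par_equiv (hG : Good α β c) :
    Equivalence (fun i j : Fin N => hypDet α ![i, j] = 0) := by
  refine ⟨fun i => ?_, fun {i j} h => ?_, fun {i j k} h1 h2 => ?_⟩
  · rw [dt_eq]
    ring
  · rw [dt_eq] at h ⊢
    linarith
  · obtain ⟨l, hl⟩ := hG.hrk j
    rw [dt_eq] at h1 h2 hl ⊢
    have e0 : α j 0 * (α i 0 * α k 1 - α i 1 * α k 0) = 0 := by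
      linear_combination α k 0 * h1 + α i 0 * h2
    have e1 : α j 1 * (α i 0 * α k 1 - α i 1 * α k 0) = 0 := by
      linear_combination α k 1 * h1 + α i 1 * h2
    rcases mul_eq_zero.1 e0 with h0 | h0
    · rcases mul_eq_zero.1 e1 with h3 | h3
      · exact absurd (by rw [h0, h3]; ring) hl
      · exact h3
    · exact h0

theorem eqN (hG : Good α β c) {M : ℕ} (hM : Gen α β c Δ a e M) {F : Type} [NormedField F]
    [IsAlgClosed F] [CharZero F] [IsUltrametricDist F] {η : F}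
    (hη : 1 < ‖η‖ ^ N * ‖(Δ : F)‖ ^ (2 * N) * ‖(c : F)‖) (b : Fin N → ℝ)
    (hb0 : ∑ j, b j = 0)
    (hH : ∃ H : ℝ, ∀ x : F, (CI α c a : F) * ∏ j, (x - tt α β a e η j) = 1 →
      ∑ j, b j * Real.log ‖x - tt α β a e η j‖ = H) (k : Fin N) :
    ∑ j ∈ Finset.univ.filter (fun j => hypDet α ![k, j] = 0), b j = 0 := by
  obtain ⟨ρ, R, hρ, hR, hC, h1, h2⟩ := cpN hG hM hη
  obtain ⟨r, _, hMat⟩ := rts hG.hN hρ hC (tt α β a e η) b hH
  exact nap hMat hb0 hR (fun i j => hypDet α ![i, j] = 0) (par_equiv hG) h1 h2 k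

end Pool.Agent.ISF
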