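import Mathlib

/-! MODULE ISF-Glc (Mathlib only; values of a linear form at the complex roots).

PROOF. Let `d = natDegree π`, `l = leadingCoeff π`, and `r i`, `i : Fin d`, the complex roots with
multiplicity: `π(y) = l ∏ (y - r i)` over `ℂ` (see `fac_roots` in Pool/Agent/ISI/Fac.lean, copy it). Then
`l ∏ (A * r i - B) = ± A ^ d * π (B / A)` is an integer (homogenization: `fac_int` in the same file
does exactly this, with `B` replaced by `-B`), and not zero by `hAB`. So its absolute value is at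
least 1, and it is at most `|l| ε ^ d` by `hε`. -/

namespace Pool.Agent.ISF

open Polynomial

/-- the roots of a complex polynomial as a function on `Fin` -/
private theorem glc_roots (F : ℂ[X]) (hF : F ≠ 0) (D : ℕ) (hD : F.natDegree = D) :
    ∃ r : Fin D → ℂ,
      (∀ y, F.eval y = F.leadingCoeff * ∏ i, (y - r i)) ∧ ∀ i, F.eval (r i) = 0 := by
  subst hD
  have hs : F.roots.card = F.natDegree := IsAlgClosed.card_roots_eq_natDegree
  have hl : F.roots.toList.length = F.natDegree := by rw [Multiset.length_toList, hs]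
  have hp : F = C F.leadingCoeff * (F.roots.map fun a => X - C a).prod :=
    (C_leadingCoeff_mul_prod_multiset_X_sub_C hs).symm
  refine ⟨fun i => F.roots.toList.get (i.cast hl.symm), ?_, ?_⟩
  · intro y
    have h1 : F.roots = (Finset.univ : Finset (Fin F.natDegree)).val.map
        fun i => F.roots.toList.get (i.cast hl.symm) := by
      rw [Fin.univ_val_map]
      conv_lhs => rw [← Multiset.coe_toList F.roots]
      congr 1
      apply List.ext_get
      · rw [List.length_ofFn, hl]
      · intro n h1 h2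
        simp
    have h2 : (F.roots.map fun a => X - C a).prod =
        ∏ i : Fin F.natDegree, (X - C (F.roots.toList.get (i.cast hl.symm))) := by
      conv_lhs => rw [h1]
      rw [Multiset.map_map]
      rfl
    conv_lhs => rw [hp, h2]
    rw [eval_mul, eval_C, eval_prod]
    congr 1
    exact Finset.prod_congr rfl fun i _ => by simp
  · intro i
    have h1 : F.roots.toList.get (i.cast hl.symm) ∈ F.roots :=
      Multiset.mem_toList.1 (List.get_mem _ _)
    exact (mem_roots hF).1 h1

/-- the product of the values of a linear form at the roots -/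
private theorem glc_int (π : ℤ[X]) (A B : ℤ) (D : ℕ) (hD : π.natDegree = D) (r : Fin D → ℂ)
    (hr : ∀ y : ℂ, (π.map (Int.castRingHom ℂ)).eval y = (π.leadingCoeff : ℂ) * ∏ i, (y - r i)) :
    ∃ z : ℤ, (π.leadingCoeff : ℂ) * ∏ i, ((A : ℂ) * r i + B) = z := by
  by_cases hA : A = 0
  · subst hA
    refine ⟨π.leadingCoeff * B ^ D, ?_⟩
    simp
  · have hAc : (A : ℂ) ≠ 0 := by exact_mod_cast hA
    obtain ⟨z, b', hb', hz⟩ := denomsClearable_of_natDegree_le (i := Int.castRingHom ℂ) (b := A)
      (bi := (A : ℂ)⁻¹) D (-B) (by simpa using inv_mul_cancel₀ hAc) π hD.le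
    have hb : b' = (A : ℂ)⁻¹ := by
      rw [eq_intCast] at hb'
      exact eq_inv_of_mul_eq_one_left hb'
    rw [hb, hr] at hz
    simp only [eq_intCast, Int.cast_neg] at hz
    refine ⟨(-1) ^ D * z, ?_⟩
    push_cast
    rw [hz]
    have h1 : ∏ i, ((A : ℂ) * r i + B) = (-1) ^ D * ((A : ℂ) ^ D * ∏ i, (-(B : ℂ) * (A : ℂ)⁻¹ - r i)) := by
      have h2 : ∀ i, (A : ℂ) * r i + B = (-1) * ((A : ℂ) * (-(B : ℂ) * (A : ℂ)⁻¹ - r i)) := by
        intro i
        field_simp
        ring
      rw [Finset.prod_congr rfl fun i _ => h2 i, Finset.prod_mul_distrib, Finset.prod_mul_distrib]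
      simp
    rw [h1]
    ring

theorem glb_complex {π : ℤ[X]} (hd : 0 < π.natDegree) {A B : ℤ} (hA : A ≠ 0)
    (hAB : aeval ((B : ℚ) / A) π ≠ 0) {ε : ℝ}
    (hε : ∀ y : ℂ, aeval y π = 0 → ‖(A : ℂ) * y - B‖ ≤ ε) :
    1 ≤ |(π.leadingCoeff : ℝ)| * ε ^ π.natDegree := by
  have hπ0 : π ≠ 0 := by
    rintro rfl
    simp at hd
  set F : ℂ[X] := π.map (Int.castRingHom ℂ) with hF
  have hinj : Function.Injective (Int.castRingHom ℂ) := by
    intro a b h
    simpa using h
  have hFdeg : F.natDegree = π.natDegree := natDegree_map_eq_of_injective hinj π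
  have hFlead : F.leadingCoeff = (π.leadingCoeff : ℂ) := by
    rw [hF, leadingCoeff_map_of_injective hinj]
    simp
  have hF0 : F ≠ 0 := (Polynomial.map_ne_zero_iff hinj).2 hπ0
  obtain ⟨r, hr1, hr2⟩ := glc_roots F hF0 _ hFdeg
  rw [hFlead] at hr1
  have haev : ∀ y : ℂ, aeval y π = F.eval y := by
    intro y
    rw [aeval_def, hF, eval_map]
    rfl
  have hr3 : ∀ m, aeval (r m) π = 0 := fun m => by rw [haev, hr2]
  obtain ⟨z, hz⟩ := glc_int π A (-B) _ rfl r hr1
  have hAc : (A : ℂ) ≠ 0 := by exact_mod_cast hA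
  have hlz : π.leadingCoeff ≠ 0 := leadingCoeff_ne_zero.2 hπ0
  have hne : ∀ i, (A : ℂ) * r i + ((-B : ℤ) : ℂ) ≠ 0 := by
    intro i h
    apply hAB
    have h1 : r i = algebraMap ℚ ℂ ((B : ℚ) / A) := by
      rw [eq_ratCast]
      push_cast at h ⊢
      rw [eq_div_iff hAc]
      linear_combination h
    have h2 := hr3 i
    rw [h1, aeval_algebraMap_apply] at h2
    have h3 : ((aeval ((B : ℚ) / A) π : ℚ) : ℂ) = 0 := by
      rw [← eq_ratCast (algebraMap ℚ ℂ)]
      exact h2
    exact_mod_cast h3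
  have hz0 : z ≠ 0 := by
    rintro rfl
    rw [Int.cast_zero] at hz
    rcases mul_eq_zero.1 hz with h | h
    · exact hlz (by exact_mod_cast h)
    · obtain ⟨i, _, hi⟩ := Finset.prod_eq_zero_iff.1 h
      exact hne i hi
  have h1 : (1 : ℝ) ≤ ‖(z : ℂ)‖ := by
    rw [Complex.norm_intCast]
    exact_mod_cast Int.one_le_abs hz0
  rw [← hz, norm_mul, norm_prod, Complex.norm_intCast] at h1
  refine h1.trans (mul_le_mul_of_nonneg_left ?_ (abs_nonneg _))
  calc ∏ i, ‖(A : ℂ) * r i + ((-B : ℤ) : ℂ)‖ ≤ ∏ _i : Fin π.natDegree, ε := by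
        refine Finset.prod_le_prod (fun i _ => norm_nonneg _) fun i _ => ?_
        have h2 := hε (r i) (hr3 i)
        rw [Int.cast_neg, ← sub_eq_add_neg]
        exact h2
    _ = ε ^ π.natDegree := by
        rw [Finset.prod_const, Finset.card_univ, Fintype.card_fin]

end Pool.Agent.ISF
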