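import Mathlib

/-! MODULE ISF-Gln (Mathlib only; the leading coefficient and the p-adic roots).

PROOF. Let `d = natDegree π`, `l = leadingCoeff π`. It suffices that `l ^ n ∣ E ^ d` (both non zero;
`Int.le_of_dvd`, `Int.natAbs`...). For this it suffices that for every prime `p`
`‖(E ^ d : ℚ_[p])‖ ≤ ‖(l ^ n : ℚ_[p])‖` (valuations: `Padic.norm_int_le_pow_iff_dvd`,
`padicNorm`, `Nat.factorization_prime_le_iff_dvd` or similar).
Fix `p`; the norm of an integer in `PadicAlgCl p` is its norm in `ℚ_[p]` (`map_intCast`,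
`PadicAlgCl.norm_extends`). Over `PadicAlgCl p` (algebraically closed, ultrametric): `π = l ∏_{y} (X - y)` (roots
with multiplicity, `d` of them: `C_leadingCoeff_mul_prod_multiset_X_sub_C`,
`IsAlgClosed.card_roots_eq_natDegree`). CLAIM: for every multiset of `m` elements `y` with
`‖y‖ ^ n * ‖E‖ ≤ 1` all coefficients `a` of `∏ (X - y)` satisfy `‖a‖ ^ n * ‖E‖ ^ m ≤ 1` (induction on the
multiset: the coefficients of `(X - y) P` are `P_{k-1} - y P_k`, whose norm is at most the maximum of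
`‖P_{k-1}‖` and `‖y‖ ‖P_k‖`; `‖E‖ ≤ 1`). `π` is primitive (`Irreducible.isPrimitive`, `hd.ne'`), so some
coefficient `π_k` is not divisible by `p` (otherwise `C p ∣ π`, `IsPrimitive`), i.e. `‖π_k‖ = 1`. As
`π_k = l * a`, `1 = ‖l‖ ^ n ‖a‖ ^ n`, so `‖E‖ ^ d = ‖l‖ ^ n ‖a‖ ^ n ‖E‖ ^ d ≤ ‖l‖ ^ n`. -/

namespace Pool.Agent.ISF

open Polynomial

private theorem gln_sub_le {F : Type*} [NormedField F] [IsUltrametricDist F] (a b : F) :
    ‖a - b‖ ≤ max ‖a‖ ‖b‖ := by
  have h := IsUltrametricDist.norm_add_le_max a (-b)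
  rwa [norm_neg, ← sub_eq_add_neg] at h

private theorem gln_claim {F : Type*} [NormedField F] [IsUltrametricDist F] {e : ℝ} (he0 : 0 ≤ e)
    (he1 : e ≤ 1) {n : ℕ} (s : Multiset F) (hs : ∀ y ∈ s, ‖y‖ ^ n * e ≤ 1) :
    ∀ k : ℕ, ‖((s.map fun y => X - C y).prod).coeff k‖ ^ n * e ^ (Multiset.card s) ≤ 1 := by
  induction s using Multiset.induction_on with
  | empty =>
    intro k
    rw [Multiset.map_zero, Multiset.prod_zero, Multiset.card_zero, pow_zero, mul_one, coeff_one]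
    split_ifs
    · simp
    · rw [norm_zero]
      exact pow_le_one₀ le_rfl zero_le_one
  | cons y s ih =>
    intro k
    have ih' := ih fun z hz => hs z (Multiset.mem_cons_of_mem hz)
    have hy := hs y (Multiset.mem_cons_self y s)
    rw [Multiset.map_cons, Multiset.prod_cons, Multiset.card_cons]
    set Q : F[X] := (s.map fun y => X - C y).prod with hQ
    set m : ℕ := Multiset.card s with hm
    have hem : 0 ≤ e ^ m := pow_nonneg he0 m
    have h2 : ∀ j : ℕ, ‖y * Q.coeff j‖ ^ n * e ^ (m + 1) ≤ 1 := by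
      intro j
      have h3 : ‖y * Q.coeff j‖ ^ n * e ^ (m + 1) =
          (‖y‖ ^ n * e) * (‖Q.coeff j‖ ^ n * e ^ m) := by
        rw [norm_mul, mul_pow, pow_succ]
        ring
      rw [h3]
      exact mul_le_one₀ hy (mul_nonneg (pow_nonneg (norm_nonneg _) _) hem) (ih' j)
    rcases k with _ | k
    · have h4 : ((X - C y) * Q).coeff 0 = - (y * Q.coeff 0) := by
        rw [sub_mul, coeff_sub, coeff_C_mul, mul_coeff_zero, coeff_X_zero, zero_mul, zero_sub]
      rw [h4, norm_neg]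
      exact h2 0
    · have h4 : ((X - C y) * Q).coeff (k + 1) = Q.coeff k - y * Q.coeff (k + 1) := by
        rw [sub_mul, coeff_sub, coeff_C_mul, coeff_X_mul]
      rw [h4]
      have h5 := gln_sub_le (Q.coeff k) (y * Q.coeff (k + 1))
      rcases le_max_iff.1 h5 with h6 | h6
      · calc ‖Q.coeff k - y * Q.coeff (k + 1)‖ ^ n * e ^ (m + 1)
            ≤ ‖Q.coeff k‖ ^ n * e ^ (m + 1) := by
              refine mul_le_mul_of_nonneg_right ?_ (pow_nonneg he0 _)
              exact pow_le_pow_left₀ (norm_nonneg _) h6 n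
          _ = (‖Q.coeff k‖ ^ n * e ^ m) * e := by rw [pow_succ]; ring
          _ ≤ 1 := mul_le_one₀ (ih' k) he0 he1
      · calc ‖Q.coeff k - y * Q.coeff (k + 1)‖ ^ n * e ^ (m + 1)
            ≤ ‖y * Q.coeff (k + 1)‖ ^ n * e ^ (m + 1) := by
              refine mul_le_mul_of_nonneg_right ?_ (pow_nonneg he0 _)
              exact pow_le_pow_left₀ (norm_nonneg _) h6 n
          _ ≤ 1 := h2 (k + 1)

private theorem gln_norm (p : ℕ) [Fact p.Prime] (z : ℤ) :
    ‖(z : PadicAlgCl p)‖ = ‖(z : ℚ_[p])‖ := by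
  rw [← map_intCast (algebraMap ℚ_[p] (PadicAlgCl p)) z]
  exact PadicAlgCl.norm_extends p (z : ℚ_[p])

private theorem gln_coeff {π : ℤ[X]} (hπ : π.IsPrimitive) (p : ℕ) (hp : p.Prime) :
    ∃ k, ¬ (p : ℤ) ∣ π.coeff k := by
  by_contra h
  push Not at h
  have h1 : C (p : ℤ) ∣ π := (C_dvd_iff_dvd_coeff _ _).2 h
  have h2 := hπ _ h1
  have h3 : ¬ IsUnit (p : ℤ) := (Nat.prime_iff_prime_int.1 hp).not_unit
  exact h3 h2

private theorem gln_loc {π : ℤ[X]} (hπ : Irreducible π) (hd : 0 < π.natDegree) {E : ℤ}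
    {n : ℕ} (p : ℕ) [Fact p.Prime]
    (h : ∀ (y : PadicAlgCl p), aeval y π = 0 → ‖y‖ ^ n * ‖(E : PadicAlgCl p)‖ ≤ 1) :
    ‖((E ^ π.natDegree : ℤ) : ℚ_[p])‖ ≤ ‖((π.leadingCoeff ^ n : ℤ) : ℚ_[p])‖ := by
  have hp : p.Prime := Fact.out
  set P : (PadicAlgCl p)[X] := π.map (Int.castRingHom (PadicAlgCl p)) with hP
  have hinj : Function.Injective (Int.castRingHom (PadicAlgCl p)) := by
    intro a b hab
    exact Int.cast_injective hab
  have hdeg : P.natDegree = π.natDegree := natDegree_map_eq_of_injective hinj π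
  have hlc : P.leadingCoeff = (π.leadingCoeff : PadicAlgCl p) := by
    rw [hP, leadingCoeff_map_of_injective hinj]
    rfl
  have hcard : Multiset.card P.roots = P.natDegree := IsAlgClosed.card_roots_eq_natDegree
  have hprod := C_leadingCoeff_mul_prod_multiset_X_sub_C hcard
  have hE1 : ‖(E : PadicAlgCl p)‖ ≤ 1 := by
    rw [gln_norm]
    exact Padic.norm_int_le_one E
  have hroot : ∀ y ∈ P.roots, ‖y‖ ^ n * ‖(E : PadicAlgCl p)‖ ≤ 1 := by
    intro y hy
    apply h y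
    have h1 := (mem_roots'.1 hy).2
    rw [IsRoot.def, hP, eval_map] at h1
    have h2 : algebraMap ℤ (PadicAlgCl p) = Int.castRingHom (PadicAlgCl p) :=
      RingHom.ext_int _ _
    rw [aeval_def, h2]
    exact h1
  obtain ⟨k, hk⟩ := gln_coeff (hπ.isPrimitive hd.ne') p hp
  have hk1 : ‖((π.coeff k : ℤ) : ℚ_[p])‖ = 1 := by
    refine le_antisymm (Padic.norm_int_le_one _) ?_
    by_contra hlt
    exact hk (Padic.norm_intCast_lt_one_iff.1 (not_le.1 hlt))
  set a : PadicAlgCl p := ((P.roots.map fun y => X - C y).prod).coeff k with ha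
  have hka : ((π.coeff k : ℤ) : PadicAlgCl p) = (π.leadingCoeff : PadicAlgCl p) * a := by
    have h1 : P.coeff k = ((π.coeff k : ℤ) : PadicAlgCl p) := by
      rw [hP, coeff_map]
      rfl
    rw [← h1, ← hlc, ha, ← coeff_C_mul, hprod]
  have hcl := gln_claim (norm_nonneg (E : PadicAlgCl p)) hE1 P.roots hroot k
  rw [hcard, hdeg, ← ha] at hcl
  have h1 : (1 : ℝ) = ‖(π.leadingCoeff : PadicAlgCl p)‖ * ‖a‖ := by
    rw [← norm_mul, ← hka, gln_norm, hk1]
  have h2 : (1 : ℝ) = ‖(π.leadingCoeff : PadicAlgCl p)‖ ^ n * ‖a‖ ^ n := by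
    rw [← mul_pow, ← h1, one_pow]
  rw [← gln_norm, ← gln_norm, Int.cast_pow, Int.cast_pow, norm_pow, norm_pow]
  calc ‖(E : PadicAlgCl p)‖ ^ π.natDegree
      = (‖(π.leadingCoeff : PadicAlgCl p)‖ ^ n * ‖a‖ ^ n) * ‖(E : PadicAlgCl p)‖ ^ π.natDegree := by
        rw [← h2, one_mul]
    _ = ‖(π.leadingCoeff : PadicAlgCl p)‖ ^ n *
          (‖a‖ ^ n * ‖(E : PadicAlgCl p)‖ ^ π.natDegree) := by ring
    _ ≤ ‖(π.leadingCoeff : PadicAlgCl p)‖ ^ n * 1 :=
        mul_le_mul_of_nonneg_left hcl (pow_nonneg (norm_nonneg _) _)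
    _ = ‖(π.leadingCoeff : PadicAlgCl p)‖ ^ n := mul_one _

theorem glb_padic {π : ℤ[X]} (hπ : Irreducible π) (hd : 0 < π.natDegree) {E : ℤ} (hE : E ≠ 0)
    {n : ℕ} (hn : 0 < n)
    (h : ∀ (p : ℕ) [Fact p.Prime] (y : PadicAlgCl p), aeval y π = 0 →
      ‖y‖ ^ n * ‖(E : PadicAlgCl p)‖ ≤ 1) :
    |π.leadingCoeff| ^ n ≤ |E| ^ π.natDegree := by
  have _ := hn
  have hdvd : (π.leadingCoeff ^ n) ∣ E ^ π.natDegree := by
    rw [← Int.natAbs_dvd_natAbs, Nat.dvd_iff_prime_pow_dvd_dvd]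
    intro p k hp hk
    have : Fact p.Prime := ⟨hp⟩
    have h1 : ((p : ℤ) ^ k) ∣ π.leadingCoeff ^ n := by
      have := Int.natCast_dvd.2 hk
      rwa [Nat.cast_pow] at this
    have h2 := (Padic.norm_int_le_pow_iff_dvd (p := p) _ k).2 h1
    have h3 := (gln_loc (n := n) (E := E) hπ hd p (h p)).trans h2
    have h4 := (Padic.norm_int_le_pow_iff_dvd (p := p) _ k).1 h3
    apply Int.natCast_dvd.1
    rwa [Nat.cast_pow]
  rw [← abs_pow, ← abs_pow]
  exact Int.le_of_dvd (abs_pos.2 (pow_ne_zero _ hE)) ((abs_dvd_abs _ _).2 hdvd)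

end Pool.Agent.ISF
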