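import Mathlib
import Pool.Agent.ISF.Fib
import Pool.Agent.ISF.Mat

/-! Numerical inequalities for theorem II: the final contradiction `numB` and the bounds `numC`
needed for the lemmas of ISI. -/

namespace Pool.Agent.ISF

open Pool.Agent.Helper11 Pool.Agent.ISI Polynomial

variable {N : ℕ} {α : Fin N → Fin 2 → ℤ} {β : Fin N → ℤ} {c Δ : ℤ} {a : Fin 2 → ℤ} {e : ℤ}

private lemma one_add_exp_le {k : ℕ} (hk : 1 ≤ k) : 1 + Real.exp (k : ℝ) ≤ 10 ^ k := by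
  have h1 : Real.exp (k : ℝ) = Real.exp 1 ^ k := by
    rw [← Real.exp_nat_mul, mul_one]
  have h2 : Real.exp 1 ≤ 5 := by
    have := Real.exp_one_lt_d9
    linarith
  have h3 : Real.exp 1 ^ k ≤ 5 ^ k := pow_le_pow_left₀ (Real.exp_pos 1).le h2 k
  have h4 : (2 : ℝ) ≤ 2 ^ k := by
    calc (2 : ℝ) = 2 ^ 1 := by norm_num
      _ ≤ 2 ^ k := pow_le_pow_right₀ (by norm_num) hk
  have h5 : (1 : ℝ) ≤ 5 ^ k := one_le_pow₀ (by norm_num)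
  have h6 : (10 : ℝ) ^ k = 2 ^ k * 5 ^ k := by
    rw [← mul_pow]
    norm_num
  rw [h1, h6]
  nlinarith

private lemma XM_nonneg (N M : ℕ) : 0 ≤ XM N M := by
  unfold XM
  have := Real.exp_pos (11 * (N : ℝ))
  positivity

private lemma XM_le {N M : ℕ} (hN : 3 ≤ N) (hM : 1 ≤ M) :
    XM N M ≤ (10 * (M : ℝ)) ^ (30 * N) := by
  have hM' : (1 : ℝ) ≤ M := by exact_mod_cast hM
  have hT : (10 : ℝ) ≤ 10 * (M : ℝ) := by linarith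
  have hT1 : (1 : ℝ) ≤ 10 * (M : ℝ) := by linarith
  have hM8 : (0 : ℝ) ≤ (M : ℝ) ^ 8 := by positivity
  have h8 : (10 * (M : ℝ)) ^ 8 = 10 ^ 8 * (M : ℝ) ^ 8 := by ring
  have h1 : 16 * (M : ℝ) ^ 8 ≤ (10 * (M : ℝ)) ^ 8 := by
    rw [h8]
    nlinarith
  have h2 : 64 * (M : ℝ) ^ 8 ≤ (10 * (M : ℝ)) ^ 8 := by
    rw [h8]
    nlinarith
  have h3 : 1 + Real.exp (11 * (N : ℝ)) ≤ (10 * (M : ℝ)) ^ (11 * N) := by
    have h31 : 1 + Real.exp (((11 * N : ℕ) : ℝ)) ≤ 10 ^ (11 * N) :=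
      one_add_exp_le (by omega)
    have h32 : (((11 * N : ℕ) : ℝ)) = 11 * (N : ℝ) := by push_cast; ring
    rw [h32] at h31
    exact h31.trans (pow_le_pow_left₀ (by norm_num) hT _)
  have hexp : 0 ≤ 1 + Real.exp (11 * (N : ℝ)) := by
    have := Real.exp_pos (11 * (N : ℝ))
    linarith
  have h4 : XM N M ≤ (10 * (M : ℝ)) ^ 8 * ((10 * (M : ℝ)) ^ (11 * N)) ^ 2 *
      ((10 * (M : ℝ)) ^ 8) ^ (N - 2) := by
    unfold XM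
    refine mul_le_mul (mul_le_mul h1 (pow_le_pow_left₀ hexp h3 2) (pow_nonneg hexp 2)
      (by positivity)) (pow_le_pow_left₀ (by positivity) h2 _) (by positivity) (by positivity)
  refine h4.trans ?_
  have h5 : (10 * (M : ℝ)) ^ 8 * ((10 * (M : ℝ)) ^ (11 * N)) ^ 2 *
      ((10 * (M : ℝ)) ^ 8) ^ (N - 2) = (10 * (M : ℝ)) ^ (8 + 11 * N * 2 + 8 * (N - 2)) := by
    rw [← pow_mul, ← pow_mul, ← pow_add, ← pow_add]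
  rw [h5]
  exact pow_le_pow_right₀ hT1 (by omega)

private lemma abs_c_ge {M : ℕ} (hM : Gen α β c Δ a e M) :
    |(Δ : ℝ)| ^ 12 * (10 * (M : ℝ)) ^ (30 * N ^ 3) ≤ |(c : ℝ)| := by
  have h := hM.hc
  have h' : ((|Δ| ^ 12 * (10 * M : ℤ) ^ (30 * N ^ 3) : ℤ) : ℝ) ≤ ((|c| : ℤ) : ℝ) :=
    Int.cast_le.2 h
  push_cast at h'
  exact h'

private lemma one_le_Δ {M : ℕ} (hM : Gen α β c Δ a e M) : (1 : ℝ) ≤ |(Δ : ℝ)| := by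
  have h : (1 : ℤ) ≤ |Δ| := Int.one_le_abs hM.hΔ0
  have h' : ((1 : ℤ) : ℝ) ≤ ((|Δ| : ℤ) : ℝ) := Int.cast_le.2 h
  push_cast at h'
  exact h'

theorem numB {M : ℕ} (hM : Gen α β c Δ a e M)
    (h : |(c : ℝ)| ^ (N - 2) ≤ |(Δ : ℝ)| ^ (4 * N) * XM N M ^ N) : False := by
  have hN := hM.hN3
  have hM' : (1 : ℝ) ≤ M := by exact_mod_cast hM.hM
  have hT1 : (1 : ℝ) < 10 * (M : ℝ) := by linarith
  have hT0 : (0 : ℝ) ≤ 10 * (M : ℝ) := by linarith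
  have hD := one_le_Δ hM
  have hD0 : (0 : ℝ) < |(Δ : ℝ)| := lt_of_lt_of_le one_pos hD
  have h1 : XM N M ^ N ≤ (10 * (M : ℝ)) ^ (30 * N * N) := by
    rw [pow_mul]
    exact pow_le_pow_left₀ (XM_nonneg N M) (XM_le hN hM.hM) N
  have h2 : (|(Δ : ℝ)| ^ 12 * (10 * (M : ℝ)) ^ (30 * N ^ 3)) ^ (N - 2) ≤ |(c : ℝ)| ^ (N - 2) :=
    pow_le_pow_left₀ (by positivity) (abs_c_ge hM) _
  have h3 : |(Δ : ℝ)| ^ (4 * N) ≤ |(Δ : ℝ)| ^ (12 * (N - 2)) :=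
    pow_le_pow_right₀ hD (by omega)
  have h4 : (10 * (M : ℝ)) ^ (30 * N * N) < (10 * (M : ℝ)) ^ (30 * N ^ 3 * (N - 2)) := by
    refine pow_lt_pow_right₀ hT1 ?_
    obtain ⟨k, rfl⟩ : ∃ k, N = k + 3 := ⟨N - 3, by omega⟩
    have h41 : k + 3 - 2 = k + 1 := by omega
    rw [h41]
    nlinarith [Nat.zero_le k, sq_nonneg (k : ℤ), Nat.zero_le (k ^ 2), Nat.zero_le (k ^ 3),
      Nat.zero_le (k ^ 4)]
  have h5 : (|(Δ : ℝ)| ^ 12 * (10 * (M : ℝ)) ^ (30 * N ^ 3)) ^ (N - 2) =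
      |(Δ : ℝ)| ^ (12 * (N - 2)) * (10 * (M : ℝ)) ^ (30 * N ^ 3 * (N - 2)) := by
    rw [mul_pow, ← pow_mul, ← pow_mul]
  have h6 : |(Δ : ℝ)| ^ (4 * N) * XM N M ^ N <
      |(Δ : ℝ)| ^ (12 * (N - 2)) * (10 * (M : ℝ)) ^ (30 * N ^ 3 * (N - 2)) :=
    calc |(Δ : ℝ)| ^ (4 * N) * XM N M ^ N
        ≤ |(Δ : ℝ)| ^ (4 * N) * (10 * (M : ℝ)) ^ (30 * N * N) :=
          mul_le_mul_of_nonneg_left h1 (pow_nonneg hD0.le _)
      _ < |(Δ : ℝ)| ^ (4 * N) * (10 * (M : ℝ)) ^ (30 * N ^ 3 * (N - 2)) :=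
          mul_lt_mul_of_pos_left h4 (pow_pos hD0 _)
      _ ≤ |(Δ : ℝ)| ^ (12 * (N - 2)) * (10 * (M : ℝ)) ^ (30 * N ^ 3 * (N - 2)) :=
          mul_le_mul_of_nonneg_right h3 (pow_nonneg hT0 _)
  rw [h5] at h2
  linarith

theorem numC {M : ℕ} (hM : Gen α β c Δ a e M) : Bd α β c M (2 * M ^ 2) := by
  have hM1 := hM.hM
  refine ⟨hM1, ?_, hM.hα, hM.hβ, ?_⟩
  · have : 1 ≤ M ^ 2 := Nat.one_le_pow _ _ hM1
    omega
  · have hMz : (1 : ℤ) ≤ (M : ℤ) := by exact_mod_cast hM1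
    have h1 : (10 * (M : ℤ) * ((2 * M ^ 2 : ℕ) : ℤ)) = 20 * (M : ℤ) ^ 3 := by
      push_cast
      ring
    rw [h1]
    have h2 : (20 * (M : ℤ) ^ 3) ≤ (10 * (M : ℤ)) ^ 3 := by
      have h21 : (0 : ℤ) ≤ (M : ℤ) ^ 3 := by positivity
      have h22 : (10 * (M : ℤ)) ^ 3 = 1000 * (M : ℤ) ^ 3 := by ring
      rw [h22]
      linarith
    have h3 : (20 * (M : ℤ) ^ 3) ^ (10 * N ^ 3) ≤ ((10 * (M : ℤ)) ^ 3) ^ (10 * N ^ 3) :=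
      pow_le_pow_left₀ (by positivity) h2 _
    refine h3.trans ?_
    rw [← pow_mul]
    have h4 : 3 * (10 * N ^ 3) = 30 * N ^ 3 := by ring
    rw [h4]
    have h5 : (1 : ℤ) ≤ |Δ| ^ 12 := one_le_pow₀ (Int.one_le_abs hM.hΔ0)
    have h6 : (0 : ℤ) ≤ (10 * (M : ℤ)) ^ (30 * N ^ 3) := by positivity
    calc (10 * (M : ℤ)) ^ (30 * N ^ 3) = 1 * (10 * (M : ℤ)) ^ (30 * N ^ 3) := (one_mul _).symm
      _ ≤ |Δ| ^ 12 * (10 * (M : ℤ)) ^ (30 * N ^ 3) := mul_le_mul_of_nonneg_right h5 h6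
      _ ≤ |c| := hM.hc

end Pool.Agent.ISF
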