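import Mathlib
import Pool.Agent.ISF.EqN
import Pool.Agent.ISF.EqC
import Pool.Agent.ISF.Glc
import Pool.Agent.ISF.Gln
import Pool.Agent.ISF.NumB

/-! MODULE ISF-Eqe (all exponents are equal if `π` does not vanish at the intersection values).

PROOF. `N > 0`. Let `m = (∑ b)/N` and `b' j = b j - m`, `∑ b' = 0`. The hypotheses `hC`, `hP` hold for `b'`:
for `x` with `CI ∏ (x - t j) = 1` we have `∑ log ‖x - t j‖ = - log ‖CI‖` (norms; `CI ≠ 0` by
`CI_ne hG.hc hM.hdl`), so the sum for `b'` is `H + m log ‖CI‖`. Let `A = max |b' j|`. If `A = 0` done.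
Otherwise `A > 0`, attained at `l`. Let `y₀` be a complex root of `π` (`hπ.deg`,
`IsAlgClosed.exists_aeval_eq_zero` or via `degree`), and `p, q` from `eqC` for `y₀`.
CASE 1: for some prime `P` and root `y : PadicAlgCl P` of `π`, `1 < ‖y‖^N ‖Δ‖^(2N) ‖c‖`. `eqN` with `k = p`:
`b' p = - ∑_{j ≠ p, [pj] = 0} b' j` (`[pp] = 0`), and for these `j` we have `j ≠ q` (as `[pq] ≠ 0`), so
`|b' j| N^2 ≤ A`: `|b' p| ≤ (N - 1) A/N^2 < A/2` (`N ≥ 3`), contradiction to `A/2 ≤ |b' p|`.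
CASE 2: all p-adic roots satisfy `‖y‖^N ‖Δ^(2N) c‖ ≤ 1`. `glb_padic` with `n = N`, `E = Δ^(2N) c`:
`|lc|^N ≤ |Δ^(2N) c|^d`, `d = natDegree π`. For every complex root `y` let `p_y, q_y` be the pair from `eqC`: the
indices `k ≠ p, q` have `|b' k| ≤ A/N^2 < A/2`, so `{p_y, q_y} = {p, q}`; if the pair is interchanged,
`[qp] = -[pq]` and `d3 q p = - d3 p q` (`dt_eq`, `unfold d3`, ring), the norm is the same. So
`‖[pq] y - d3 p q‖ ≤ ε := sqrt (XM N M / |c|)` for all complex roots, and `glb_complex` (hypothesis from `hz p q`)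
gives `1 ≤ |lc| ε^d`. Then `1 ≤ |lc|^N ε^(d N) ≤ (|Δ|^(2N) |c| ε^N)^d`, so `1 ≤ |Δ|^(2N) |c| ε^N`
(`d > 0`); squaring `1 ≤ |Δ|^(4N) |c|^2 (XM/|c|)^N`, i.e. `|c|^(N-2) ≤ |Δ|^(4N) XM^N`: `numB`. -/

namespace Pool.Agent.ISF

open Pool.Agent.Helper11 Pool.Agent.ISI Polynomial

variable {N : ℕ} {α : Fin N → Fin 2 → ℤ} {β : Fin N → ℤ} {c Δ : ℤ} {a : Fin 2 → ℤ} {e : ℤ}

private theorem sum_log {N : ℕ} {F : Type} [NormedField F] (C : F) (t : Fin N → F) (x : F)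
    (h : C * ∏ j, (x - t j) = 1) : ∑ j, Real.log ‖x - t j‖ = - Real.log ‖C‖ := by
  have h0 : ∏ j, (x - t j) ≠ 0 := right_ne_zero_of_mul (a := C) (by rw [h]; exact one_ne_zero)
  have h1 : ∀ j ∈ Finset.univ, ‖x - t j‖ ≠ 0 := fun j hj =>
    norm_ne_zero_iff.2 (Finset.prod_ne_zero_iff.1 h0 j hj)
  rw [← Real.log_prod h1, ← norm_prod, eq_inv_of_mul_eq_one_right h, norm_inv, Real.log_inv]

private theorem shift {N : ℕ} {F : Type} [NormedField F] (C : F) (t : Fin N → F) (b : Fin N → ℝ)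
    (m : ℝ) (h : ∃ H : ℝ, ∀ x : F, C * ∏ j, (x - t j) = 1 →
      ∑ j, b j * Real.log ‖x - t j‖ = H) :
    ∃ H : ℝ, ∀ x : F, C * ∏ j, (x - t j) = 1 →
      ∑ j, (b j - m) * Real.log ‖x - t j‖ = H := by
  obtain ⟨H, hH⟩ := h
  refine ⟨H + m * Real.log ‖C‖, fun x hx => ?_⟩
  have e : ∑ j, (b j - m) * Real.log ‖x - t j‖ =
      ∑ j, b j * Real.log ‖x - t j‖ - m * ∑ j, Real.log ‖x - t j‖ := by
    rw [Finset.mul_sum, ← Finset.sum_sub_distrib]
    exact Finset.sum_congr rfl fun j _ => by ring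
  rw [e, hH x hx, sum_log C t x hx]
  ring

private theorem hyp_swap {N : ℕ} (α : Fin N → Fin 2 → ℤ) (i j : Fin N) :
    hypDet α ![j, i] = - hypDet α ![i, j] := by
  rw [dt_eq, dt_eq]
  ring

private theorem hyp_self {N : ℕ} (α : Fin N → Fin 2 → ℤ) (i : Fin N) :
    hypDet α ![i, i] = 0 := by
  rw [dt_eq]
  ring

private theorem d3_swap {N : ℕ} (α : Fin N → Fin 2 → ℤ) (β : Fin N → ℤ) (a : Fin 2 → ℤ) (e : ℤ)
    (i j : Fin N) : d3 α β a e j i = - d3 α β a e i j := by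
  unfold d3
  rw [hyp_swap α i j]
  ring

/-- the final computation with real numbers -/
private theorem fin_num {n d : ℕ} {l D c ε X : ℝ} (hn : 3 ≤ n) (hd : 0 < d) (hc : 0 < c)
    (hD : 0 ≤ D) (hX : 0 ≤ X) (hl : 0 ≤ l) (hε : 0 ≤ ε) (hε2 : ε ^ 2 = X / c)
    (h1 : 1 ≤ l * ε ^ d) (h2 : l ^ n ≤ (D ^ (2 * n) * c) ^ d) :
    c ^ (n - 2) ≤ D ^ (4 * n) * X ^ n := by
  have h3 : 1 ≤ (l * ε ^ d) ^ n := one_le_pow₀ h1
  have h4 : (l * ε ^ d) ^ n = l ^ n * (ε ^ n) ^ d := by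
    rw [mul_pow, ← pow_mul, ← pow_mul, mul_comm d n]
  have h5 : l ^ n * (ε ^ n) ^ d ≤ (D ^ (2 * n) * c) ^ d * (ε ^ n) ^ d :=
    mul_le_mul_of_nonneg_right h2 (by positivity)
  rw [← mul_pow] at h5
  have h6 : 1 ≤ (D ^ (2 * n) * c * ε ^ n) ^ d := by
    rw [h4] at h3
    exact h3.trans h5
  have h7 : 1 ≤ D ^ (2 * n) * c * ε ^ n := by
    by_contra hcon
    exact absurd h6 (not_le.2 (pow_lt_one₀ (by positivity) (not_le.1 hcon) hd.ne'))
  have h8 : 1 ≤ (D ^ (2 * n) * c * ε ^ n) ^ 2 := one_le_pow₀ h7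
  have h9 : (D ^ (2 * n) * c * ε ^ n) ^ 2 = D ^ (4 * n) * c ^ 2 * (ε ^ 2) ^ n := by
    have e1 : D ^ (4 * n) = (D ^ (2 * n)) ^ 2 := by
      rw [← pow_mul]
      congr 1
      ring
    have e2 : (ε ^ 2) ^ n = (ε ^ n) ^ 2 := by rw [← pow_mul, ← pow_mul, mul_comm]
    rw [e1, e2, mul_pow, mul_pow]
  rw [h9, hε2, div_pow] at h8
  have h10 : c ^ n = c ^ (n - 2) * c ^ 2 := by
    rw [← pow_add]
    congr 1
    omega
  have h11 : D ^ (4 * n) * c ^ 2 * (X ^ n / c ^ n) = D ^ (4 * n) * X ^ n / c ^ (n - 2) := by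
    rw [h10]
    field_simp
  rw [h11, le_div_iff₀ (by positivity), one_mul] at h8
  exact h8

theorem eqe (hG : Good α β c) {M : ℕ} (hM : Gen α β c Δ a e M) {Λ : ℕ} {π : ℤ[X]}
    (hπ : Irr Λ π)
    (hz : ∀ i j, hypDet α ![i, j] ≠ 0 →
      aeval ((d3 α β a e i j : ℚ) / (hypDet α ![i, j] : ℤ)) π ≠ 0)
    (b : Fin N → ℝ)
    (hC : ∀ y : ℂ, aeval y π = 0 → ∃ H : ℝ, ∀ x : ℂ,
      (CI α c a : ℂ) * ∏ j, (x - tt α β a e y j) = 1 →
      ∑ j, b j * Real.log ‖x - tt α β a e y j‖ = H)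
    (hP : ∀ (p : ℕ) [Fact p.Prime] (y : PadicAlgCl p), aeval y π = 0 → ∃ H : ℝ,
      ∀ x : PadicAlgCl p, (CI α c a : PadicAlgCl p) * ∏ j, (x - tt α β a e y j) = 1 →
      ∑ j, b j * Real.log ‖x - tt α β a e y j‖ = H) (i j : Fin N) : b i = b j := by
  classical
  have hN : 0 < N := lt_of_lt_of_le (by norm_num) hM.hN3
  have hN3 : (3 : ℝ) ≤ (N : ℝ) := by exact_mod_cast hM.hN3
  have hNR : (0 : ℝ) < (N : ℝ) := by linarith
  set m : ℝ := (∑ j, b j) / N with hm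
  have hb0 : ∑ j, (b j - m) = 0 := by
    rw [Finset.sum_sub_distrib, Finset.sum_const, Finset.card_univ, Fintype.card_fin,
      nsmul_eq_mul, hm]
    field_simp
    ring
  suffices hall : ∀ j, b j - m = 0 by
    have h1 := hall i
    have h2 := hall j
    linarith
  have hC' := fun (y : ℂ) (hy : aeval y π = 0) => shift _ _ b m (hC y hy)
  have : Nonempty (Fin N) := ⟨⟨0, hN⟩⟩
  obtain ⟨l, hl⟩ := Finite.exists_max fun j => |b j - m|
  set A : ℝ := |b l - m| with hAdef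
  rcases (abs_nonneg (b l - m)).eq_or_lt with h0 | hA0
  · intro k
    have h1 := hl k
    rw [hAdef, ← h0] at h1
    exact abs_eq_zero.1 (le_antisymm h1 (abs_nonneg _))
  exfalso
  rw [← hAdef] at hA0
  have hdeg : π.degree ≠ 0 := by
    intro h
    have h1 := hπ.deg
    rw [natDegree_eq_of_degree_eq_some h] at h1
    exact lt_irrefl _ h1
  obtain ⟨y₀, hy₀⟩ := IsAlgClosed.exists_aeval_eq_zero ℂ π hdeg
  obtain ⟨p, q, hpq, hdet, hp, hq, hrest, -⟩ :=
    eqC hG hM y₀ (fun j => b j - m) hb0 (hC' y₀ hy₀) hA0 hl rfl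
  by_cases hcase : ∃ (P : ℕ) (_ : Fact P.Prime) (y : PadicAlgCl P), aeval y π = 0 ∧
      1 < ‖y‖ ^ N * ‖(Δ : PadicAlgCl P)‖ ^ (2 * N) * ‖(c : PadicAlgCl P)‖
  · obtain ⟨P, hP1, y, hy, hlt⟩ := hcase
    have h1 := eqN hG hM hlt (fun j => b j - m) hb0 (shift _ _ b m (hP P y hy)) p
    have hpm : p ∈ Finset.univ.filter (fun j => hypDet α ![p, j] = 0) :=
      Finset.mem_filter.2 ⟨Finset.mem_univ _, hyp_self α p⟩
    rw [← Finset.add_sum_erase _ _ hpm] at h1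
    have h2 : |∑ j ∈ (Finset.univ.filter (fun j => hypDet α ![p, j] = 0)).erase p, (b j - m)| ≤
        ∑ j ∈ (Finset.univ.filter (fun j => hypDet α ![p, j] = 0)).erase p, A / (N : ℝ) ^ 2 := by
      refine (Finset.abs_sum_le_sum_abs _ _).trans (Finset.sum_le_sum fun j hj => ?_)
      obtain ⟨hj1, hj2⟩ := Finset.mem_erase.1 hj
      have hj3 := (Finset.mem_filter.1 hj2).2
      have hjq : j ≠ q := fun h => hdet (h ▸ hj3)
      rw [le_div_iff₀ (by positivity)]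
      exact hrest j hj1 hjq
    have h3 : ((Finset.univ.filter (fun j => hypDet α ![p, j] = 0)).erase p).card ≤ N - 1 := by
      rw [Finset.card_erase_of_mem hpm]
      have h4 := Finset.card_filter_le (Finset.univ : Finset (Fin N))
        (fun j => hypDet α ![p, j] = 0)
      rw [Finset.card_univ, Fintype.card_fin] at h4
      omega
    have h5 : (((Finset.univ.filter (fun j => hypDet α ![p, j] = 0)).erase p).card : ℝ) ≤
        (N : ℝ) - 1 := by
      have h6 : ((((Finset.univ.filter (fun j => hypDet α ![p, j] = 0)).erase p).card : ℕ) : ℝ) ≤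
        ((N - 1 : ℕ) : ℝ) := by exact_mod_cast h3
      rwa [Nat.cast_sub hN, Nat.cast_one] at h6
    rw [Finset.sum_const, nsmul_eq_mul] at h2
    have h7 : |b p - m| ≤ ((N : ℝ) - 1) * (A / (N : ℝ) ^ 2) := by
      have h8 : b p - m = -∑ j ∈ (Finset.univ.filter (fun j => hypDet α ![p, j] = 0)).erase p,
          (b j - m) := by linarith
      rw [h8, abs_neg]
      exact h2.trans (mul_le_mul_of_nonneg_right h5 (by positivity))
    have h9 : ((N : ℝ) - 1) * (A / (N : ℝ) ^ 2) < A / 2 := by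
      rw [mul_div_assoc', div_lt_div_iff₀ (by positivity) (by norm_num)]
      nlinarith [mul_pos hA0 (by nlinarith : (0 : ℝ) < (N : ℝ) ^ 2 - 2 * N + 2)]
    have hp' : A / 2 ≤ |b p - m| := hp
    linarith
  · push Not at hcase
    have hc0 : c ≠ 0 := hG.hc
    have hcR : (0 : ℝ) < |(c : ℝ)| := abs_pos.2 (Int.cast_ne_zero.2 hc0)
    have hE : Δ ^ (2 * N) * c ≠ 0 := mul_ne_zero (pow_ne_zero _ hM.hΔ0) hc0
    have h1 := glb_padic hπ.irr hπ.deg hE hN (fun P hP1 y hy => by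
      have h2 := hcase P hP1 y hy
      rwa [Int.cast_mul, Int.cast_pow, norm_mul, norm_pow, ← mul_assoc])
    have hXM : 0 ≤ XM N M := by
      unfold XM
      positivity
    have hN2 : (9 : ℝ) ≤ (N : ℝ) ^ 2 := by nlinarith
    have hclose : ∀ y : ℂ, aeval y π = 0 →
        ‖(hypDet α ![p, q] : ℂ) * y - (d3 α β a e p q : ℂ)‖ ^ 2 * |(c : ℝ)| ≤ XM N M := by
      intro y hy
      obtain ⟨p', q', hpq', hdet', hp', hq', hrest', hn'⟩ :=
        eqC hG hM y (fun j => b j - m) hb0 (hC' y hy) hA0 hl rfl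
      have hbig : ∀ k : Fin N, A / 2 ≤ |b k - m| → k = p' ∨ k = q' := fun k hk => by
        by_contra hcon
        push Not at hcon
        have h3 : |b k - m| * (N : ℝ) ^ 2 ≤ A := hrest' k hcon.1 hcon.2
        have h4 : A / 2 * (N : ℝ) ^ 2 ≤ |b k - m| * (N : ℝ) ^ 2 :=
          mul_le_mul_of_nonneg_right hk (by positivity)
        nlinarith
      rcases hbig p hp with hpp | hpp
      · rcases hbig q hq with hqq | hqq
        · exact absurd (hpp.trans hqq.symm) hpq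
        · rw [hpp, hqq]; exact hn'
      · rcases hbig q hq with hqq | hqq
        · rw [hpp, hqq, hyp_swap α p' q', d3_swap α β a e p' q']
          have h5 : ((-hypDet α ![p', q'] : ℤ) : ℂ) * y - ((-d3 α β a e p' q' : ℤ) : ℂ) =
              -((hypDet α ![p', q'] : ℂ) * y - (d3 α β a e p' q' : ℂ)) := by
            push_cast
            ring
          rw [h5, norm_neg]
          exact hn'
        · exact absurd (hpp.trans hqq.symm) hpq
    have hε2 : Real.sqrt (XM N M / |(c : ℝ)|) ^ 2 = XM N M / |(c : ℝ)| :=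
      Real.sq_sqrt (div_nonneg hXM hcR.le)
    have h2 := glb_complex hπ.deg hdet (hz p q hdet) (ε := Real.sqrt (XM N M / |(c : ℝ)|))
      (fun y hy => Real.le_sqrt_of_sq_le (by
        rw [le_div_iff₀ hcR]
        exact hclose y hy))
    have h3 : |(π.leadingCoeff : ℝ)| ^ N ≤
        (|(Δ : ℝ)| ^ (2 * N) * |(c : ℝ)|) ^ π.natDegree := by
      have h4 : ((|π.leadingCoeff| ^ N : ℤ) : ℝ) ≤ ((|Δ ^ (2 * N) * c| ^ π.natDegree : ℤ) : ℝ) := by
        exact_mod_cast h1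
      rw [abs_mul, abs_pow] at h4
      push_cast at h4
      exact h4
    exact numB hM (fin_num hM.hN3 hπ.deg hcR (abs_nonneg _) hXM (abs_nonneg _)
      (Real.sqrt_nonneg _) hε2 h2 h3)

end Pool.Agent.ISF
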