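import Mathlib
import Pool.Agent.ISF.Fib

/-! The absolute value of a unit on a fibre (after ISI/Hgt.lean of helper40). -/

namespace Pool.Agent.ISF

open Pool.Agent.Helper11 Pool.Agent.ISI Polynomial

variable {N : ℕ} {α : Fin N → Fin 2 → ℤ} {β : Fin N → ℤ} {c : ℤ} {a : Fin 2 → ℤ} {e : ℤ}
variable {F : Type} [NormedField F] [CharZero F]

/-- the logarithm of the absolute value of a unit -/
private noncomputable def hgtLg {A : Type*} [CommRing A] (φ : A →+* F) :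
    Aˣ →* Multiplicative ℝ where
  toFun u := Multiplicative.ofAdd (Real.log ‖φ (u : A)‖)
  map_one' := by
    rw [Units.val_one, map_one, norm_one, Real.log_one]
    rfl
  map_mul' u v := by
    have hu : φ (u : A) ≠ 0 := (u.isUnit.map φ).ne_zero
    have hv : φ (v : A) ≠ 0 := (v.isUnit.map φ).ne_zero
    rw [Units.val_mul, map_mul, norm_mul, Real.log_mul (norm_ne_zero_iff.2 hu)
      (norm_ne_zero_iff.2 hv), ofAdd_add]

omit [CharZero F] in
private lemma hgtLg_apply {A : Type*} [CommRing A] (φ : A →+* F) (u : Aˣ) :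
    (hgtLg φ u).toAdd = Real.log ‖φ (u : A)‖ := rfl

private lemma hgt_key (ha : a ≠ 0) (hdl : ∀ j, dl α a j ≠ 0) {η : F}
    (w : (HypRingQ (n := 1) α β c)ˣ) {n : ℕ} (q : ℚˣ)
    (e' : Fin N → ℤ) (hw : w ^ n = cstA α β c q * ∏ j, crvU α β c j ^ e' j) {x : F}
    (hx : (CI α c a : F) * ∏ j, (x - tt α β a e η j) = 1) :
    ∃ φ : HypRingQ (n := 1) α β c →+* F, φ (affFun α β c a e) = η ∧
      (n : ℝ) * Real.log ‖φ w‖ = Real.log ‖((q : ℚ) : F)‖ +
        ∑ j, (e' j : ℝ) * Real.log ‖(dl α a j : F)‖ +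
        ∑ j, (e' j : ℝ) * Real.log ‖x - tt α β a e η j‖ := by
  obtain ⟨φ, hφ⟩ := exists_hom_of_root hdl η x hx
  refine ⟨φ, ?_, ?_⟩
  · rw [hφ, av_ptt ha]
  · have h1 := congrArg (fun u => (hgtLg φ u).toAdd) hw
    simp only [map_pow, map_mul, map_prod, map_zpow, toAdd_pow, toAdd_mul, toAdd_prod,
      toAdd_zpow, hgtLg_apply, nsmul_eq_mul, zsmul_eq_mul] at h1
    have h2 : φ (cstA α β c q : HypRingQ (n := 1) α β c) = ((q : ℚ) : F) := by
      rw [cstA_val]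
      exact eq_ratCast ((φ.comp (qmk α β c)).comp MvPolynomial.C) (q : ℚ)
    have h3 : ∀ j, Real.log ‖φ (crvU α β c j : HypRingQ (n := 1) α β c)‖ =
        Real.log ‖(dl α a j : F)‖ + Real.log ‖x - tt α β a e η j‖ := by
      intro j
      have h4 : φ (crvU α β c j : HypRingQ (n := 1) α β c) =
          av (α j) (β j) (ptt a e η x) := by
        rw [crvU_val, lf_eq, hφ]
      have h5 : φ (crvU α β c j : HypRingQ (n := 1) α β c) ≠ 0 :=
        ((crvU α β c j).isUnit.map φ).ne_zero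
      rw [h4] at h5 ⊢
      rw [av_ptt_j η x (hdl j)] at h5 ⊢
      rw [norm_mul, Real.log_mul (norm_ne_zero_iff.2 (left_ne_zero_of_mul h5))
        (norm_ne_zero_iff.2 (right_ne_zero_of_mul h5))]
    rw [h2] at h1
    simp only [h3, mul_add, Finset.sum_add_distrib] at h1
    rw [h1, add_assoc]

theorem hgt_const (ha : a ≠ 0) (hdl : ∀ j, dl α a j ≠ 0) {η : F}
    (w : (HypRingQ (n := 1) α β c)ˣ) {n : ℕ} (q : ℚˣ)
    (e' : Fin N → ℤ) (hw : w ^ n = cstA α β c q * ∏ j, crvU α β c j ^ e' j)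
    (hH : ∀ φ φ' : HypRingQ (n := 1) α β c →+* F, φ (affFun α β c a e) = η →
      φ' (affFun α β c a e) = η → ‖φ w‖ = ‖φ' w‖) :
    ∃ H : ℝ, ∀ x : F, (CI α c a : F) * ∏ j, (x - tt α β a e η j) = 1 →
      ∑ j, (e' j : ℝ) * Real.log ‖x - tt α β a e η j‖ = H := by
  by_cases hex : ∃ x0 : F, (CI α c a : F) * ∏ j, (x0 - tt α β a e η j) = 1
  · obtain ⟨x0, hx0⟩ := hex
    obtain ⟨φ0, h1, h2⟩ := hgt_key ha hdl w q e' hw hx0
    refine ⟨∑ j, (e' j : ℝ) * Real.log ‖x0 - tt α β a e η j‖, fun x hx => ?_⟩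
    obtain ⟨φ, h3, h4⟩ := hgt_key ha hdl w q e' hw hx
    have h5 := hH φ φ0 h3 h1
    rw [h5] at h4
    linarith
  · exact ⟨0, fun x hx => (hex ⟨x, hx⟩).elim⟩

end Pool.Agent.ISF
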