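import Mathlib
import Pool.Agent.ISI.Red2
import Pool.Agent.ISI.Glp
import Pool.Agent.ISF.Hgt
import Pool.Agent.ISF.Eqe

/-! Reduction of the symbols of the values at `x` of an irreducible polynomial, without a bound on
its leading coefficient, and of a unit whose absolute value is constant on the fibres over the
roots. Either the polynomial vanishes at an intersection value and is small (`red2`), or all the
exponents of the unit are equal (`eqe`) and the unit is a constant up to torsion. -/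

namespace Pool.Agent.ISF

open Pool.Agent.Helper11 Pool.Agent.ISI Polynomial

variable {N : ℕ} {α : Fin N → Fin 2 → ℤ} {β : Fin N → ℤ} {c Δ : ℤ} {a : Fin 2 → ℤ} {e : ℤ}

private lemma rf_pow {K : Type} [Field K] [CharZero K] [Algebra (HypRingQ (n := 1) α β c) K]
    {w : (HypRingQ (n := 1) α β c)ˣ} {n : ℕ} {q : ℚˣ} {e' : Fin N → ℤ}
    (hw : w ^ n = cstA α β c q * ∏ j, crvU α β c j ^ e' j) :
    (uK α β c K w) ^ n = cst K q * ∏ j, LK α β c K j ^ e' j := by
  have h := congrArg (Units.map (algebraMap (HypRingQ (n := 1) α β c) K :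
    HypRingQ (n := 1) α β c →* K)) hw
  rw [map_pow, map_mul, map_prod, map_cstA] at h
  refine h.trans ?_
  congr 1
  refine Finset.prod_congr rfl fun i _ => ?_
  rw [map_zpow]
  rfl

private lemma rf_rel {K : Type} [Field K] [CharZero K] [Algebra (HypRingQ (n := 1) α β c) K]
    (hc : c ≠ 0) : ∃ qc : ℚˣ, cst K qc * ∏ j, LK α β c K j = 1 := by
  have hc' : (c : ℚ) ≠ 0 := by exact_mod_cast hc
  refine ⟨Units.mk0 (c : ℚ) hc', ?_⟩
  apply Units.ext
  have h2 := congrArg (algebraMap (HypRingQ (n := 1) α β c) K)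
    (crv_rel (α := α) (β := β) (c := c))
  rw [map_mul, map_prod, map_one, map_intCast] at h2
  rw [Units.val_mul, Units.coe_prod, cst_val, Units.val_mk0, Rat.cast_intCast, Units.val_one]
  exact h2

/-- the leading coefficient of an irreducible polynomial with a rational root `B / A` -/
private lemma rf_lead {π : ℤ[X]} (hπ : Irreducible π) (hd : 0 < π.natDegree) {A B : ℤ} {r : ℚ}
    (hr : r ≠ 0) (hA : A ≠ 0)
    (h : π.map (Int.castRingHom ℚ) = C r * (C (A : ℚ) * X + C (B : ℚ))) :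
    π.leadingCoeff ∣ A := by
  have hinj : Function.Injective (Int.castRingHom ℚ) := RingHom.injective_int _
  have hAq : (A : ℚ) ≠ 0 := Int.cast_ne_zero.2 hA
  have h1 : (π.map (Int.castRingHom ℚ)).natDegree = 1 := by
    rw [h, natDegree_C_mul hr, natDegree_linear hAq]
  have hdeg : π.natDegree = 1 := by
    rw [← h1, natDegree_map_eq_of_injective hinj]
  have heq := eq_X_add_C_of_natDegree_le_one hdeg.le
  have hlc : π.leadingCoeff = π.coeff 1 := by rw [leadingCoeff, hdeg]
  set l := π.coeff 1 with hl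
  set m := π.coeff 0 with hm
  have hcl : (l : ℚ) = r * A := by
    have h2 := congrArg (fun p : ℚ[X] => p.coeff 1) h
    simp only [coeff_map, coeff_C_mul, coeff_add, coeff_X_one, mul_one] at h2
    rw [coeff_C_succ, add_zero] at h2
    exact h2
  have hcm : (m : ℚ) = r * B := by
    have h2 := congrArg (fun p : ℚ[X] => p.coeff 0) h
    simp only [coeff_map, coeff_C_mul, coeff_add, coeff_X_zero, mul_zero, zero_add,
      coeff_C_zero] at h2
    exact h2
  have hrel : l * B = m * A := by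
    have h3 : (l : ℚ) * B = m * A := by rw [hcl, hcm]; ring
    exact_mod_cast h3
  have hcop : IsCoprime l m := by
    have hprim := hπ.isPrimitive hd.ne'
    rw [Int.isCoprime_iff_gcd_eq_one]
    have hdv : C ((Int.gcd l m : ℕ) : ℤ) ∣ π := by
      rw [heq]
      exact dvd_add (Dvd.dvd.mul_right (_root_.map_dvd C (Int.gcd_dvd_left ..)) X)
        (_root_.map_dvd C (Int.gcd_dvd_right ..))
    have h4 := hprim _ hdv
    have h5 := Int.isUnit_iff_natAbs_eq.1 h4
    simpa using h5
  rw [hlc]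
  have h6 : l ∣ m * A := ⟨B, hrel.symm⟩
  exact hcop.dvd_of_dvd_mul_left h6

theorem redf (hG : Good α β c) {M : ℕ} (hM : Gen α β c Δ a e M) {Λ : ℕ} {π : ℤ[X]}
    (hπ : Irr Λ π) (w : (HypRingQ (n := 1) α β c)ˣ)
    (hC : ∀ φ φ' : HypRingQ (n := 1) α β c →+* ℂ,
      φ (affFun α β c a e) = φ' (affFun α β c a e) → aeval (φ (affFun α β c a e)) π = 0 →
      ‖φ w‖ = ‖φ' w‖)
    (hP : ∀ (p : ℕ) [Fact p.Prime] (φ φ' : HypRingQ (n := 1) α β c →+* PadicAlgCl p),
      φ (affFun α β c a e) = φ' (affFun α β c a e) → aeval (φ (affFun α β c a e)) π = 0 →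
      ‖φ w‖ = ‖φ' w‖)
    (K : Type) [Field K] [CharZero K] [Algebra (HypRingQ (n := 1) α β c) K]
    [IsFractionRing (HypRingQ (n := 1) α β c) K] :
    sy (pz (xK α β c K a e) π) (uK α β c K w) ∈ LP (xK α β c K a e) ⊔ US α β c K := by
  have hx : Transcendental ℚ (xK α β c K a e) := transc hG hM.hF.ha K
  by_cases hz : ∃ i j, hypDet α ![i, j] ≠ 0 ∧
      aeval ((d3 α β a e i j : ℚ) / (hypDet α ![i, j] : ℤ)) π = 0
  · obtain ⟨i, j, hA, hroot⟩ := hz
    have hAc : ((hypDet α ![i, j] : ℤ) : ℂ) ≠ 0 := Int.cast_ne_zero.2 hA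
    have hη : aeval (((d3 α β a e i j : ℤ) : ℂ) / ((hypDet α ![i, j] : ℤ) : ℂ)) π = 0 := by
      have h1 : ((d3 α β a e i j : ℤ) : ℂ) / ((hypDet α ![i, j] : ℤ) : ℂ) =
          algebraMap ℚ ℂ ((d3 α β a e i j : ℚ) / (hypDet α ![i, j] : ℤ)) := by
        rw [map_div₀, map_intCast, map_intCast]
      rw [h1, aeval_algebraMap_apply, hroot, map_zero]
    obtain ⟨-, r, hr, h5⟩ := lin_of_zero π hπ.irr hπ.deg (A := hypDet α ![i, j])
      (B := -d3 α β a e i j) (Or.inl hA) hη (by
        push_cast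
        field_simp
        ring)
    have hdvd := rf_lead hπ.irr hπ.deg hr hA h5
    have hle : π.leadingCoeff ≤ |hypDet α ![i, j]| :=
      Int.le_of_dvd (abs_pos.2 hA) ((dvd_abs _ _).2 hdvd)
    have hbd : |hypDet α ![i, j]| ≤ 2 * (M : ℤ) ^ 2 := by
      rw [dt_eq]
      have hmul : ∀ x y : ℤ, |x| ≤ M → |y| ≤ M → |x * y| ≤ (M : ℤ) ^ 2 := by
        intro x y h1 h2
        rw [abs_mul, sq]
        exact mul_le_mul h1 h2 (abs_nonneg _) ((abs_nonneg _).trans h1)
      have h1 := hmul _ _ (hM.hα i 0) (hM.hα j 1)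
      have h2 := hmul _ _ (hM.hα i 1) (hM.hα j 0)
      have h3 := abs_sub (α i 0 * α j 1) (α i 1 * α j 0)
      linarith
    have hπ' : Irr (2 * M ^ 2) π := by
      refine ⟨hπ.irr, hπ.deg, hπ.pos, ?_⟩
      push_cast
      exact hle.trans hbd
    have h6 := red2 hG (numC hM) hM.hF hπ' w hC K
    exact (sup_le_sup_right (LG_le_LP hx hM.hF.ha _) _) h6
  · push Not at hz
    obtain ⟨n, hn, q, e', hw⟩ := units_of_curve hG.hrk hG.hgp hG.hN hG.hc w
    have hwK := rf_pow (K := K) hw
    have heq : ∀ i j, (e' i : ℝ) = (e' j : ℝ) := by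
      intro i j
      refine eqe hG hM hπ hz (fun j => (e' j : ℝ)) ?_ ?_ i j
      · intro y hy
        exact hgt_const hM.hF.ha hM.hdl w q e' hw (fun φ φ' h h' =>
          hC φ φ' (h.trans h'.symm) (by rw [h]; exact hy))
      · intro p _ y hy
        exact hgt_const hM.hF.ha hM.hdl w q e' hw (fun φ φ' h h' =>
          hP p φ φ' (h.trans h'.symm) (by rw [h]; exact hy))
    set j0 : Fin N := ⟨0, hG.hN⟩ with hj0
    have heq' : ∀ j, e' j = e' j0 := fun j => by exact_mod_cast heq j j0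
    obtain ⟨qc, hqc⟩ := rf_rel (α := α) (β := β) (K := K) hG.hc
    have hprod : ∏ j, LK α β c K j = cst K qc⁻¹ := by
      rw [cst_inv]
      exact eq_inv_of_mul_eq_one_right hqc
    have hfin : (uK α β c K w) ^ n = cst K (q * (qc⁻¹) ^ e' j0) := by
      rw [hwK, cst_mul, cst_zpow, ← hprod]
      congr 1
      rw [← Finset.prod_zpow]
      exact Finset.prod_congr rfl fun j _ => by rw [heq' j]
    have hn0 : (n : ℚ) ≠ 0 := by exact_mod_cast hn
    have h1 : (n : ℚ) • sy (pz (xK α β c K a e) π) (uK α β c K w) ∈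
        LP (xK α β c K a e) := by
      have h2 := sy_zpow_right (pz (xK α β c K a e) π) (uK α β c K w) (n : ℤ)
      rw [zpow_natCast, hfin, Int.cast_natCast] at h2
      rw [← h2, ← pq_C hx]
      exact Submodule.subset_span ⟨_, _, map_ne hπ.irr.ne_zero, C_ne_zero.2 (Units.ne_zero _), rfl⟩
    exact Submodule.mem_sup_left ((Submodule.smul_mem_iff _ hn0).1 h1)

end Pool.Agent.ISF
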