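import Mathlib
import Pool.Agent.ISI.MilC
import Pool.Agent.ISF.Norm
import Pool.Agent.ISF.Redf
import Pool.Agent.ISF.Expf

/-! ISF-Fin (helper69): the main theorem. -/

namespace Pool.Agent.ISF

open Pool.Agent.Helper11 Pool.Agent.ISI Polynomial

variable {N : ℕ} {α : Fin N → Fin 2 → ℤ} {β : Fin N → ℤ} {c Δ : ℤ} {a : Fin 2 → ℤ} {e : ℤ}

/-- an integral sum of a unit symbol and a symbol of polynomials in `x` is a unit symbol -/
theorem LP_zero (hG : Good α β c) (ha : a ≠ 0) (hdl : ∀ j, dl α a j ≠ 0)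
    {K : Type} [Field K] [CharZero K] [Algebra (HypRingQ (n := 1) α β c) K]
    [IsFractionRing (HypRingQ (n := 1) α β c) K]
    {ω g : KMQ K 2} (hω : ω ∈ US α β c K) (hg : g ∈ LP (xK α β c K a e))
    (hint : ω + g ∈ integralM K 2) : g = 0 := by
  have hx : Transcendental ℚ (xK α β c K a e) := transc hG ha K
  have hspan := milnor hx ∅ hg (by
    intro π hmon hirr _
    have hdeg : π.degree ≠ 0 := by
      intro h
      have h1 := Polynomial.eq_C_of_degree_eq_zero h
      have h2 : IsUnit π := by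
        rw [h1]
        apply Polynomial.isUnit_C.2
        rw [isUnit_iff_ne_zero]
        intro h3
        rw [h3, C_0] at h1
        exact hirr.ne_zero h1
      exact hirr.not_isUnit h2
    obtain ⟨η, hη⟩ := IsAlgClosed.exists_aeval_eq_zero ℂ π hdeg
    obtain ⟨φ, hφ⟩ := ISF.exists_pt (c := c) (e := e) hG ha hdl η
    set b : HypRingQ (n := 1) α β c := Polynomial.eval₂
      ((qmk α β c : MvPolynomial (Fin 2) ℚ →+* HypRingQ (n := 1) α β c).comp MvPolynomial.C)
      (affFun α β c a e) π with hbdef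
    have hbK : algebraMap _ K b = aeval (xK α β c K a e) π := by
      rw [hbdef, Polynomial.hom_eval₂, aeval_def]
      congr 1
      exact Subsingleton.elim _ _
    have hb : b ≠ 0 := by
      intro h
      rw [h, map_zero] at hbK
      exact aeval_ne hx hirr.ne_zero hbK.symm
    have hφb : φ b = 0 := by
      rw [← hη, hbdef, Polynomial.hom_eval₂, aeval_def, hφ]
      congr 1
      exact Subsingleton.elim _ _
    obtain ⟨O, ρ, hdvr, hO, hρ⟩ := ISF.exists_place hG K φ hb hφb
    refine ⟨O, hdvr, ISF.rat_mem hO, (hO (affFun α β c a e)).1,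
      ISF.pz_lt hO hρ (by rw [hφ]; exact hη), ?_⟩
    have hωO := ISF.US_unr hO hω
    have htot : ω + g ∈ unrM O 2 := by
      unfold integralM at hint
      rw [Submodule.mem_iInf] at hint
      have h1 := hint O
      rw [Submodule.mem_iInf] at h1
      exact h1 hdvr
    have h2 := Submodule.sub_mem _ htot hωO
    rwa [add_sub_cancel_left] at h2)
  have h0 : {v : KMQ K 2 | ∃ s ∈ (∅ : Set ℚ), ∃ q : ℚˣ,
      v = sy (pq (xK α β c K a e) (X - C s)) (cst K q)} = ∅ := by
    ext v
    simp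
  rw [h0, Submodule.span_empty, Submodule.mem_bot] at hspan
  exact hspan

theorem full_le (hG : Good α β c) {M : ℕ} (hM : Gen α β c Δ a e M)
    {K : Type} [Field K] [CharZero K] [Algebra (HypRingQ (n := 1) α β c) K]
    [IsFractionRing (HypRingQ (n := 1) α β c) K] :
    fullPart (HypRingQ (n := 1) α β c) K (xK α β c K a e) ≤ US α β c K := by
  classical
  rintro z ⟨hz1, hz2⟩
  have ha : a ≠ 0 := hM.hF.ha
  have hx : Transcendental ℚ (xK α β c K a e) := transc hG ha K
  obtain ⟨Λ, m, P, w, hm, hP, hn⟩ := normal_full hx ha hz1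
  obtain ⟨γ, hγ, ω, hω, h1⟩ := Submodule.mem_sup.1 hn
  have hz : (m : ℚ) • z = ω + (γ + ∑ π ∈ P, sy (pz (xK α β c K a e) π) (uK α β c K (w π))) := by
    have h2 := eq_add_of_sub_eq h1.symm
    rw [h2]
    abel
  have hint : ω + (γ + ∑ π ∈ P, sy (pz (xK α β c K a e) π) (uK α β c K (w π))) ∈
      integralM K 2 := by
    rw [← hz]
    exact Submodule.smul_mem _ _ hz2
  have hred : ∀ π ∈ P, sy (pz (xK α β c K a e) π) (uK α β c K (w π)) ∈
      LP (xK α β c K a e) ⊔ US α β c K := by
    intro π hπ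
    refine redf hG hM (hP π hπ) (w π) ?_ ?_ K
    · intro φ φ' h h0
      exact ISF.norm_eq hG hx hω hγ hP hint hπ φ φ' h h0
    · intro p _ φ φ' h h0
      exact ISF.norm_eq hG hx hω hγ hP hint hπ φ φ' h h0
  have hsum : γ + ∑ π ∈ P, sy (pz (xK α β c K a e) π) (uK α β c K (w π)) ∈
      LP (xK α β c K a e) ⊔ US α β c K :=
    Submodule.add_mem _ (Submodule.mem_sup_left hγ) (Submodule.sum_mem _ hred)
  obtain ⟨g, hg, o, ho, h3⟩ := Submodule.mem_sup.1 hsum
  have h4 : (m : ℚ) • z = (ω + o) + g := by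
    rw [hz, ← h3]
    abel
  have h5 : ω + o ∈ US α β c K := Submodule.add_mem _ hω ho
  have h6 : g = 0 := LP_zero hG ha hM.hdl h5 hg (by
    rw [← h4]
    exact Submodule.smul_mem _ _ hz2)
  rw [h6, add_zero] at h4
  have h7 := Submodule.smul_mem (US α β c K) ((m : ℚ)⁻¹) h5
  rwa [← h4, smul_smul, inv_mul_cancel₀ (Nat.cast_ne_zero.2 hm), one_smul] at h7

end Pool.Agent.ISF
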