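import Mathlib
import Pool.Agent.ISI.Defs

/-! Symbols of functions with supports of any size: units of `A` and values of polynomials with
integral coefficients at finitely many affine functions. -/

namespace Pool.Agent.ISF

open Pool.Agent.Helper11 Pool.Agent.ISI

/-- The subgroup of `Kˣ` generated by the units of `A` and by the non zero values at `x` of the
polynomials with integral coefficients whose leading coefficient is at most `Λ` in absolute value
(all polynomials if `Λ` is infinite). -/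
def ratGroup (A K : Type) [CommRing A] [Field K] [Algebra A K] (Λ : ℕ∞) (x : K) :
    Subgroup Kˣ :=
  Subgroup.closure ({u | ∃ f : Aˣ, (u : K) = algebraMap A K f} ∪
    {u | ∃ p : Polynomial ℤ, (p.leadingCoeff.natAbs : ℕ∞) ≤ Λ ∧
      (u : K) = Polynomial.aeval x p})

/-- The integral elements of the span of the symbols of units of `A` and of the symbols of
elements of `ratGroup A K Λ (x i)`, for some `i`. -/
noncomputable def ratPart (A K : Type) [CommRing A] [Field K] [Algebra A K] (Λ : ℕ∞) {t : ℕ}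
    (x : Fin t → K) : Submodule ℚ (KMQ K 2) :=
  (LinearMap.range (KMQ.map (algebraMap A K) 2) ⊔ ⨆ i, Submodule.span ℚ
    {z | ∃ f : Fin 2 → Kˣ, (∀ j, f j ∈ ratGroup A K Λ (x i)) ∧ z = symM f}) ⊓ integralM K 2

/-- `P` is the common point of two lines of the arrangement. -/
def IsVertex {N : ℕ} (α : Fin N → Fin 2 → ℤ) (β : Fin N → ℤ) (P : Fin 2 → ℚ) : Prop :=
  ∃ i j, hypDet α ![i, j] ≠ 0 ∧ (α i 0 : ℚ) * P 0 + (α i 1 : ℚ) * P 1 + (β i : ℚ) = 0 ∧
    (α j 0 : ℚ) * P 0 + (α j 1 : ℚ) * P 1 + (β j : ℚ) = 0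

/-- The determinants of `a` with the lines divide `Δ`, and the linear form `a` takes different
values at different vertices. -/
def GenericForm {N : ℕ} (α : Fin N → Fin 2 → ℤ) (β : Fin N → ℤ) (Δ : ℤ) (a : Fin 2 → ℤ) :
    Prop :=
  (∀ j, a 0 * α j 1 - a 1 * α j 0 ∣ Δ) ∧ ∀ P Q : Fin 2 → ℚ, IsVertex α β P → IsVertex α β Q →
    (a 0 : ℚ) * P 0 + (a 1 : ℚ) * P 1 = (a 0 : ℚ) * Q 0 + (a 1 : ℚ) * Q 1 → P = Q

end Pool.Agent.ISF
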