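import Mathlib
import Pool.Agent.ISI.Fin
import Pool.Agent.ISF.RDefs
import Pool.Agent.ISF.Fin

/-! ISF-Fin2 (helper69): both ranges of parameters. -/

namespace Pool.Agent.ISF

open Pool.Agent.Helper11 Pool.Agent.ISI Polynomial

variable {N : ℕ} {α : Fin N → Fin 2 → ℤ} {β : Fin N → ℤ} {c Δ : ℤ}

/-- the form `(a, e)` of a generic linear form satisfies the distinctness hypothesis -/
theorem generic_dist (hG : Good α β c) {a : Fin 2 → ℤ} (e : ℤ)
    (h : ∀ P Q : Fin 2 → ℚ, IsVertex α β P → IsVertex α β Q →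
      (a 0 : ℚ) * P 0 + (a 1 : ℚ) * P 1 = (a 0 : ℚ) * Q 0 + (a 1 : ℚ) * Q 1 → P = Q)
    (i j k l : Fin N) (hij : hypDet α ![i, j] ≠ 0) (hkl : hypDet α ![k, l] ≠ 0)
    (heq : hypDet α ![i, j] * d3 α β a e k l = hypDet α ![k, l] * d3 α β a e i j) :
    (i = k ∧ j = l) ∨ (i = l ∧ j = k) := by
  have hpt : ∀ i j : Fin N, hypDet α ![i, j] ≠ 0 → ∃ P : Fin 2 → ℚ,
      av (α i) (β i) P = 0 ∧ av (α j) (β j) P = 0 ∧
        (hypDet α ![i, j] : ℚ) * av a e P = d3 α β a e i j := by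
    intro i j hij
    have hq : ((hypDet α ![i, j] : ℤ) : ℚ) ≠ 0 := by exact_mod_cast hij
    refine ⟨![((α i 1 * β j - α j 1 * β i : ℤ) : ℚ) / (hypDet α ![i, j] : ℤ),
      ((α j 0 * β i - α i 0 * β j : ℤ) : ℚ) / (hypDet α ![i, j] : ℤ)], ?_, ?_, ?_⟩
    · unfold av
      simp only [Matrix.cons_val_zero, Matrix.cons_val_one]
      field_simp
      rw [dt_eq]
      push_cast
      ring
    · unfold av
      simp only [Matrix.cons_val_zero, Matrix.cons_val_one]
      field_simp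
      rw [dt_eq]
      push_cast
      ring
    · unfold av d3 dl
      simp only [Matrix.cons_val_zero, Matrix.cons_val_one]
      field_simp
      rw [dt_eq]
      push_cast
      ring
  obtain ⟨P, hP1, hP2, hP3⟩ := hpt i j hij
  obtain ⟨Q, hQ1, hQ2, hQ3⟩ := hpt k l hkl
  have hqi : ((hypDet α ![i, j] : ℤ) : ℚ) ≠ 0 := by exact_mod_cast hij
  have hqk : ((hypDet α ![k, l] : ℤ) : ℚ) ≠ 0 := by exact_mod_cast hkl
  have hav : av a e P = av a e Q := by
    have h1 : ((hypDet α ![i, j] : ℤ) : ℚ) * (d3 α β a e k l : ℤ) =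
        ((hypDet α ![k, l] : ℤ) : ℚ) * (d3 α β a e i j : ℤ) := by exact_mod_cast heq
    have h2 : ((hypDet α ![i, j] : ℤ) : ℚ) * ((hypDet α ![k, l] : ℤ) : ℚ) *
        (av a e P - av a e Q) = 0 := by
      rw [← hP3, ← hQ3] at h1
      linear_combination -h1
    have h3 := (mul_eq_zero.1 h2).resolve_left (mul_ne_zero hqi hqk)
    exact sub_eq_zero.1 h3
  have hPQ : P = Q := h P Q ⟨i, j, hij, hP1, hP2⟩ ⟨k, l, hkl, hQ1, hQ2⟩ (by
    unfold av at hav
    linarith)
  subst hPQ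
  have hij' : i ≠ j := by
    rintro rfl
    rw [dt_eq] at hij
    exact hij (by ring)
  have hkl' : k ≠ l := by
    rintro rfl
    rw [dt_eq] at hkl
    exact hkl (by ring)
  have hk : k = i ∨ k = j := by
    by_contra hcon
    push Not at hcon
    exact triple hG P (Ne.symm hcon.1) (Ne.symm hcon.2) hij hP1 hP2 hQ1
  have hl : l = i ∨ l = j := by
    by_contra hcon
    push Not at hcon
    exact triple hG P (Ne.symm hcon.1) (Ne.symm hcon.2) hij hP1 hP2 hQ2
  rcases hk with rfl | rfl <;> rcases hl with rfl | rfl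
  · exact absurd rfl hkl'
  · exact Or.inl ⟨rfl, rfl⟩
  · exact Or.inr ⟨rfl, rfl⟩
  · exact absurd rfl hkl'

theorem rat_le (hG : Good α β c) (hΔ0 : Δ ≠ 0)
    (hΔ : ∀ J : Fin 2 → Fin N, hypDet α J ≠ 0 → hypDet α J ∣ Δ) (hΔc : Δ ^ (N + 1) ∣ c)
    {t M : ℕ} {Λ : ℕ∞} {a : Fin t → Fin 2 → ℤ} {e : Fin t → ℤ} (ht : t ≠ 0) (hΛ : Λ ≠ 0)
    (hM1 : 1 ≤ M) (hα : ∀ i m, |α i m| ≤ M) (hβ : ∀ i, |β i| ≤ M)
    (hF : ∀ i, Frm M (a i) (e i))
    (hd : ∀ i j, i ≠ j → a i 0 * a j 1 - a i 1 * a j 0 ≠ 0)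
    (h : (∃ L : ℕ, Λ = L ∧ (10 * M * L : ℤ) ^ (10 * N ^ 3) ≤ |c|) ∨
      t = 1 ∧ 3 ≤ N ∧ |Δ| ^ 12 * (10 * M : ℤ) ^ (30 * N ^ 3) ≤ |c| ∧
        ∀ i, GenericForm α β Δ (a i))
    {K : Type} [Field K] [CharZero K] [Algebra (HypRingQ (n := 1) α β c) K]
    [IsFractionRing (HypRingQ (n := 1) α β c) K] :
    ratPart (HypRingQ (n := 1) α β c) K Λ (fun i => xK α β c K (a i) (e i)) ≤
      US α β c K := by
  rcases h with ⟨L, rfl, hL⟩ | ⟨rfl, hN3, hc, hgen⟩
  · have hL1 : 1 ≤ L := by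
      rcases Nat.eq_zero_or_pos L with h0 | h0
      · subst h0
        exact absurd rfl hΛ
      · exact h0
    have hB : Bd α β c M L := ⟨hM1, hL1, hα, hβ, hL⟩
    have h1 : ratPart (HypRingQ (n := 1) α β c) K (L : ℕ∞)
        (fun i => xK α β c K (a i) (e i)) =
        suppPart (HypRingQ (n := 1) α β c) K L (fun i => xK α β c K (a i) (e i)) := by
      unfold ratPart suppPart suppSym ratGroup suppGroup
      simp only [Nat.cast_le]
    rw [h1]
    exact supp_le hG hB hF hd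
  · have hM : Gen α β c Δ (a 0) (e 0) M := by
      refine ⟨hN3, hM1, hα, hβ, hF 0, ?_, ?_, hΔ0, hΔ, (hgen 0).1, hΔc, hc⟩
      · intro j h0
        have h1 := (hgen 0).1 j
        unfold dl at h0
        rw [h0] at h1
        exact hΔ0 (zero_dvd_iff.1 h1)
      · exact fun i j k l => generic_dist hG (e 0) (hgen 0).2 i j k l
    refine le_trans ?_ (full_le hG hM (K := K))
    refine le_inf ?_ inf_le_right
    refine inf_le_left.trans ?_
    refine sup_le ?_ (iSup_le fun i => ?_)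
    · rintro z ⟨w, rfl⟩
      have hw := mem_span_symM w
      induction hw using Submodule.span_induction with
      | mem w hw =>
        obtain ⟨f, rfl⟩ := hw
        rw [KMQ.map_symM]
        exact Submodule.subset_span ⟨_, fun i => Subgroup.subset_closure
          (Or.inl ⟨f i, rfl⟩), rfl⟩
      | zero => rw [map_zero]; exact Submodule.zero_mem _
      | add x y _ _ h1 h2 => rw [map_add]; exact Submodule.add_mem _ h1 h2
      | smul r x _ h1 => rw [map_smul]; exact Submodule.smul_mem _ _ h1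
    · have hi : i = 0 := Subsingleton.elim _ _
      subst hi
      refine Submodule.span_mono ?_
      rintro z ⟨f, hf, rfl⟩
      refine ⟨f, fun j => ?_, rfl⟩
      refine (Subgroup.closure_mono ?_) (hf j)
      rintro u (hu | ⟨p, -, hp⟩)
      · exact Or.inl hu
      · exact Or.inr ⟨p, hp⟩

end Pool.Agent.ISF
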