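import Mathlib
import Pool.Agent.Helper11.KDefs

/-! MODULE ISF-RegL (the regulator over a one-dimensional torus is the classical integral).

`regTorus` (Helper11/KDefs.lean, here with `n = 1`) is
`∫ x in Icc 0 (topB 1), ((-I)^1 * det (regRow (f 0) x, regRow (f 1) x)).re` over `Fin 2 → ℝ`, where
`regRow f x = (log ‖f (tail x)‖, ⟨x 0 * (D / f).re, (D / f).im⟩)`, `D = fderiv ℝ f (tail x) (Pi.single 0 1)`.

PROOF. `tail x = fun _ => x 1` (functions on `Fin 1`). `Matrix.det_fin_two`: the integrand is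
`log ‖f 0‖ * (D₁ / f 1).im - log ‖f 1‖ * (D₀ / f 0).im` at `tail x` (the terms with `x 0` are real multiples
of `-I` and have real part 0), a function `G (x 1)` of `x 1` only. Chain rule (`h`: `f j` is
differentiable): `D_j = deriv (fun θ => f j fun _ => θ) (x 1)`. `Icc 0 (topB 1)` is the set of `x` with
`x 0 ∈ Icc 0 1`, `x 1 ∈ Icc 0 (2 π)`; with the measure preserving equivalence
`MeasurableEquiv.finTwoArrow : (Fin 2 → ℝ) ≃ᵐ ℝ × ℝ` (`MeasureTheory.volume_preserving_finTwoArrow`) and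
`MeasureTheory.setIntegral_prod_mul` (with the factor `1` in the first variable) the integral is
`1 * ∫ θ in Icc 0 (2 π), G θ`, which is the interval integral (`intervalIntegral.integral_of_le`,
`integral_Icc_eq_integral_Ioc`). -/

namespace Pool.Agent.ISF

open Pool.Agent.Helper11

open MeasureTheory

private theorem rl_deriv {F : (Fin 1 → ℝ) → ℂ} (h : Differentiable ℝ F) (θ : ℝ) :
    fderiv ℝ F (fun _ => θ) (Pi.single 0 1) = deriv (fun t : ℝ => F fun _ => t) θ := by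
  have h1 : HasDerivAt (fun t : ℝ => (fun _ : Fin 1 => t)) (fun _ => (1 : ℝ)) θ :=
    hasDerivAt_pi.2 fun _ => hasDerivAt_id θ
  have h2 : HasDerivAt (F ∘ fun t : ℝ => (fun _ : Fin 1 => t))
      (fderiv ℝ F (fun _ => θ) (fun _ => (1 : ℝ))) θ :=
    ((h (fun _ => θ)).hasFDerivAt).comp_hasDerivAt θ h1
  have h3 : (Pi.single 0 1 : Fin 1 → ℝ) = fun _ => 1 := by
    funext i
    rw [Subsingleton.elim i 0, Pi.single_eq_same]
  rw [h3]
  exact h2.deriv.symm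

private theorem rl_tail (x : Fin 2 → ℝ) : Fin.tail x = fun _ : Fin 1 => x 1 := by
  funext i
  rw [Subsingleton.elim i 0]
  rfl

private theorem rl_alg (L0 L1 a0 a1 b0 b1 : ℝ) :
    ((-Complex.I) ^ 1 * ((L0 : ℂ) * (⟨a1, b1⟩ : ℂ) - (⟨a0, b0⟩ : ℂ) * (L1 : ℂ))).re =
      L0 * b1 - L1 * b0 := by
  simp [Complex.mul_re, Complex.mul_im]
  ring

private theorem rl_point (f : Fin 2 → (Fin 1 → ℝ) → ℂ) (h : ∀ j, Differentiable ℝ (f j))
    (x : Fin 2 → ℝ) :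
    ((-Complex.I) ^ 1 * Matrix.det (Matrix.of fun j => regRow (f j) x)).re =
      Real.log ‖f 0 fun _ => x 1‖ *
        (deriv (fun t : ℝ => f 1 fun _ => t) (x 1) / f 1 fun _ => x 1).im -
      Real.log ‖f 1 fun _ => x 1‖ *
        (deriv (fun t : ℝ => f 0 fun _ => t) (x 1) / f 0 fun _ => x 1).im := by
  have h0 : ∀ j, regRow (f j) x 0 = (Real.log ‖f j fun _ => x 1‖ : ℂ) := by
    intro j
    unfold regRow
    rw [Fin.cons_zero, rl_tail]
  have h1 : ∀ j, regRow (f j) x 1 =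
      ⟨x 0 * (deriv (fun t : ℝ => f j fun _ => t) (x 1) / f j fun _ => x 1).re,
        (deriv (fun t : ℝ => f j fun _ => t) (x 1) / f j fun _ => x 1).im⟩ := by
    intro j
    have e : (1 : Fin 2) = Fin.succ 0 := rfl
    unfold regRow
    conv_lhs => rw [e]
    rw [Fin.cons_succ, rl_tail, rl_deriv (h j)]
  rw [Matrix.det_fin_two]
  simp only [Matrix.of_apply, h0, h1]
  exact rl_alg _ _ _ _ _ _

theorem regTorus_one (f : Fin 2 → (Fin 1 → ℝ) → ℂ) (h : ∀ j, Differentiable ℝ (f j)) :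
    regTorus (n := 1) f = ∫ θ in (0 : ℝ)..(2 * Real.pi),
      (Real.log ‖f 0 fun _ => θ‖ *
        (deriv (fun t : ℝ => f 1 fun _ => t) θ / f 1 fun _ => θ).im -
      Real.log ‖f 1 fun _ => θ‖ *
        (deriv (fun t : ℝ => f 0 fun _ => t) θ / f 0 fun _ => θ).im) := by
  unfold regTorus
  have h1 : ∀ x : Fin 2 → ℝ,
      ((-Complex.I) ^ 1 * Matrix.det (Matrix.of fun j => regRow (f j) x)).re = _ :=
    fun x => rl_point f h x
  simp only [h1]
  obtain ⟨G, hG⟩ : ∃ G : ℝ → ℝ, G = fun θ => Real.log ‖f 0 fun _ => θ‖ *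
        (deriv (fun t : ℝ => f 1 fun _ => t) θ / f 1 fun _ => θ).im -
      Real.log ‖f 1 fun _ => θ‖ *
        (deriv (fun t : ℝ => f 0 fun _ => t) θ / f 0 fun _ => θ).im := ⟨_, rfl⟩
  have h2 : ∀ x : Fin 2 → ℝ, Real.log ‖f 0 fun _ => x 1‖ *
        (deriv (fun t : ℝ => f 1 fun _ => t) (x 1) / f 1 fun _ => x 1).im -
      Real.log ‖f 1 fun _ => x 1‖ *
        (deriv (fun t : ℝ => f 0 fun _ => t) (x 1) / f 0 fun _ => x 1).im = G (x 1) := by
    intro x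
    rw [hG]
  have h3 : ∀ θ : ℝ, Real.log ‖f 0 fun _ => θ‖ *
        (deriv (fun t : ℝ => f 1 fun _ => t) θ / f 1 fun _ => θ).im -
      Real.log ‖f 1 fun _ => θ‖ *
        (deriv (fun t : ℝ => f 0 fun _ => t) θ / f 0 fun _ => θ).im = G θ := by
    intro θ
    rw [hG]
  simp only [h2, h3]
  have hset : Set.Icc (0 : Fin 2 → ℝ) (topB 1) =
      (MeasurableEquiv.finTwoArrow : (Fin 2 → ℝ) ≃ᵐ ℝ × ℝ) ⁻¹'
        (Set.Icc (0 : ℝ) 1 ×ˢ Set.Icc (0 : ℝ) (2 * Real.pi)) := by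
    ext x
    have e0 : topB 1 0 = 1 := rfl
    have e1 : topB 1 1 = 2 * Real.pi := rfl
    have e2 : (MeasurableEquiv.finTwoArrow : (Fin 2 → ℝ) ≃ᵐ ℝ × ℝ) x = (x 0, x 1) := rfl
    rw [Set.mem_preimage, e2, Set.mem_prod, Set.mem_Icc, Set.mem_Icc, Set.mem_Icc, Pi.le_def,
      Pi.le_def, Fin.forall_fin_two, Fin.forall_fin_two, e0, e1, Pi.zero_apply, Pi.zero_apply]
    tauto
  have h4 := (volume_preserving_finTwoArrow ℝ).setIntegral_preimage_emb
    MeasurableEquiv.finTwoArrow.measurableEmbedding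
    (fun z : ℝ × ℝ => (fun _ : ℝ => (1 : ℝ)) z.1 * G z.2)
    (Set.Icc (0 : ℝ) 1 ×ˢ Set.Icc (0 : ℝ) (2 * Real.pi))
  have h6 : ∫ z in (Set.Icc (0 : ℝ) 1 ×ˢ Set.Icc (0 : ℝ) (2 * Real.pi) : Set (ℝ × ℝ)),
      (fun _ : ℝ => (1 : ℝ)) z.1 * G z.2 =
      (∫ x in Set.Icc (0 : ℝ) 1, (fun _ : ℝ => (1 : ℝ)) x) *
        ∫ y in Set.Icc (0 : ℝ) (2 * Real.pi), G y :=
    setIntegral_prod_mul (μ := (volume : Measure ℝ)) (ν := (volume : Measure ℝ))
      (fun _ : ℝ => (1 : ℝ)) G _ _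
  rw [← hset, h6] at h4
  have h5 : ∫ x in Set.Icc (0 : Fin 2 → ℝ) (topB 1), G (x 1) =
      ∫ x in Set.Icc (0 : Fin 2 → ℝ) (topB 1),
        (fun _ : ℝ => (1 : ℝ)) ((MeasurableEquiv.finTwoArrow : (Fin 2 → ℝ) ≃ᵐ ℝ × ℝ) x).1 *
          G ((MeasurableEquiv.finTwoArrow : (Fin 2 → ℝ) ≃ᵐ ℝ × ℝ) x).2 := by
    refine integral_congr_ae (Filter.Eventually.of_forall fun x => ?_)
    show G (x 1) = 1 * G (x 1)
    rw [one_mul]
  refine h5.trans (h4.trans ?_)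
  have h7 : (∫ x in Set.Icc (0 : ℝ) 1, (fun _ : ℝ => (1 : ℝ)) x) = 1 := by simp
  rw [intervalIntegral.integral_of_le (by positivity), h7, one_mul, integral_Icc_eq_integral_Ioc]

end Pool.Agent.ISF
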